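import Mathlib

/-!
# Permutation representations and simple quotients
-/

set_option autoImplicit false

namespace Pool.Agent.TH12.Puig

open Finset Module

universe u v

section perm

variable {F : Type*} [Field F] {G : Type*} [Group G] {X Y : Type*}

/-- the permutation representation on functions -/
def permRep (F : Type*) [Field F] (s : G →* Equiv.Perm X) : Representation F G (X → F) where
  toFun g := LinearMap.funLeft F F (s g⁻¹)
  map_one' := by
    ext f x
    simp
  map_mul' g h := by
    ext f x
    simp [LinearMap.funLeft, mul_inv_rev]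

lemma permRep_apply (s : G →* Equiv.Perm X) (g : G) (f : X → F) (x : X) :
    permRep F s g f x = f (s g⁻¹ x) := rfl

/-- push forward of functions -/
def push (F : Type*) [Field F] [Fintype X] [DecidableEq Y] (φ : X → Y) : (X → F) →ₗ[F] (Y → F) where
  toFun f y := ∑ x ∈ univ.filter (fun x => φ x = y), f x
  map_add' f g := by
    ext y; simp only [Pi.add_apply, Finset.sum_add_distrib]
  map_smul' c f := by
    ext y; simp only [Pi.smul_apply, RingHom.id_apply, smul_eq_mul, Finset.mul_sum]

lemma push_apply [Fintype X] [DecidableEq Y] (φ : X → Y) (f : X → F) (y : Y) :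
    push F φ f y = ∑ x ∈ univ.filter (fun x => φ x = y), f x := rfl

lemma push_equivariant [Fintype X] [DecidableEq Y] (s : G →* Equiv.Perm X) (t : G →* Equiv.Perm Y)
    (φ : X → Y) (h : ∀ g x, φ (s g x) = t g (φ x)) (g : G) (f : X → F) :
    push F φ (permRep F s g f) = permRep F t g (push F φ f) := by
  ext y
  rw [permRep_apply, push_apply, push_apply]
  apply Finset.sum_equiv (s g⁻¹)
  · intro x
    simp only [mem_filter, mem_univ, true_and]
    rw [h]
    exact ((t g⁻¹).injective.eq_iff).symm
  · intro x _
    rw [permRep_apply]

lemma funLeft_equivariant (s : G →* Equiv.Perm X) (t : G →* Equiv.Perm Y)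
    (φ : X → Y) (h : ∀ g x, φ (s g x) = t g (φ x)) (g : G) (f : Y → F) :
    LinearMap.funLeft F F φ (permRep F t g f) = permRep F s g (LinearMap.funLeft F F φ f) := by
  ext x
  rw [permRep_apply, LinearMap.funLeft_apply, LinearMap.funLeft_apply, permRep_apply, h]

end perm

section alg

variable {F : Type*} [Field F] {G : Type*} [Group G] {V W : Type*} [AddCommGroup V] [Module F V]
  [AddCommGroup W] [Module F W]

lemma intertwine_alg {ρ : Representation F G V} {σ : Representation F G W} (T : V →ₗ[F] W)
    (h : ∀ g v, T (ρ g v) = σ g (T v)) (e : MonoidAlgebra F G) (v : V) :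
    T (ρ.asAlgebraHom e v) = σ.asAlgebraHom e (T v) := by
  induction e using MonoidAlgebra.induction_linear with
  | zero => rw [map_zero, map_zero, LinearMap.zero_apply, LinearMap.zero_apply, map_zero]
  | add x y hx hy =>
    rw [map_add, map_add, LinearMap.add_apply, LinearMap.add_apply, map_add, hx, hy]
  | single g r =>
    rw [Representation.asAlgebraHom_single, Representation.asAlgebraHom_single,
      LinearMap.smul_apply, LinearMap.smul_apply, map_smul, h]

/-- the augmentation -/
noncomputable def aug (F G : Type*) [Field F] [Group G] : MonoidAlgebra F G →ₐ[F] F :=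
  MonoidAlgebra.lift F F G 1

lemma aug_single (g : G) (r : F) : aug F G (MonoidAlgebra.single g r) = r := by
  simp [aug]

lemma trivial_alg (e : MonoidAlgebra F G) (v : V) :
    (Representation.trivial F G V).asAlgebraHom e v = aug F G e • v := by
  induction e using MonoidAlgebra.induction_linear with
  | zero => rw [map_zero, map_zero, LinearMap.zero_apply, zero_smul]
  | add x y hx hy => rw [map_add, map_add, LinearMap.add_apply, hx, hy, add_smul]
  | single g r =>
    rw [Representation.asAlgebraHom_single, LinearMap.smul_apply, Representation.trivial_apply,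
      aug_single]

end alg

section quot

variable {F : Type u} [Field F] {G : Type v} [Group G] {V : Type u} [AddCommGroup V] [Module F V]
  [FiniteDimensional F V]

/-- simple subquotients -/
theorem exists_simple_quotient (ρ : Representation F G V) (Z I : Submodule F V)
    (hZ : ∀ g, ∀ v ∈ Z, ρ g v ∈ Z) (hI : ∀ g, ∀ v ∈ I, ρ g v ∈ I) (hZI : ¬ Z ≤ I) :
    ∃ (M : Type u) (_ : AddCommGroup M) (_ : Module F M) (_ : FiniteDimensional F M)
      (σ : Representation F G M) (π : Z →ₗ[F] M), σ.IsIrreducible ∧ Function.Surjective π ∧
      (∀ g (z : Z), π ⟨ρ g z, hZ g z z.2⟩ = σ g (π z)) ∧ ∀ z : Z, (z : V) ∈ I → π z = 0 := by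
  classical
  -- the restriction to `Z`
  let τ : Representation F G Z :=
    { toFun := fun g => (ρ g).restrict (hZ g)
      map_one' := by ext; simp
      map_mul' := fun g h => by ext; simp }
  have hτ : ∀ g (z : Z), τ g z = ⟨ρ g z, hZ g z z.2⟩ := fun g z => rfl
  -- a maximal invariant subspace
  let P : ℕ → Prop := fun n => ∃ N : Submodule F Z, (∀ g, ∀ z ∈ N, τ g z ∈ N) ∧
    (∀ z : Z, (z : V) ∈ I → z ∈ N) ∧ N ≠ ⊤ ∧ finrank F Z = n + finrank F N
  have hP : ∃ n, P n := by
    refine ⟨finrank F Z - finrank F (I.comap Z.subtype), I.comap Z.subtype, ?_, ?_, ?_, ?_⟩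
    · intro g z hz
      exact hI g z hz
    · intro z hz; exact hz
    · intro h
      apply hZI
      intro v hv
      have : (⟨v, hv⟩ : Z) ∈ I.comap Z.subtype := by rw [h]; trivial
      exact this
    · have := Submodule.finrank_le (I.comap Z.subtype)
      omega
  obtain ⟨N, hN1, hN2, hN3, hN4⟩ := Nat.find_spec hP
  have hmax : ∀ N' : Submodule F Z, (∀ g, ∀ z ∈ N', τ g z ∈ N') → N ≤ N' → N' = N ∨ N' = ⊤ := by
    intro N' h1 h2
    by_cases h3 : N' = ⊤
    · exact Or.inr h3
    · left
      have h4 := Nat.find_min' hP (m := finrank F Z - finrank F N') ⟨N', h1,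
        fun z hz => h2 (hN2 z hz), h3, by
          have := Submodule.finrank_le N'
          omega⟩
      have h5 := Submodule.finrank_le N'
      symm
      apply Submodule.eq_of_le_of_finrank_le h2
      omega
  let σ : Representation F G (Z ⧸ N) :=
    { toFun := fun g => N.mapQ N (τ g) (fun z hz => hN1 g z hz)
      map_one' := by
        apply LinearMap.ext
        intro x
        obtain ⟨z, rfl⟩ := N.mkQ_surjective x
        rw [Submodule.mkQ_apply, Submodule.mapQ_apply, map_one]
        rfl
      map_mul' := fun g h => by
        apply LinearMap.ext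
        intro x
        obtain ⟨z, rfl⟩ := N.mkQ_surjective x
        rw [Submodule.mkQ_apply, Submodule.mapQ_apply, Module.End.mul_apply, Submodule.mapQ_apply,
          Submodule.mapQ_apply, map_mul]
        rfl }
  have hσ : ∀ g (z : Z), N.mkQ (τ g z) = σ g (N.mkQ z) := fun g z => rfl
  refine ⟨Z ⧸ N, inferInstance, inferInstance, inferInstance, σ, N.mkQ, ?_, N.mkQ_surjective,
    fun g z => hσ g z, ?_⟩
  · have hnt : Nontrivial (Subrepresentation σ) := by
      refine ⟨⟨⊥, ⊤, ?_⟩⟩
      intro h
      apply hN3
      have h1 : (⊥ : Submodule F (Z ⧸ N)) = ⊤ := congrArg Subrepresentation.toSubmodule h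
      rw [eq_top_iff]
      intro z _
      have h2 : N.mkQ z ∈ (⊥ : Submodule F (Z ⧸ N)) := by rw [h1]; trivial
      rw [Submodule.mem_bot, Submodule.mkQ_apply, Submodule.Quotient.mk_eq_zero] at h2
      exact h2
    exact { hnt with
      eq_bot_or_eq_top := fun W => by
        rcases hmax (W.toSubmodule.comap N.mkQ) (fun g z hz => by
          rw [Submodule.mem_comap] at hz ⊢
          rw [hσ]
          exact W.apply_mem_toSubmodule g hz) (fun z hz => by
          rw [Submodule.mem_comap, Submodule.mkQ_apply, (Submodule.Quotient.mk_eq_zero N).2 hz]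
          exact W.toSubmodule.zero_mem) with h | h
        · left
          apply Subrepresentation.toSubmodule_injective
          change W.toSubmodule = ⊥
          rw [eq_bot_iff]
          intro x hx
          obtain ⟨z, rfl⟩ := N.mkQ_surjective x
          have h2 : z ∈ N := by rw [← h]; exact hx
          rw [Submodule.mem_bot, Submodule.mkQ_apply, Submodule.Quotient.mk_eq_zero]
          exact h2
        · right
          apply Subrepresentation.toSubmodule_injective
          change W.toSubmodule = ⊤
          rw [eq_top_iff]
          intro x _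
          obtain ⟨z, rfl⟩ := N.mkQ_surjective x
          have h2 : z ∈ W.toSubmodule.comap N.mkQ := by rw [h]; trivial
          exact h2 }
  · intro z hz
    rw [Submodule.mkQ_apply, Submodule.Quotient.mk_eq_zero]
    exact hN2 z hz

end quot

end Pool.Agent.TH12.Puig
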