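import Pool.Agent.TH12.Blk.Main
import Pool.Agent.TH12.Puig.PermRep

/-!
# The principal block and its defect groups
-/

set_option autoImplicit false

namespace Pool.Agent.TH12.Puig

open MonoidAlgebra

section defs

variable {F : Type*} [Field F] {G : Type*} [Group G]

open Classical in
/-- The Brauer map `Br_P : FG → FC_G(P)` (all group elements outside `C_G(P)` are dropped). -/
noncomputable def brauer (P : Subgroup G) (a : MonoidAlgebra F G) : MonoidAlgebra F G :=
  ofCoeff (a.coeff.filter (· ∈ Subgroup.centralizer (P : Set G)))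

/-- `D` is a defect group of the block `b` of `FG`: a maximal `p`-subgroup with `Br_D(b) ≠ 0`. -/
structure IsDefectGroup (p : ℕ) (b : MonoidAlgebra F G) (D : Subgroup G) : Prop where
  pgroup : IsPGroup p D
  brauer_ne : brauer D b ≠ 0
  maximal : ∀ Q : Subgroup G, IsPGroup p Q → D ≤ Q → brauer Q b ≠ 0 → Q = D

end defs

section

variable {F : Type*} [Field F] {G : Type*} [Group G]

open Classical in
lemma coeff_brauer (P : Subgroup G) (a : MonoidAlgebra F G) (x : G) :
    (brauer P a).coeff x = if x ∈ Subgroup.centralizer (P : Set G) then a.coeff x else 0 := by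
  rw [brauer]
  exact Finsupp.filter_apply _ _ _

lemma aug_eq_sum [Fintype G] (a : MonoidAlgebra F G) : aug F G a = ∑ g, a.coeff g := by
  classical
  induction a using MonoidAlgebra.induction_linear with
  | zero => simp
  | add x y hx hy =>
    rw [map_add, hx, hy, ← Finset.sum_add_distrib]
    rfl
  | single g r =>
    rw [aug_single]
    symm
    rw [Finset.sum_eq_single g]
    · simp
    · intro b _ hb
      rw [MonoidAlgebra.coeff_single]
      exact Finsupp.single_eq_of_ne hb
    · intro h
      exact absurd (Finset.mem_univ g) h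

lemma aug_brauer [Fintype G] {p : ℕ} [Fact p.Prime] [CharP F p] {P : Subgroup G}
    (hP : IsPGroup p P) {a : MonoidAlgebra F G}
    (ha : ∀ g, of F G g * a = a * of F G g) : aug F G (brauer P a) = aug F G a := by
  classical
  rw [aug_eq_sum, aug_eq_sum, Blk.sum_conj_fixed P hP (fun x => a.coeff x)
    (fun u _ y => (Blk.comm_iff u a).1 (ha u) y), Finset.sum_filter]
  exact Finset.sum_congr rfl fun x _ => coeff_brauer P a x

lemma brauer_ne_zero [Fintype G] {p : ℕ} [Fact p.Prime] [CharP F p] {P : Subgroup G}
    (hP : IsPGroup p P) {a : MonoidAlgebra F G}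
    (ha : ∀ g, of F G g * a = a * of F G g) (h0 : aug F G a ≠ 0) : brauer P a ≠ 0 := by
  intro h
  apply h0
  rw [← aug_brauer hP ha, h, map_zero]

/-- the principal block -/
theorem exists_principal [Finite G] : ∃ b : MonoidAlgebra F G, Blk.IsBlockIdem b ∧
    aug F G b = 1 := by
  classical
  cases nonempty_fintype G
  obtain ⟨b, ⟨hc, hb, hab⟩, hmin⟩ := Blk.exists_min_idem
    {e : MonoidAlgebra F G | (∀ a, e * a = a * e) ∧ e * e = e ∧ aug F G e = 1}
    ⟨1, fun a => by rw [one_mul, mul_one], one_mul 1, map_one _⟩ (fun e he => he.2.1)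
  refine ⟨b, ⟨?_, hb, hc, ?_⟩, hab⟩
  · rintro rfl
    rw [map_zero] at hab
    exact zero_ne_one hab
  · intro e hee hec heb
    have h1 : aug F G e * aug F G e = aug F G e := by rw [← map_mul, hee]
    have hbe : b * e = e := by rw [← hec b, heb]
    by_cases h0 : aug F G e = 0
    · left
      have h2 : b - e = b := by
        apply hmin
        · refine ⟨fun a => ?_, ?_, ?_⟩
          · rw [sub_mul, mul_sub, hc, hec]
          · rw [sub_mul, mul_sub, mul_sub, hb, hee, heb, hbe, sub_self, sub_zero]
          · rw [map_sub, hab, h0, sub_zero]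
        · rw [sub_mul, hb, heb]
        · rw [mul_sub, hb, hbe]
      rw [sub_eq_self] at h2
      exact h2
    · right
      exact hmin e ⟨hec, hee, (mul_eq_left₀ h0).1 h1⟩ heb hbe

/-- The defect groups of the principal block are the Sylow subgroups. -/
theorem isDefectGroup_sylow [Finite G] {p : ℕ} [Fact p.Prime] [CharP F p]
    {b : MonoidAlgebra F G} (hb : ∀ a, b * a = a * b) (h0 : aug F G b ≠ 0) (P : Sylow p G) :
    IsDefectGroup p b (P : Subgroup G) := by
  cases nonempty_fintype G
  exact ⟨P.isPGroup', brauer_ne_zero P.isPGroup' (fun g => (hb _).symm) h0,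
    fun Q hQ hPQ _ => P.is_maximal' hQ hPQ⟩

theorem card_isDefectGroup [Finite G] {p : ℕ} [Fact p.Prime] [CharP F p]
    {b : MonoidAlgebra F G} (hb : ∀ a, b * a = a * b) (h0 : aug F G b ≠ 0) {D : Subgroup G}
    (hD : IsDefectGroup p b D) {n : ℕ} (hn : p ^ n ∣ Nat.card G) : p ^ n ≤ Nat.card D := by
  cases nonempty_fintype G
  let P : Sylow p G := ⟨D, hD.pgroup, fun {Q} hQ hDQ => hD.maximal Q hQ hDQ
    (brauer_ne_zero hQ (fun g => (hb _).symm) h0)⟩
  exact Nat.le_of_dvd Nat.card_pos (P.pow_dvd_card_of_pow_dvd_card hn)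

end

end Pool.Agent.TH12.Puig
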