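import Mathlib

/-!
# Homomorphisms to `ℤ/3` and invariants
-/

set_option autoImplicit false

namespace Pool.Agent.TH12.Puig

/-- An element of a finite abelian group on which all homomorphisms to `ℤ/3` vanish is a cube. -/
lemma isCube_of_forall_hom {A : Type*} [AddCommGroup A] (x : A)
    (h : ∀ f : A →+ ZMod 3, f x = 0) : ∃ y : A, 3 • y = x := by
  let C : AddSubgroup A := (nsmulAddMonoidHom (α := A) 3).range
  have hC : ∀ b : A ⧸ C, 3 • b = 0 := by
    intro b
    obtain ⟨a, rfl⟩ := QuotientAddGroup.mk_surjective b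
    rw [← QuotientAddGroup.mk_nsmul]
    rw [QuotientAddGroup.eq_zero_iff]
    exact ⟨a, rfl⟩
  let _ : Module (ZMod 3) (A ⧸ C) := AddCommGroup.zmodModule hC
  have hp : Fact (Nat.Prime 3) := ⟨Nat.prime_three⟩
  have h1 : (QuotientAddGroup.mk x : A ⧸ C) = 0 := by
    rw [← Module.forall_dual_apply_eq_zero_iff (ZMod 3)]
    intro φ
    exact h (φ.toAddMonoidHom.comp (QuotientAddGroup.mk' C))
  rw [QuotientAddGroup.eq_zero_iff] at h1
  obtain ⟨y, hy⟩ := h1
  exact ⟨y, hy⟩

/-- Let `A` be an abelian group of exponent a power of three, `w` an automorphism with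
`1 + w + w² = 0`. If `w` acts trivially on all homomorphisms to `ℤ/3`, then `w = 1`. -/
lemma eq_one_of_forall_hom {A : Type*} [AddCommGroup A] (w : A →+ A)
    (hw : ∀ x, x + w x + w (w x) = 0) (n : ℕ) (hn : ∀ x : A, 3 ^ n • x = 0)
    (h : ∀ f : A →+ ZMod 3, ∀ x, f (w x) = f x) (x : A) : w x = x := by
  -- `w³ = 1`
  have hw3 : ∀ x, w (w (w x)) = x := by
    intro x
    have h1 := hw x
    have h2 := hw (w x)
    have h3 : w (w (w x)) - x = (w x + w (w x) + w (w (w x))) - (x + w x + w (w x)) := by abel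
    rw [h1, h2, sub_zero] at h3
    exact sub_eq_zero.1 h3
  -- every `w x - x` is a cube of such an element
  have key : ∀ x, ∃ y, w x - x = 3 • (w y - y) := by
    intro x
    obtain ⟨r, hr⟩ := isCube_of_forall_hom (w x - x) (fun f => by rw [map_sub, h, sub_self])
    -- `3 r = -(w-1)² (w² r)`
    have h1 : w x - x = w (-(w (w (w r)) - w (w r))) - (-(w (w (w r)) - w (w r))) := by
      rw [← hr, hw3, map_neg, map_sub, hw3]
      have h2 := hw r
      have h3 : w (w r) = -r - w r := by
        have h4 : w (w r) - (-r - w r) = r + w r + w (w r) := by abel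
        rw [h2, sub_eq_zero] at h4
        exact h4
      rw [h3]
      abel
    obtain ⟨r', hr'⟩ := isCube_of_forall_hom (-(w (w (w r)) - w (w r)))
      (fun f => by rw [map_neg, map_sub, h, sub_self, neg_zero])
    refine ⟨r', ?_⟩
    rw [h1, ← hr', map_nsmul, smul_sub]
  have key2 : ∀ k : ℕ, ∀ x, ∃ y, w x - x = 3 ^ k • (w y - y) := by
    intro k
    induction k with
    | zero => intro x; exact ⟨x, by simp⟩
    | succ k ih =>
      intro x
      obtain ⟨y, hy⟩ := ih x
      obtain ⟨z, hz⟩ := key y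
      exact ⟨z, by rw [hy, hz, smul_smul, pow_succ]⟩
  obtain ⟨y, hy⟩ := key2 n x
  rw [hn, sub_eq_zero] at hy
  exact hy

end Pool.Agent.TH12.Puig
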