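import Pool.Agent.TH12.Puig.Vertex
import Pool.Agent.TH12.Puig.Homs

/-!
# The bound for the vertices
-/

set_option autoImplicit false

namespace Pool.Agent.TH12.Puig

open Finset Module

universe u

variable {F : Type u} [Field F] {G : Type} [Group G] {M : Type u} [AddCommGroup M] [Module F M]
variable {ρ : Representation F G M}

/-- relative projectivity passes to subgroups of index prime to the characteristic -/
lemma isRelProj_of_index [Finite G] [CharP F 3] {K H : Subgroup G} (hKH : K ≤ H)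
    (hH : IsRelProj ρ H) (m : ℕ) (hm : m * Nat.card K = Nat.card H) (h3 : ¬ 3 ∣ m) :
    IsRelProj ρ K := by
  classical
  cases nonempty_fintype G
  obtain ⟨θ, hθ, h1⟩ := isRelProj_iff.1 hH
  obtain ⟨s, hs, hcard⟩ := exists_transversal K H hKH
  have hsm : s.card = m := by
    have hpos : 0 < Nat.card K := Nat.card_pos
    exact Nat.eq_of_mul_eq_mul_right hpos (hcard.trans hm.symm)
  have hmF : (m : F) ≠ 0 := by
    rw [Ne, CharP.cast_eq_zero_iff F 3]
    exact h3
  refine isRelProj_iff.2 ⟨(m : F)⁻¹ • θ, ?_, ?_⟩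
  · have h2 := hθ.mono hKH
    rw [fixed_iff] at h2 ⊢
    intro h hh y
    rw [LinearMap.smul_apply, LinearMap.smul_apply, h2 h hh, map_smul]
  · have h4 : Fixed (A := Module.End F M) ρ K ((m : F)⁻¹ • θ) := by
      have h2 := hθ.mono hKH
      rw [fixed_iff] at h2 ⊢
      intro h hh y
      rw [LinearMap.smul_apply, LinearMap.smul_apply, h2 h hh, map_smul]
    rw [← tr_trans hKH hs h4, ← h1]
    congr 1
    have h5 : ∀ y ∈ s, cj (A := Module.End F M) ρ y ((m : F)⁻¹ • θ) = (m : F)⁻¹ • θ := by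
      intro y hy
      have h6 := hθ y (hs.1 y hy)
      rw [cj_apply] at h6 ⊢
      rw [mul_smul_comm, smul_mul_assoc, h6]
    rw [Finset.sum_congr rfl h5, Finset.sum_const, hsm, ← Nat.cast_smul_eq_nsmul F, smul_smul,
      mul_inv_cancel₀ hmF, one_smul]

lemma isRelProj_top [Finite G] : IsRelProj ρ ⊤ := by
  intro N _ _ σ f hf ⟨r, hr1, hr2⟩
  exact ⟨r, fun g x => hr1 g (Subgroup.mem_top g) x, hr2⟩

/-- Let `T` be an abelian subgroup, `w` an element of order three normalizing `T` with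
`z · wzw⁻¹ · w²zw⁻² = 1` for `z ∈ T` and at most three fixed points on `T`. If `T⟨w⟩` has index
prime to three, then every simple module on which `1` is a trace from `1` to `T` has a vertex of
order at most nine. -/
theorem exists_vertex [Fintype G] [IsAlgClosed F] [CharP F 3] [FiniteDimensional F M]
    (hρ : ρ.IsIrreducible) (T : Subgroup G) [DecidablePred (· ∈ T)] (w : G)
    (hn : ∀ s ∈ T, w * s * w⁻¹ ∈ T) (hw : w ∉ T) (hw3 : w ^ 3 = 1)
    (hN : ∀ s ∈ T, s * (w * s * w⁻¹) * (w * (w * s * w⁻¹) * w⁻¹) = 1)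
    (hcomm : ∀ s ∈ T, ∀ t ∈ T, s * t = t * s)
    (hC : ∀ S : Subgroup G, S ≤ T → (∀ s ∈ S, w * s * w⁻¹ = s) → Nat.card S ≤ 3)
    (m : ℕ) (hm : m * Nat.card (Rgp T w hn) = Nat.card G) (h3 : ¬ 3 ∣ m)
    (a : Module.End F M)
    (ha : ∑ g ∈ univ.filter (· ∈ T), cj (A := Module.End F M) ρ g a = 1) :
    ∃ Q : Subgroup G, IsVertex ρ Q ∧ IsPGroup 3 Q ∧ Nat.card Q ≤ 9 := by
  classical
  have h3p : Fact (Nat.Prime 3) := ⟨Nat.prime_three⟩
  have haS : ∀ S : Subgroup G, S ≤ T → ∃ a' : Module.End F M,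
      ∑ g ∈ univ.filter (· ∈ S), cj (A := Module.End F M) ρ g a' = 1 := by
    intro S hS
    obtain ⟨s, hs, -⟩ := exists_transversal S T hS
    refine ⟨∑ y ∈ s, cj (A := Module.End F M) ρ y a, ?_⟩
    rw [← ha, hs.sum hS, Finset.sum_comm]
    apply Finset.sum_congr rfl
    intro r hr
    simp only [mem_filter, mem_univ, true_and] at hr
    rw [map_sum]
    apply Finset.sum_congr rfl
    intro y hy
    rw [← cj_mul, hcomm r (hS hr) y (hs.1 y hy)]
  -- relative projectivity with respect to `T⟨w⟩`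
  have hRN : IsRelProj ρ (Rgp T w hn) := by
    refine isRelProj_of_index le_top isRelProj_top m ?_ h3
    rw [hm, Subgroup.card_top]
  -- a minimal subgroup
  obtain ⟨Q, hQ, hQmin⟩ : ∃ Q : Subgroup G, (Q ≤ Rgp T w hn ∧ IsRelProj ρ Q) ∧
      ∀ R : Subgroup G, (R ≤ Rgp T w hn ∧ IsRelProj ρ R) → Nat.card Q ≤ Nat.card R := by
    let P : ℕ → Prop := fun n => ∃ Q : Subgroup G, (Q ≤ Rgp T w hn ∧ IsRelProj ρ Q) ∧
      Nat.card Q = n
    have hP : ∃ n, P n := ⟨_, _, ⟨le_rfl, hRN⟩, rfl⟩
    obtain ⟨Q, hQ, hQc⟩ := Nat.find_spec hP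
    refine ⟨Q, hQ, fun R hR => ?_⟩
    rw [hQc]
    exact Nat.find_min' hP ⟨R, hR, rfl⟩
  have hvert : ∀ R : Subgroup G, R ≤ Q → IsRelProj ρ R → R = Q := by
    intro R hRQ hR
    exact Subgroup.eq_of_le_of_card_ge hRQ (hQmin R ⟨hRQ.trans hQ.1, hR⟩)
  -- `Q` is a `3`-group
  have hQ3 : IsPGroup 3 Q := by
    obtain ⟨P⟩ : Nonempty (Sylow 3 Q) := inferInstance
    let P' : Subgroup G := (P : Subgroup Q).map Q.subtype
    have hP'Q : P' ≤ Q := by
      rintro _ ⟨x, _, rfl⟩
      exact x.2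
    have hcardP' : Nat.card P' = Nat.card (P : Subgroup Q) :=
      (Nat.card_congr ((P : Subgroup Q).equivMapOfInjective Q.subtype
        Q.subtype_injective).toEquiv).symm
    have hidx : (P : Subgroup Q).index * Nat.card P' = Nat.card Q := by
      rw [hcardP', mul_comm]
      exact Subgroup.card_mul_index _
    have hP'R : IsRelProj ρ P' :=
      isRelProj_of_index hP'Q hQ.2 _ hidx P.not_dvd_index
    have hPQ := hvert P' hP'Q hP'R
    have hP'3 : IsPGroup 3 P' := P.isPGroup'.map Q.subtype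
    rw [hPQ] at hP'3
    exact hP'3
  refine ⟨Q, ⟨hQ.2, hvert⟩, hQ3, ?_⟩
  by_cases hQT : Q ≤ T
  · -- `M` is projective
    obtain ⟨a', ha'⟩ := haS Q hQT
    have htr : IsTransversal (⊥ : Subgroup G) Q (univ.filter (· ∈ Q)) := by
      refine ⟨fun x hx => by simpa using hx, fun h hh => ⟨h, by simpa using hh, ?_, ?_⟩⟩
      · rw [inv_mul_cancel]; exact Subgroup.one_mem _
      · intro y _ hy
        rw [Subgroup.mem_bot, inv_mul_eq_one] at hy
        exact hy
    obtain ⟨_, hj⟩ := star hρ hQ.2 (ι := Unit) (fun _ => ⊥) (fun _ => univ.filter (· ∈ Q))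
      (fun _ => a') (fun _ => ⟨bot_le, htr, by
        intro h hh
        rw [Subgroup.mem_bot] at hh
        rw [hh, cj_one]⟩) (by simpa using ha')
    have h1 := hvert ⊥ bot_le hj
    rw [← h1, Subgroup.card_bot]
    norm_num
  · -- the main case
    obtain ⟨x, hxQ, hxT⟩ : ∃ x ∈ Q, x ∉ T := by
      by_contra hcon
      push Not at hcon
      exact hQT hcon
    obtain ⟨v, hvQ, z, hz, hv⟩ : ∃ v ∈ Q, ∃ z ∈ T, v = z * w := by
      obtain ⟨z, hz, i, hi⟩ := mem_Rgp.1 (hQ.1 hxQ)
      have h0 : ∃ j < 3, w ^ i = w ^ j := by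
        refine ⟨i % 3, Nat.mod_lt _ (by norm_num), ?_⟩
        conv_lhs => rw [← Nat.div_add_mod i 3, pow_add, pow_mul, hw3, one_pow, one_mul]
      obtain ⟨j, hj, hij⟩ := h0
      rw [hij] at hi
      interval_cases j
      · exfalso
        apply hxT
        rw [hi, pow_zero, mul_one]
        exact hz
      · exact ⟨x, hxQ, z, hz, by rw [hi, pow_one]⟩
      · refine ⟨x⁻¹, Q.inv_mem hxQ, w * z⁻¹ * w⁻¹, hn _ (T.inv_mem hz), ?_⟩
        rw [hi, mul_inv_rev, mul_assoc (w * z⁻¹), inv_mul_cancel, mul_one]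
        congr 1
        rw [inv_eq_iff_mul_eq_one, ← pow_succ]
        exact hw3
    have hvT : v ∉ T := by
      intro h
      apply hw
      have h1 := T.mul_mem (T.inv_mem hz) h
      rwa [hv, inv_mul_cancel_left] at h1
    have hvconj : ∀ s ∈ T, v * s * v⁻¹ = w * s * w⁻¹ := by
      intro s hs
      have e1 : v * s * v⁻¹ = z * (w * s * w⁻¹) * z⁻¹ := by rw [hv]; group
      rw [e1, hcomm z hz _ (hn s hs), mul_inv_cancel_right]
    have hv3 : v ^ 3 = 1 := by
      have e1 : v ^ 3 = z * (w * z * w⁻¹) * (w * (w * z * w⁻¹) * w⁻¹) * w ^ 3 := by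
        rw [hv]
        simp only [pow_succ, pow_zero, one_mul, mul_assoc, inv_mul_cancel_left]
      rw [e1, hN z hz, hw3, one_mul]
    let S : Subgroup G := Q ⊓ T
    have hST : S ≤ T := inf_le_right
    have hSQ : S ≤ Q := inf_le_left
    have hvS : ∀ s ∈ S, v * s * v⁻¹ ∈ S := fun s hs =>
      ⟨Q.mul_mem (Q.mul_mem hvQ hs.1) (Q.inv_mem hvQ), by rw [hvconj s hs.2]; exact hn s hs.2⟩
    have hvS' : v ∉ S := fun h => hvT h.2
    have hQeq : Rgp S v hvS = Q := by
      apply le_antisymm (Rgp_le hSQ hvQ)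
      intro y hy
      have hvinvT : ∀ (i : ℕ), ∀ s ∈ T, v ^ i * s * (v ^ i)⁻¹ ∈ T := fun i s hs =>
        conj_pow_mem (fun s hs => by rw [hvconj s hs]; exact hn s hs) i s hs
      obtain ⟨z', hz', i, hi⟩ := mem_Rgp.1 (hQ.1 hy)
      -- `w^i = u v^i` with `u ∈ T`
      have h1 : ∀ i : ℕ, w ^ i * (v ^ i)⁻¹ ∈ T := by
        intro i
        induction i with
        | zero => rw [pow_zero, pow_zero, inv_one, mul_one]; exact T.one_mem
        | succ i ih =>
          have e1 : w ^ (i + 1) * (v ^ (i + 1))⁻¹ =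
              w ^ i * (v ^ i)⁻¹ * (v ^ i * (w * v⁻¹) * (v ^ i)⁻¹) := by
            rw [pow_succ, pow_succ]; group
          rw [e1]
          apply T.mul_mem ih
          apply hvinvT
          rw [hv, mul_inv_rev, mul_inv_cancel_left]
          exact T.inv_mem hz
      refine mem_Rgp.2 ⟨y * (v ^ i)⁻¹, ⟨Q.mul_mem hy (Q.inv_mem (Q.pow_mem hvQ i)), ?_⟩, i, by
        rw [inv_mul_cancel_right]⟩
      rw [hi, mul_assoc]
      exact T.mul_mem hz' (h1 i)
    have hNS : ∀ s ∈ S, s * (v * s * v⁻¹) * (v * (v * s * v⁻¹) * v⁻¹) = 1 := by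
      intro s hs
      rw [hvconj s hs.2, hvconj _ (hn s hs.2)]
      exact hN s hs.2
    have hcommS : ∀ s ∈ S, ∀ t ∈ S, s * t = t * s := fun s hs t ht => hcomm s hs.2 t ht.2
    obtain ⟨a', ha'⟩ := haS S hST
    -- `v` acts trivially on homomorphisms
    have htriv : ∀ ℓ : G → ZMod 3, (∀ s ∈ S, ∀ t ∈ S, ℓ (s * t) = ℓ s + ℓ t) →
        ∀ s ∈ S, ℓ (v * s * v⁻¹) = ℓ s := by
      intro ℓ hℓ
      by_contra hcon
      push Not at hcon
      have hκ : ∃ κ : ZMod 3 →+* Module.End F M, True :=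
        ⟨(algebraMap F (Module.End F M)).comp (ZMod.castHom (dvd_refl 3) F), trivial⟩
      obtain ⟨κ, -⟩ := hκ
      obtain ⟨R, s, c, hR, hsum⟩ := step κ (ρ : G →* Module.End F M) S v hvS hvS' hv3 hNS hcommS
        ℓ hℓ hcon a' ha'
      rw [hQeq] at hR
      obtain ⟨j, hj⟩ := star hρ hQ.2 R s c (fun j => ⟨(hR j).1, (hR j).2.2.1, (hR j).2.2.2⟩) hsum
      exact (hR j).2.1 (hvert (R j) (hR j).1 hj)
    -- so it acts trivially on `S`
    have hfix : ∀ s ∈ S, v * s * v⁻¹ = s := by
      let _ : CommGroup S := { (inferInstance : Group S) with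
        mul_comm := fun x y => Subtype.ext (hcommS x x.2 y y.2) }
      let V : S →* S :=
        { toFun := fun s => ⟨v * s * v⁻¹, hvS s s.2⟩
          map_one' := by
            apply Subtype.ext
            simp
          map_mul' := fun x y => by
            apply Subtype.ext
            simp only [Subgroup.coe_mul]
            group }
      have hS3 : IsPGroup 3 S := hQ3.to_le hSQ
      obtain ⟨n, hn3⟩ := IsPGroup.iff_card.1 hS3
      have hmain := eq_one_of_forall_hom (A := Additive S) (MonoidHom.toAdditive V)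
        (by
          intro x
          apply Additive.toMul.injective
          apply Subtype.ext
          exact hNS x.toMul x.toMul.2) n
        (by
          intro x
          apply Additive.toMul.injective
          change (Additive.toMul x) ^ (3 ^ n) = 1
          rw [← hn3]
          exact pow_card_eq_one')
        (by
          intro f x
          let ℓ : G → ZMod 3 := fun g => if hg : g ∈ S then f (Additive.ofMul ⟨g, hg⟩) else 0
          have hℓ : ∀ g (hg : g ∈ S), ℓ g = f (Additive.ofMul ⟨g, hg⟩) := fun g hg => by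
            simp only [ℓ]
            rw [dif_pos hg]
          have h1 := htriv ℓ (fun s hs t ht => by
            rw [hℓ s hs, hℓ t ht, hℓ _ (S.mul_mem hs ht), ← map_add]
            rfl) x.toMul x.toMul.2
          rw [hℓ _ (hvS _ x.toMul.2), hℓ _ x.toMul.2] at h1
          exact h1)
      intro s hs
      have h1 := hmain (Additive.ofMul ⟨s, hs⟩)
      exact congrArg Subtype.val (congrArg Additive.toMul h1)
    have hS3 : Nat.card S ≤ 3 := hC S hST (fun s hs => by rw [← hvconj s hs.2]; exact hfix s hs)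
    have hcard : Nat.card Q ≤ 3 * Nat.card S := by
      have h1 := (transversal_w (S := S) (hn := hvS) hvS' hv3).sum le_Rgp (fun _ => (1 : ℕ))
      rw [Finset.sum_const, smul_eq_mul, mul_one, hQeq] at h1
      simp only [Finset.sum_const, smul_eq_mul, mul_one] at h1
      have h2 : ∀ H : Subgroup G, (univ.filter (· ∈ H)).card = Nat.card H := by
        intro H
        rw [Nat.card_eq_fintype_card, Fintype.card_subtype]
      rw [h2, h2] at h1
      rw [h1]
      apply Nat.mul_le_mul_right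
      exact Finset.card_le_three
    omega

end Pool.Agent.TH12.Puig
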