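import Pool.Agent.TH12.Puig.StepGp
import Mathlib

/-!
# The torus and the Weyl element of `PGL₃(K)`
-/

set_option autoImplicit false

namespace Pool.Agent.TH12.Puig

open Matrix
open scoped MatrixGroups

variable {K : Type} [Field K]

/-- diagonal matrices -/
def dg (x y z : Kˣ) : GL (Fin 3) K :=
  ⟨!![(x : K), 0, 0; 0, y, 0; 0, 0, z],
    !![((x⁻¹ : Kˣ) : K), 0, 0; 0, ((y⁻¹ : Kˣ) : K), 0; 0, 0, ((z⁻¹ : Kˣ) : K)], by
      ext i j
      fin_cases i <;> fin_cases j <;> simp [Matrix.mul_apply, Fin.sum_univ_three], by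
      ext i j
      fin_cases i <;> fin_cases j <;> simp [Matrix.mul_apply, Fin.sum_univ_three]⟩

lemma dg_val (x y z : Kˣ) : ((dg x y z : GL (Fin 3) K) : Matrix (Fin 3) (Fin 3) K) =
    !![(x : K), 0, 0; 0, y, 0; 0, 0, z] := rfl

lemma dg_mul (x y z x' y' z' : Kˣ) : dg x y z * dg x' y' z' = dg (x * x') (y * y') (z * z') := by
  apply Units.ext
  rw [Units.val_mul, dg_val, dg_val, dg_val]
  ext i j
  fin_cases i <;> fin_cases j <;> simp [Matrix.mul_apply, Fin.sum_univ_three]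

lemma dg_one : dg (1 : Kˣ) 1 1 = 1 := by
  apply Units.ext
  rw [dg_val, Units.val_one]
  ext i j
  fin_cases i <;> fin_cases j <;> simp

lemma scalar_eq_dg (u : Kˣ) : Matrix.GeneralLinearGroup.scalar (Fin 3) u = dg u u u := by
  apply Units.ext
  rw [Matrix.GeneralLinearGroup.coe_scalar, dg_val]
  ext i j
  fin_cases i <;> fin_cases j <;> simp

/-- the permutation matrix of a three-cycle -/
def wg (K : Type) [Field K] : GL (Fin 3) K :=
  ⟨!![0, 0, 1; 1, 0, 0; 0, 1, 0], !![0, 1, 0; 0, 0, 1; 1, 0, 0], by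
      ext i j
      fin_cases i <;> fin_cases j <;> simp [Matrix.mul_apply, Fin.sum_univ_three], by
      ext i j
      fin_cases i <;> fin_cases j <;> simp [Matrix.mul_apply, Fin.sum_univ_three]⟩

lemma wg_val : ((wg K : GL (Fin 3) K) : Matrix (Fin 3) (Fin 3) K) =
    !![0, 0, 1; 1, 0, 0; 0, 1, 0] := rfl

lemma wg_pow : wg K ^ 3 = 1 := by
  apply Units.ext
  rw [pow_succ, pow_two, Units.val_mul, Units.val_mul, wg_val, Units.val_one]
  ext i j
  fin_cases i <;> fin_cases j <;> simp [Matrix.mul_apply, Fin.sum_univ_three]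

lemma wg_mul_dg (x y z : Kˣ) : wg K * dg x y z = dg z x y * wg K := by
  apply Units.ext
  rw [Units.val_mul, Units.val_mul, dg_val, dg_val, wg_val]
  ext i j
  fin_cases i <;> fin_cases j <;> simp [Matrix.mul_apply, Fin.sum_univ_three]

/-- the torus -/
def tau (K : Type) [Field K] : Kˣ × Kˣ →* PGL(3, K) :=
  ProjGenLinGroup.mk.comp
    { toFun := fun p => dg p.1 p.2 1
      map_one' := dg_one
      map_mul' := fun p q => by
        rw [dg_mul, mul_one]
        rfl }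

lemma tau_apply (x y : Kˣ) : tau K (x, y) = ProjGenLinGroup.mk (dg x y 1) := rfl

lemma tau_injective : Function.Injective (tau K) := by
  rintro ⟨x, y⟩ ⟨x', y'⟩ h
  rw [tau_apply, tau_apply, ProjGenLinGroup.mk_eq_mk_iff] at h
  obtain ⟨u, hu⟩ := h
  rw [scalar_eq_dg, dg_mul] at hu
  have h0 := congrArg (fun g : GL (Fin 3) K => (g : Matrix (Fin 3) (Fin 3) K) 0 0) hu
  have h1 := congrArg (fun g : GL (Fin 3) K => (g : Matrix (Fin 3) (Fin 3) K) 1 1) hu
  have h2 := congrArg (fun g : GL (Fin 3) K => (g : Matrix (Fin 3) (Fin 3) K) 2 2) hu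
  simp only [dg_val] at h0 h1 h2
  simp at h0 h1 h2
  rw [h2] at h0 h1
  simp at h0 h1
  rw [Prod.mk.injEq]
  exact ⟨Units.ext h0, Units.ext h1⟩

/-- the Weyl element -/
def wb (K : Type) [Field K] : PGL(3, K) := ProjGenLinGroup.mk (wg K)

lemma wb_pow : wb K ^ 3 = 1 := by
  rw [wb, ← map_pow, wg_pow, map_one]

lemma mk_dg (x y z : Kˣ) : (ProjGenLinGroup.mk (dg x y z) : PGL(3, K)) = tau K (x * z⁻¹, y * z⁻¹) := by
  rw [tau_apply, ProjGenLinGroup.mk_eq_mk_iff]
  refine ⟨z⁻¹, ?_⟩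
  rw [scalar_eq_dg, dg_mul, mul_inv_cancel]

lemma wb_conj (x y : Kˣ) : wb K * tau K (x, y) * (wb K)⁻¹ = tau K (y⁻¹, x * y⁻¹) := by
  rw [mul_inv_eq_iff_eq_mul, tau_apply, wb, ← map_mul, wg_mul_dg, map_mul, mk_dg, one_mul]

/-- the torus as a subgroup -/
def TT (K : Type) [Field K] : Subgroup PGL(3, K) := (tau K).range

lemma mem_TT {g : PGL(3, K)} : g ∈ TT K ↔ ∃ x y, tau K (x, y) = g := by
  constructor
  · rintro ⟨⟨x, y⟩, h⟩; exact ⟨x, y, h⟩
  · rintro ⟨x, y, h⟩; exact ⟨(x, y), h⟩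

lemma TT_conj : ∀ s ∈ TT K, wb K * s * (wb K)⁻¹ ∈ TT K := by
  intro s hs
  obtain ⟨x, y, rfl⟩ := mem_TT.1 hs
  rw [wb_conj]
  exact mem_TT.2 ⟨_, _, rfl⟩

lemma wb_notMem : wb K ∉ TT K := by
  intro h
  obtain ⟨x, y, h⟩ := mem_TT.1 h
  rw [tau_apply, wb, ProjGenLinGroup.mk_eq_mk_iff] at h
  obtain ⟨u, hu⟩ := h
  rw [scalar_eq_dg, dg_mul] at hu
  have h0 := congrArg (fun g : GL (Fin 3) K => (g : Matrix (Fin 3) (Fin 3) K) 0 0) hu
  simp only [dg_val, wg_val] at h0
  simp at h0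

lemma TT_norm : ∀ s ∈ TT K, s * (wb K * s * (wb K)⁻¹) *
    (wb K * (wb K * s * (wb K)⁻¹) * (wb K)⁻¹) = 1 := by
  intro s hs
  obtain ⟨x, y, rfl⟩ := mem_TT.1 hs
  rw [wb_conj, wb_conj, ← map_mul, ← map_mul, ← map_one (tau K)]
  congr 1
  rw [Prod.mk_mul_mk, Prod.mk_mul_mk, Prod.mk_eq_one]
  constructor
  · group
  · change y * (x * y⁻¹) * (y⁻¹ * (x * y⁻¹)⁻¹) = 1
    rw [_root_.mul_inv_rev, inv_inv, inv_mul_cancel_left, mul_comm x, mul_inv_cancel_left,
      mul_inv_cancel]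

lemma TT_comm : ∀ s ∈ TT K, ∀ t ∈ TT K, s * t = t * s := by
  rintro _ ⟨a, rfl⟩ _ ⟨b, rfl⟩
  rw [← map_mul, mul_comm, map_mul]

lemma TT_fixed [Finite K] (S : Subgroup PGL(3, K)) (hS : S ≤ TT K)
    (h : ∀ s ∈ S, wb K * s * (wb K)⁻¹ = s) : Nat.card S ≤ 3 := by
  classical
  have hfin : Fintype K := Fintype.ofFinite K
  have key : ∀ s : S, ∃ y : Kˣ, tau K (y⁻¹, y) = s ∧ y ^ 3 = 1 := by
    rintro ⟨s, hs⟩
    obtain ⟨x, y, rfl⟩ := mem_TT.1 (hS hs)
    have h1 := h _ hs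
    rw [wb_conj] at h1
    have h2 := tau_injective h1
    rw [Prod.mk.injEq] at h2
    refine ⟨y, ?_, ?_⟩
    · rw [h2.1]
    · have h3 := h2.2
      rw [← h2.1] at h3
      calc y ^ 3 = y * y * y := by rw [pow_succ, pow_two]
        _ = y * y * (y⁻¹ * y⁻¹) := by rw [h3]
        _ = 1 := by group
  choose f hf1 hf2 using key
  have hinj : Function.Injective (fun s : S => (⟨f s, by
      rw [mem_rootsOfUnity]; exact hf2 s⟩ : rootsOfUnity 3 K)) := by
    intro s t hst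
    rw [Subtype.mk.injEq] at hst
    apply Subtype.ext
    rw [← hf1 s, ← hf1 t, hst]
  have h1 := Nat.card_le_card_of_injective _ hinj
  refine h1.trans ?_
  exact card_rootsOfUnity K 3

instance [Finite K] : Finite PGL(3, K) := Finite.of_surjective _ ProjGenLinGroup.mk_surjective

lemma card_TT [Fintype K] : Nat.card (TT K) = (Fintype.card K - 1) ^ 2 := by
  classical
  rw [TT, ← Nat.card_congr (MonoidHom.ofInjective tau_injective).toEquiv, Nat.card_prod,
    Nat.card_units, Nat.card_eq_fintype_card, pow_two]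

omit [Field K] in
lemma card_Rgp {G : Type*} [Group G] [Finite G] {S : Subgroup G} {w : G}
    {hn : ∀ s ∈ S, w * s * w⁻¹ ∈ S} (hw : w ∉ S) (hw3 : w ^ 3 = 1) :
    Nat.card (Rgp S w hn) = 3 * Nat.card S := by
  classical
  cases nonempty_fintype G
  have h1 := (transversal_w (S := S) (hn := hn) hw hw3).sum le_Rgp (fun _ => (1 : ℕ))
  simp only [Finset.sum_const, smul_eq_mul, mul_one] at h1
  have h2 : ∀ H : Subgroup G, (Finset.univ.filter (· ∈ H)).card = Nat.card H := by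
    intro H
    rw [Nat.card_eq_fintype_card, Fintype.card_subtype]
  rw [h2, h2] at h1
  rw [h1]
  congr 1
  have hne1 : w ≠ 1 := fun h => hw (h ▸ S.one_mem)
  have d2 : (1 : G) ≠ w ^ 2 := by
    intro h
    apply hne1
    rw [pow_succ, ← h, one_mul] at hw3
    exact hw3
  have d3 : w ≠ w ^ 2 := by
    intro h
    apply hne1
    rw [pow_two] at h
    exact (left_eq_mul.1 h)
  rw [Finset.card_insert_of_notMem, Finset.card_insert_of_notMem, Finset.card_singleton]
  · simpa using d3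
  · simp only [Finset.mem_insert, Finset.mem_singleton, not_or]
    exact ⟨hne1.symm, d2⟩

/-- the order of `PGL₃(K)` -/
lemma card_PGL [Fintype K] : Nat.card PGL(3, K) * (Fintype.card K - 1) =
    (Fintype.card K ^ 3 - 1) * (Fintype.card K ^ 3 - Fintype.card K) *
      (Fintype.card K ^ 3 - Fintype.card K ^ 2) := by
  classical
  have h1 := Subgroup.card_eq_card_quotient_mul_card_subgroup (Subgroup.center (GL (Fin 3) K))
  have h2 : Nat.card (Subgroup.center (GL (Fin 3) K)) = Fintype.card K - 1 := by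
    rw [Matrix.GeneralLinearGroup.center_eq_range_scalar]
    have hinj : Function.Injective (Matrix.GeneralLinearGroup.scalar (R := K) (Fin 3)) := by
      intro u v h
      rw [scalar_eq_dg, scalar_eq_dg] at h
      have h0 := congrArg (fun g : GL (Fin 3) K => (g : Matrix (Fin 3) (Fin 3) K) 0 0) h
      simp only [dg_val] at h0
      simp at h0
      exact Units.ext h0
    rw [← Nat.card_congr (MonoidHom.ofInjective hinj).toEquiv, Nat.card_units,
      Nat.card_eq_fintype_card]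
  rw [h2, Matrix.card_GL_field] at h1
  simp only [Fin.prod_univ_three] at h1
  have h3 : Nat.card PGL(3, K) = Nat.card (GL (Fin 3) K ⧸ Subgroup.center (GL (Fin 3) K)) := rfl
  rw [h3, ← h1]
  simp

/-- the index of `T⟨w⟩` is prime to three -/
lemma index_prime [Fintype K] (h3 : 3 ∣ Fintype.card K - 1) :
    ∃ m, m * Nat.card (Rgp (TT K) (wb K) TT_conj) = Nat.card PGL(3, K) ∧ ¬ 3 ∣ m := by
  obtain ⟨k, hk⟩ := h3
  have hq1 : 1 < Fintype.card K := Fintype.one_lt_card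
  have hq : Fintype.card K = 1 + 3 * k := by omega
  have hk0 : 0 < k := by omega
  refine ⟨(1 + 3 * k) ^ 3 * (2 + 3 * k) * (1 + 3 * k + 3 * k ^ 2), ?_, ?_⟩
  · rw [card_Rgp wb_notMem wb_pow, card_TT, hq]
    have h1 := card_PGL (K := K)
    rw [hq] at h1
    have e1 : 1 + 3 * k - 1 = 3 * k := by omega
    have e2 : (1 + 3 * k) ^ 3 - 1 = 3 * k * (3 * (1 + 3 * k + 3 * k ^ 2)) := by
      have : (1 + 3 * k) ^ 3 = 3 * k * (3 * (1 + 3 * k + 3 * k ^ 2)) + 1 := by ring
      omega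
    have e3 : (1 + 3 * k) ^ 3 - (1 + 3 * k) = (1 + 3 * k) * (3 * k) * (2 + 3 * k) := by
      have : (1 + 3 * k) ^ 3 = (1 + 3 * k) * (3 * k) * (2 + 3 * k) + (1 + 3 * k) := by ring
      omega
    have e4 : (1 + 3 * k) ^ 3 - (1 + 3 * k) ^ 2 = (1 + 3 * k) ^ 2 * (3 * k) := by
      have : (1 + 3 * k) ^ 3 = (1 + 3 * k) ^ 2 * (3 * k) + (1 + 3 * k) ^ 2 := by ring
      omega
    rw [e1, e2, e3, e4] at h1
    rw [e1]
    have hpos : 0 < 3 * k := by omega
    apply Nat.eq_of_mul_eq_mul_right hpos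
    rw [h1]
    ring
  · intro h
    have h3 : Nat.Prime 3 := Nat.prime_three
    rcases (Nat.Prime.dvd_mul h3).1 h with h | h
    · rcases (Nat.Prime.dvd_mul h3).1 h with h | h
      · have := h3.dvd_of_dvd_pow h
        omega
      · omega
    · have : 3 ∣ 1 := by
        have e : 1 + 3 * k + 3 * k ^ 2 = 1 + 3 * (k + k ^ 2) := by ring
        rw [e] at h
        exact (Nat.dvd_add_left (Dvd.intro _ rfl)).1 h
      omega

end Pool.Agent.TH12.Puig
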