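import Pool.Agent.TH12.Puig.PGLAct
import Pool.Agent.TH12.Puig.PGLGrp

/-!
# Cuspidal modules are projective for the torus
-/

set_option autoImplicit false

namespace Pool.Agent.TH12.Puig

open Matrix Finset
open scoped MatrixGroups

variable {K : Type} [Field K]

/-- root element -/
def x12 (a : K) : GL (Fin 3) K :=
  ⟨!![1, a, 0; 0, 1, 0; 0, 0, 1], !![1, -a, 0; 0, 1, 0; 0, 0, 1], by
      ext i j
      fin_cases i <;> fin_cases j <;> simp [Matrix.mul_apply, Fin.sum_univ_three], by
      ext i j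
      fin_cases i <;> fin_cases j <;> simp [Matrix.mul_apply, Fin.sum_univ_three]⟩

/-- root element -/
def x13 (a : K) : GL (Fin 3) K :=
  ⟨!![1, 0, a; 0, 1, 0; 0, 0, 1], !![1, 0, -a; 0, 1, 0; 0, 0, 1], by
      ext i j
      fin_cases i <;> fin_cases j <;> simp [Matrix.mul_apply, Fin.sum_univ_three], by
      ext i j
      fin_cases i <;> fin_cases j <;> simp [Matrix.mul_apply, Fin.sum_univ_three]⟩

/-- root element -/
def x23 (a : K) : GL (Fin 3) K :=
  ⟨!![1, 0, 0; 0, 1, a; 0, 0, 1], !![1, 0, 0; 0, 1, -a; 0, 0, 1], by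
      ext i j
      fin_cases i <;> fin_cases j <;> simp [Matrix.mul_apply, Fin.sum_univ_three], by
      ext i j
      fin_cases i <;> fin_cases j <;> simp [Matrix.mul_apply, Fin.sum_univ_three]⟩

/-- root element -/
def x32 (a : K) : GL (Fin 3) K :=
  ⟨!![1, 0, 0; 0, 1, 0; 0, a, 1], !![1, 0, 0; 0, 1, 0; 0, -a, 1], by
      ext i j
      fin_cases i <;> fin_cases j <;> simp [Matrix.mul_apply, Fin.sum_univ_three], by
      ext i j
      fin_cases i <;> fin_cases j <;> simp [Matrix.mul_apply, Fin.sum_univ_three]⟩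

lemma x12_val (a : K) : ((x12 a : GL (Fin 3) K) : Matrix (Fin 3) (Fin 3) K) =
    !![1, a, 0; 0, 1, 0; 0, 0, 1] := rfl
lemma x13_val (a : K) : ((x13 a : GL (Fin 3) K) : Matrix (Fin 3) (Fin 3) K) =
    !![1, 0, a; 0, 1, 0; 0, 0, 1] := rfl
lemma x23_val (a : K) : ((x23 a : GL (Fin 3) K) : Matrix (Fin 3) (Fin 3) K) =
    !![1, 0, 0; 0, 1, a; 0, 0, 1] := rfl
lemma x32_val (a : K) : ((x32 a : GL (Fin 3) K) : Matrix (Fin 3) (Fin 3) K) =
    !![1, 0, 0; 0, 1, 0; 0, a, 1] := rfl

lemma x12_zero : x12 (0 : K) = 1 := by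
  apply Units.ext
  rw [x12_val, Units.val_one]
  ext i j
  fin_cases i <;> fin_cases j <;> simp
lemma x13_zero : x13 (0 : K) = 1 := by
  apply Units.ext
  rw [x13_val, Units.val_one]
  ext i j
  fin_cases i <;> fin_cases j <;> simp
lemma x23_zero : x23 (0 : K) = 1 := by
  apply Units.ext
  rw [x23_val, Units.val_one]
  ext i j
  fin_cases i <;> fin_cases j <;> simp
lemma x32_zero : x32 (0 : K) = 1 := by
  apply Units.ext
  rw [x32_val, Units.val_one]
  ext i j
  fin_cases i <;> fin_cases j <;> simp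

lemma dg_x12 (x y z : Kˣ) (a : K) : dg x y z * x12 a = x12 (x * a * (y⁻¹ : Kˣ)) * dg x y z := by
  apply Units.ext
  rw [Units.val_mul, Units.val_mul, x12_val, x12_val, dg_val]
  ext i j
  fin_cases i <;> fin_cases j <;> simp [Matrix.mul_apply, Fin.sum_univ_three]
lemma dg_x13 (x y z : Kˣ) (a : K) : dg x y z * x13 a = x13 (x * a * (z⁻¹ : Kˣ)) * dg x y z := by
  apply Units.ext
  rw [Units.val_mul, Units.val_mul, x13_val, x13_val, dg_val]
  ext i j
  fin_cases i <;> fin_cases j <;> simp [Matrix.mul_apply, Fin.sum_univ_three]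
lemma dg_x23 (x y z : Kˣ) (a : K) : dg x y z * x23 a = x23 (y * a * (z⁻¹ : Kˣ)) * dg x y z := by
  apply Units.ext
  rw [Units.val_mul, Units.val_mul, x23_val, x23_val, dg_val]
  ext i j
  fin_cases i <;> fin_cases j <;> simp [Matrix.mul_apply, Fin.sum_univ_three]
lemma dg_x32 (x y z : Kˣ) (a : K) : dg x y z * x32 a = x32 (z * a * (y⁻¹ : Kˣ)) * dg x y z := by
  apply Units.ext
  rw [Units.val_mul, Units.val_mul, x32_val, x32_val, dg_val]
  ext i j
  fin_cases i <;> fin_cases j <;> simp [Matrix.mul_apply, Fin.sum_univ_three]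

/-- sums over `K` and `Kˣ` -/
lemma sum_units [Fintype K] [DecidableEq K] {B : Type*} [AddCommGroup B] (f : K → B) :
    ∑ u : Kˣ, f u = ∑ a, f a - f 0 := by
  rw [← Finset.add_sum_erase _ _ (Finset.mem_univ (0 : K)), add_sub_cancel_left]
  apply Finset.sum_bij (fun (u : Kˣ) _ => (u : K))
  · intro u _
    rw [Finset.mem_erase]
    exact ⟨u.ne_zero, Finset.mem_univ _⟩
  · intro u _ v _ h
    exact Units.ext h
  · intro a ha
    exact ⟨Units.mk0 a (Finset.ne_of_mem_erase ha), Finset.mem_univ _, rfl⟩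
  · intro u _; rfl

universe u

variable {F : Type u} [Field F] {M : Type u} [AddCommGroup M] [Module F M]

lemma cj_rho {G : Type*} [Group G] (ρ : Representation F G M) (g h : G) :
    cj (A := Module.End F M) ρ g (ρ h) = ρ (g * h * g⁻¹) := by
  rw [cj_apply, map_mul, map_mul]

/-- A module on which the sums over all groups of elations vanish is projective for the torus. -/
theorem exists_trace_torus [Fintype K] [DecidableEq K] [Fintype PGL(3, K)]
    (ρ : Representation F PGL(3, K) M) [DecidablePred (· ∈ TT K)]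
    (h1 : ∀ (C : Type) [Group C] [Fintype C] (u : C →* PGL(3, K)) (l : PP K),
      IsAxial (sP K) l u → ∀ x, ∑ c, ρ (u c) x = 0)
    (h2 : ∀ (C : Type) [Group C] [Fintype C] (u : C →* PGL(3, K)) (p : PP K),
      IsCentral (sL K) p u → ∀ x, ∑ c, ρ (u c) x = 0) :
    ∃ a : Module.End F M, ∑ g ∈ univ.filter (· ∈ TT K), cj (A := Module.End F M) ρ g a = 1 := by
  -- the root elements as endomorphisms
  let X12 : K → Module.End F M := fun a => ρ (ProjGenLinGroup.mk (x12 a))
  let X13 : K → Module.End F M := fun a => ρ (ProjGenLinGroup.mk (x13 a))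
  let X23 : K → Module.End F M := fun a => ρ (ProjGenLinGroup.mk (x23 a))
  let X32 : K → Module.End F M := fun a => ρ (ProjGenLinGroup.mk (x32 a))
  let E12 : Module.End F M := ∑ a, X12 a
  let E13 : Module.End F M := ∑ a, X13 a
  let E23 : Module.End F M := ∑ a, X23 a
  let E32 : Module.End F M := ∑ a, X32 a
  -- vanishing of sums
  have hC2 : E12 * E32 = 0 := by
    let u : Multiplicative (K × K) →* PGL(3, K) :=
      ProjGenLinGroup.mk.comp
        { toFun := fun c => el ![c.toAdd.1, 0, c.toAdd.2] ![0, 1, 0] (by simp)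
          map_one' := by
            apply Units.ext
            rw [el_val, Units.val_one]
            ext i j
            fin_cases i <;> fin_cases j <;> simp
          map_mul' := fun c c' => by
            rw [el_mul]
            congr 1
            simp }
    have hu := isAxial_el (K := K) (φ := ![0, 1, 0]) (by
        intro h; have := congrFun h 1; simp at this) u
      (fun c => ![c.toAdd.1, 0, c.toAdd.2]) (fun c => by simp) (fun c => rfl) (by
        intro a ha
        refine ⟨Multiplicative.ofAdd (a 0, a 2), ?_⟩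
        simp only [dotProduct, Fin.sum_univ_three] at ha
        simp at ha
        ext i
        fin_cases i <;> simp [ha])
    apply LinearMap.ext
    intro x
    have h3 := h1 _ u _ hu x
    rw [LinearMap.zero_apply, ← h3]
    simp only [E12, E32]
    rw [Finset.sum_mul_sum, LinearMap.sum_apply]
    simp only [LinearMap.sum_apply]
    rw [← Finset.sum_product']
    refine Fintype.sum_equiv (Multiplicative.ofAdd (α := K × K)) _ _ ?_
    rintro ⟨a, b⟩
    simp only [X12, X32, Module.End.mul_apply]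
    rw [← Module.End.mul_apply, ← map_mul, ← map_mul]
    have e : x12 a * x32 b = el ![a, 0, b] ![0, 1, 0] (by simp) := by
      apply Units.ext
      rw [Units.val_mul, x12_val, x32_val, el_val]
      ext i j
      fin_cases i <;> fin_cases j <;> simp [Matrix.mul_apply, Fin.sum_univ_three]
    rw [e]
    rfl
  have hC3 : E13 * E23 = 0 := by
    let u : Multiplicative (K × K) →* PGL(3, K) :=
      ProjGenLinGroup.mk.comp
        { toFun := fun c => el ![c.toAdd.1, c.toAdd.2, 0] ![0, 0, 1] (by simp)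
          map_one' := by
            apply Units.ext
            rw [el_val, Units.val_one]
            ext i j
            fin_cases i <;> fin_cases j <;> simp
          map_mul' := fun c c' => by
            rw [el_mul]
            congr 1
            simp }
    have hu := isAxial_el (K := K) (φ := ![0, 0, 1]) (by
        intro h; have := congrFun h 2; simp at this) u
      (fun c => ![c.toAdd.1, c.toAdd.2, 0]) (fun c => by simp) (fun c => rfl) (by
        intro a ha
        refine ⟨Multiplicative.ofAdd (a 0, a 1), ?_⟩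
        simp only [dotProduct, Fin.sum_univ_three] at ha
        simp at ha
        ext i
        fin_cases i <;> simp [ha])
    apply LinearMap.ext
    intro x
    have h3 := h1 _ u _ hu x
    rw [LinearMap.zero_apply, ← h3]
    simp only [E13, E23]
    rw [Finset.sum_mul_sum, LinearMap.sum_apply]
    simp only [LinearMap.sum_apply]
    rw [← Finset.sum_product']
    refine Fintype.sum_equiv (Multiplicative.ofAdd (α := K × K)) _ _ ?_
    rintro ⟨a, b⟩
    simp only [X13, X23, Module.End.mul_apply]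
    rw [← Module.End.mul_apply, ← map_mul, ← map_mul]
    have e : x13 a * x23 b = el ![a, b, 0] ![0, 0, 1] (by simp) := by
      apply Units.ext
      rw [Units.val_mul, x13_val, x23_val, el_val]
      ext i j
      fin_cases i <;> fin_cases j <;> simp [Matrix.mul_apply, Fin.sum_univ_three]
    rw [e]
    rfl
  have hR : ∀ x, ∑ c : Multiplicative (K × K), ρ (ProjGenLinGroup.mk
      (el ![1, 0, 0] ![0, c.toAdd.1, c.toAdd.2] (by simp))) x = 0 := by
    let u : Multiplicative (K × K) →* PGL(3, K) :=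
      ProjGenLinGroup.mk.comp
        { toFun := fun c => el ![1, 0, 0] ![0, c.toAdd.1, c.toAdd.2] (by simp)
          map_one' := by
            apply Units.ext
            rw [el_val, Units.val_one]
            ext i j
            fin_cases i <;> fin_cases j <;> simp
          map_mul' := fun c c' => by
            rw [el_mul']
            congr 1
            simp }
    have hu := isCentral_el (K := K) (a := ![1, 0, 0]) (by
        intro h; have := congrFun h 0; simp at this) u
      (fun c => ![0, c.toAdd.1, c.toAdd.2]) (fun c => by simp) (fun c => rfl) (by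
        intro a ha
        refine ⟨Multiplicative.ofAdd (a 1, a 2), ?_⟩
        simp only [dotProduct, Fin.sum_univ_three] at ha
        simp at ha
        ext i
        fin_cases i <;> simp [ha])
    intro x
    exact h2 _ u _ hu x
  have hR1 : E12 * E13 = 0 := by
    apply LinearMap.ext
    intro x
    rw [LinearMap.zero_apply, ← hR x]
    simp only [E12, E13]
    rw [Finset.sum_mul_sum, LinearMap.sum_apply]
    simp only [LinearMap.sum_apply]
    rw [← Finset.sum_product']
    refine Fintype.sum_equiv (Multiplicative.ofAdd (α := K × K)) _ _ ?_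
    rintro ⟨a, b⟩
    simp only [X12, X13, Module.End.mul_apply]
    rw [← Module.End.mul_apply, ← map_mul, ← map_mul]
    congr 3
    apply Units.ext
    change _ = 1 + vecMulVec ![1, 0, 0] ![0, a, b]
    rw [Units.val_mul, x12_val, x13_val]
    ext i j
    fin_cases i <;> fin_cases j <;> simp [Matrix.mul_apply, Fin.sum_univ_three]
  have hR2 : E13 * E12 = 0 := by
    apply LinearMap.ext
    intro x
    rw [LinearMap.zero_apply, ← hR x]
    simp only [E12, E13]
    rw [Finset.sum_mul_sum, LinearMap.sum_apply]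
    simp only [LinearMap.sum_apply]
    rw [Finset.sum_comm, ← Finset.sum_product']
    refine Fintype.sum_equiv (Multiplicative.ofAdd (α := K × K)) _ _ ?_
    rintro ⟨a, b⟩
    simp only [X12, X13, Module.End.mul_apply]
    rw [← Module.End.mul_apply, ← map_mul, ← map_mul]
    congr 3
    apply Units.ext
    change _ = 1 + vecMulVec ![1, 0, 0] ![0, a, b]
    rw [Units.val_mul, x12_val, x13_val]
    ext i j
    fin_cases i <;> fin_cases j <;> simp [Matrix.mul_apply, Fin.sum_univ_three]
  -- conjugation by the torus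
  have cjX12 : ∀ x y : Kˣ, ∀ a : K, cj (A := Module.End F M) ρ (tau K (x, y)) (X12 a) =
      X12 (x * a * (y⁻¹ : Kˣ)) := by
    intro x y a
    simp only [X12]
    have e : (ProjGenLinGroup.mk (dg x y 1) * ProjGenLinGroup.mk (x12 a) *
        (ProjGenLinGroup.mk (dg x y 1))⁻¹ : PGL(3, K)) =
        ProjGenLinGroup.mk (x12 (x * a * (y⁻¹ : Kˣ))) := by
      rw [← map_mul, dg_x12, map_mul, mul_inv_cancel_right]
    rw [cj_rho, tau_apply, e]
  have cjX13 : ∀ x y : Kˣ, ∀ a : K, cj (A := Module.End F M) ρ (tau K (x, y)) (X13 a) =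
      X13 (x * a) := by
    intro x y a
    simp only [X13]
    have e : (ProjGenLinGroup.mk (dg x y 1) * ProjGenLinGroup.mk (x13 a) *
        (ProjGenLinGroup.mk (dg x y 1))⁻¹ : PGL(3, K)) =
        ProjGenLinGroup.mk (x13 (x * a)) := by
      rw [← map_mul, dg_x13, map_mul, mul_inv_cancel_right, inv_one, Units.val_one, mul_one]
    rw [cj_rho, tau_apply, e]
  have cjX23 : ∀ x y : Kˣ, ∀ a : K, cj (A := Module.End F M) ρ (tau K (x, y)) (X23 a) =
      X23 (y * a) := by
    intro x y a
    simp only [X23]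
    have e : (ProjGenLinGroup.mk (dg x y 1) * ProjGenLinGroup.mk (x23 a) *
        (ProjGenLinGroup.mk (dg x y 1))⁻¹ : PGL(3, K)) =
        ProjGenLinGroup.mk (x23 (y * a)) := by
      rw [← map_mul, dg_x23, map_mul, mul_inv_cancel_right, inv_one, Units.val_one, mul_one]
    rw [cj_rho, tau_apply, e]
  have cjX32 : ∀ x y : Kˣ, ∀ a : K, cj (A := Module.End F M) ρ (tau K (x, y)) (X32 a) =
      X32 (a * (y⁻¹ : Kˣ)) := by
    intro x y a
    simp only [X32]
    have e : (ProjGenLinGroup.mk (dg x y 1) * ProjGenLinGroup.mk (x32 a) *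
        (ProjGenLinGroup.mk (dg x y 1))⁻¹ : PGL(3, K)) =
        ProjGenLinGroup.mk (x32 (a * (y⁻¹ : Kˣ))) := by
      rw [← map_mul, dg_x32, map_mul, mul_inv_cancel_right, Units.val_one, one_mul]
    rw [cj_rho, tau_apply, e]
  have cjE12 : ∀ x y : Kˣ, cj (A := Module.End F M) ρ (tau K (x, y)) E12 = E12 := by
    intro x y
    simp only [E12]
    rw [map_sum]
    refine Fintype.sum_equiv ((Equiv.mulLeft₀ (x : K) x.ne_zero).trans
      (Equiv.mulRight₀ ((y⁻¹ : Kˣ) : K) (y⁻¹).ne_zero)) _ _ ?_
    intro a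
    rw [cjX12]
    rfl
  have cjE13 : ∀ x y : Kˣ, cj (A := Module.End F M) ρ (tau K (x, y)) E13 = E13 := by
    intro x y
    simp only [E13]
    rw [map_sum]
    refine Fintype.sum_equiv (Equiv.mulLeft₀ (x : K) x.ne_zero) _ _ ?_
    intro a
    rw [cjX13]
    rfl
  have hU12 : ∑ u : Kˣ, X12 u = E12 - 1 := by
    rw [sum_units X12]
    simp only [E12, X12, x12_zero, map_one]
  have hU13 : ∑ u : Kˣ, X13 u = E13 - 1 := by
    rw [sum_units X13]
    simp only [E13, X13, x13_zero, map_one]
  have hU23 : ∑ u : Kˣ, X23 u = E23 - 1 := by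
    rw [sum_units X23]
    simp only [E23, X23, x23_zero, map_one]
  have hU32 : ∑ u : Kˣ, X32 u = E32 - 1 := by
    rw [sum_units X32]
    simp only [E32, X32, x32_zero, map_one]
  refine ⟨E12 * X13 1 * X32 1 + E13 * X12 1 * X23 1 + X12 1 * X13 1, ?_⟩
  -- the sum over the torus
  have hsum : ∀ f : PGL(3, K) → Module.End F M, ∑ g ∈ univ.filter (· ∈ TT K), f g =
      ∑ x : Kˣ, ∑ y : Kˣ, f (tau K (x, y)) := by
    intro f
    rw [← Fintype.sum_prod_type']
    symm
    apply Finset.sum_bij (fun (p : Kˣ × Kˣ) _ => tau K p)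
    · intro p _
      rw [mem_filter]
      exact ⟨mem_univ _, ⟨p, rfl⟩⟩
    · intro p _ q _ h
      exact tau_injective h
    · intro g hg
      rw [mem_filter] at hg
      obtain ⟨p, hp⟩ := hg.2
      exact ⟨p, mem_univ _, hp⟩
    · intro p _; rfl
  rw [hsum]
  have h3 : ∀ x y : Kˣ, cj (A := Module.End F M) ρ (tau K (x, y))
      (E12 * X13 1 * X32 1 + E13 * X12 1 * X23 1 + X12 1 * X13 1) =
      E12 * X13 x * X32 (y⁻¹ : Kˣ) + E13 * X12 ((x * y⁻¹ : Kˣ) : K) * X23 y +
        X12 ((x * y⁻¹ : Kˣ) : K) * X13 x := by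
    intro x y
    rw [map_add, map_add, map_mul, map_mul, map_mul, map_mul, map_mul, cjE12, cjE13, cjX12, cjX13,
      cjX23, cjX32, mul_one, mul_one, one_mul, Units.val_mul]
  simp only [h3, Finset.sum_add_distrib]
  have s1 : ∑ x : Kˣ, ∑ y : Kˣ, E12 * X13 x * X32 (y⁻¹ : Kˣ) =
      E12 * (E13 - 1) * (E32 - 1) := by
    have e1 : ∑ y : Kˣ, X32 ((y⁻¹ : Kˣ) : K) = E32 - 1 := by
      rw [← hU32]
      exact Equiv.sum_comp (Equiv.inv Kˣ) (fun y : Kˣ => X32 (y : K))
    simp only [← Finset.mul_sum, e1]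
    rw [← Finset.sum_mul, ← Finset.mul_sum, hU13]
  have s2 : ∑ x : Kˣ, ∑ y : Kˣ, E13 * X12 ((x * y⁻¹ : Kˣ) : K) * X23 y =
      E13 * (E12 - 1) * (E23 - 1) := by
    rw [Finset.sum_comm]
    have e1 : ∀ y : Kˣ, ∑ x : Kˣ, X12 ((x * y⁻¹ : Kˣ) : K) = E12 - 1 := by
      intro y
      rw [← hU12]
      exact Equiv.sum_comp (Equiv.mulRight y⁻¹) (fun y : Kˣ => X12 (y : K))
    simp only [← Finset.sum_mul, ← Finset.mul_sum, e1, hU23]
  have s3 : ∑ x : Kˣ, ∑ y : Kˣ, X12 ((x * y⁻¹ : Kˣ) : K) * X13 x =
      (E12 - 1) * (E13 - 1) := by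
    have e1 : ∀ x : Kˣ, ∑ y : Kˣ, X12 ((x * y⁻¹ : Kˣ) : K) = E12 - 1 := by
      intro x
      rw [← hU12]
      exact Equiv.sum_comp ((Equiv.inv Kˣ).trans (Equiv.mulLeft x)) (fun y : Kˣ => X12 (y : K))
    simp only [← Finset.sum_mul, ← Finset.mul_sum, e1, hU13]
  rw [s1, s2, s3]
  have f1 : E12 * (E13 - 1) * (E32 - 1) = E12 := by
    rw [mul_sub E12 E13 1, hR1, mul_one, zero_sub, neg_mul, mul_sub E12 E32 1, hC2, mul_one,
      zero_sub, neg_neg]
  have f2 : E13 * (E12 - 1) * (E23 - 1) = E13 := by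
    rw [mul_sub E13 E12 1, hR2, mul_one, zero_sub, neg_mul, mul_sub E13 E23 1, hC3, mul_one,
      zero_sub, neg_neg]
  have f3 : (E12 - 1) * (E13 - 1) = 1 - E12 - E13 := by
    rw [sub_mul, mul_sub, hR1, mul_one, one_mul]
    abel
  rw [f1, f2, f3]
  abel

end Pool.Agent.TH12.Puig
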