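import Pool.Agent.TH12.Puig.Trace

/-!
# Relative projectivity and Higman's criterion
-/

set_option autoImplicit false

namespace Pool.Agent.TH12.Puig

open Finset

universe u

variable {F : Type u} [Field F] {G : Type} [Group G] {M : Type u} [AddCommGroup M] [Module F M]

/-- The `FG`-module `(M, ρ)` is relatively `H`-projective: every homomorphism of `FG`-modules onto
`M` that splits as a homomorphism of `FH`-modules splits as a homomorphism of `FG`-modules. -/
def IsRelProj (ρ : Representation F G M) (H : Subgroup G) : Prop :=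
  ∀ (N : Type u) [AddCommGroup N] [Module F N] (σ : Representation F G N) (f : N →ₗ[F] M),
    (∀ g x, f (σ g x) = ρ g (f x)) →
    (∃ r : M →ₗ[F] N, (∀ h ∈ H, ∀ x, r (ρ h x) = σ h (r x)) ∧ ∀ x, f (r x) = x) →
    ∃ r : M →ₗ[F] N, (∀ g x, r (ρ g x) = σ g (r x)) ∧ ∀ x, f (r x) = x

/-- `Q` is a vertex of `(M, ρ)`: a minimal subgroup such that `M` is relatively `Q`-projective. -/
def IsVertex (ρ : Representation F G M) (Q : Subgroup G) : Prop :=
  IsRelProj ρ Q ∧ ∀ R : Subgroup G, R ≤ Q → IsRelProj ρ R → R = Q

variable {ρ : Representation F G M}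

lemma fixed_iff {H : Subgroup G} {θ : Module.End F M} :
    Fixed (A := Module.End F M) ρ H θ ↔ ∀ h ∈ H, ∀ x, θ (ρ h x) = ρ h (θ x) := by
  constructor
  · intro h g hg x
    have h1 := LinearMap.congr_fun (h g hg) (ρ g x)
    rw [cj_apply] at h1
    simp only [Module.End.mul_apply] at h1
    rw [Representation.inv_self_apply] at h1
    exact h1.symm
  · intro h g hg
    rw [cj_apply]
    ext x
    simp only [Module.End.mul_apply]
    rw [← h g hg, Representation.self_inv_apply]



/-- **Higman's criterion.** -/
theorem isRelProj_iff {H : Subgroup G} [Fintype (G ⧸ H)] :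
    IsRelProj ρ H ↔ ∃ θ : Module.End F M, Fixed (A := Module.End F M) ρ H θ ∧
      tr (A := Module.End F M) ρ H θ = 1 := by
  classical
  constructor
  · intro h
    -- the representation on functions `G/H → M`
    let σ : Representation F G (G ⧸ H → M) :=
      { toFun := fun g =>
          { toFun := fun φ q => ρ g (φ (g⁻¹ • q))
            map_add' := fun φ ψ => by
              ext q; simp only [Pi.add_apply, map_add]
            map_smul' := fun c φ => by
              ext q; simp only [Pi.smul_apply, map_smul, RingHom.id_apply] }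
        map_one' := by
          apply LinearMap.ext
          intro φ
          funext q
          change ρ 1 (φ ((1 : G)⁻¹ • q)) = φ q
          rw [inv_one, one_smul, map_one, Module.End.one_apply]
        map_mul' := fun g g' => by
          apply LinearMap.ext
          intro φ
          funext q
          change ρ (g * g') (φ ((g * g')⁻¹ • q)) = ρ g (ρ g' (φ (g'⁻¹ • (g⁻¹ • q))))
          rw [mul_inv_rev, mul_smul, map_mul, Module.End.mul_apply] }
    have hσ : ∀ g φ q, σ g φ q = ρ g (φ (g⁻¹ • q)) := fun _ _ _ => rfl
    let f : (G ⧸ H → M) →ₗ[F] M :=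
      { toFun := fun φ => ∑ q, φ q
        map_add' := fun φ ψ => by simp only [Pi.add_apply, Finset.sum_add_distrib]
        map_smul' := fun c φ => by
          simp only [Pi.smul_apply, RingHom.id_apply, Finset.smul_sum] }
    have hf : ∀ φ, f φ = ∑ q, φ q := fun _ => rfl
    obtain ⟨r, hr1, hr2⟩ := h (G ⧸ H → M) σ f (by
      intro g φ
      rw [hf, hf, map_sum]
      simp only [hσ]
      exact Equiv.sum_comp (MulAction.toPerm g⁻¹) (fun q => ρ g (φ q))) ⟨
        LinearMap.single F (fun _ => M) ((1 : G) : G ⧸ H), by
          intro h hh x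
          funext q
          rw [hσ]
          simp only [LinearMap.coe_single]
          have h1 : h⁻¹ • q = ((1 : G) : G ⧸ H) ↔ q = ((1 : G) : G ⧸ H) := by
            rw [inv_smul_eq_iff]
            have h2 : h • ((1 : G) : G ⧸ H) = ((1 : G) : G ⧸ H) := by
              change ((h * 1 : G) : G ⧸ H) = ((1 : G) : G ⧸ H)
              rw [mul_one]
              apply QuotientGroup.eq.2
              rw [mul_one]
              exact H.inv_mem hh
            rw [h2]
          by_cases hq : q = ((1 : G) : G ⧸ H)
          · rw [h1.2 hq, hq, Pi.single_eq_same, Pi.single_eq_same]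
          · rw [Pi.single_eq_of_ne hq, Pi.single_eq_of_ne (fun h => hq (h1.1 h)), map_zero], by
          intro x
          rw [hf]
          simp only [LinearMap.coe_single]
          rw [Finset.sum_pi_single']
          simp⟩
    refine ⟨(LinearMap.proj ((1 : G) : G ⧸ H)).comp r, ?_, ?_⟩
    · rw [fixed_iff]
      intro h hh x
      simp only [LinearMap.comp_apply, LinearMap.proj_apply]
      rw [hr1, hσ]
      have h2 : h⁻¹ • ((1 : G) : G ⧸ H) = ((1 : G) : G ⧸ H) := by
        change ((h⁻¹ * 1 : G) : G ⧸ H) = ((1 : G) : G ⧸ H)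
        rw [mul_one]
        apply QuotientGroup.eq.2
        rw [mul_one, inv_inv]
        exact hh
      rw [h2]
    · apply LinearMap.ext
      intro x
      rw [tr, LinearMap.sum_apply, Module.End.one_apply]
      conv_rhs => rw [← hr2 x, hf]
      apply Finset.sum_congr rfl
      intro q _
      rw [cj_apply]
      simp only [Module.End.mul_apply, LinearMap.comp_apply, LinearMap.proj_apply]
      have h3 : q.out • ((1 : G) : G ⧸ H) = q := by
        change ((q.out * 1 : G) : G ⧸ H) = q
        rw [mul_one, QuotientGroup.out_eq']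
      rw [hr1, hσ, inv_inv, Representation.self_inv_apply, h3]
  · rintro ⟨θ, hθ, h1⟩
    intro N _ _ σ f hf ⟨r, hr1, hr2⟩
    rw [fixed_iff] at hθ
    let Φ : G → (M →ₗ[F] N) := fun x => (σ x) ∘ₗ r ∘ₗ θ ∘ₗ (ρ x⁻¹)
    have hΦ : ∀ x, ∀ k ∈ H, Φ (x * k) = Φ x := by
      intro x k hk
      apply LinearMap.ext
      intro y
      simp only [Φ, LinearMap.comp_apply]
      rw [mul_inv_rev, map_mul σ, map_mul ρ, Module.End.mul_apply, Module.End.mul_apply,
        ← hr1 k hk, ← hθ k hk, Representation.self_inv_apply]
    refine ⟨∑ q : G ⧸ H, Φ q.out, ?_, ?_⟩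
    · intro g x
      have h2 := sum_out_eq Φ hΦ g
      conv_lhs => rw [← h2]
      rw [LinearMap.sum_apply, LinearMap.sum_apply, map_sum]
      apply Finset.sum_congr rfl
      intro q _
      simp only [Φ, LinearMap.comp_apply]
      rw [mul_inv_rev, map_mul σ, map_mul ρ, Module.End.mul_apply, Module.End.mul_apply,
        Representation.inv_self_apply]
    · intro x
      have h2 := LinearMap.congr_fun h1 x
      rw [Module.End.one_apply, tr, LinearMap.sum_apply] at h2
      conv_rhs => rw [← h2]
      rw [LinearMap.sum_apply, map_sum]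
      apply Finset.sum_congr rfl
      intro q _
      simp only [Φ, LinearMap.comp_apply, cj_apply, Module.End.mul_apply]
      rw [hf, hr2]

end Pool.Agent.TH12.Puig
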