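import Pool.Agent.TH12.Puig.Bound
import Pool.Agent.TH12.Puig.Cusp
import Pool.Agent.TH12.Puig.Block

/-!
# Simple modules with small vertices in blocks with large defect groups
-/

set_option autoImplicit false

namespace Pool.Agent.TH12.Puig

open Matrix Finset
open scoped MatrixGroups

universe u

/-- For every `n` there is a finite group with a simple module with a vertex of order at most nine
in a block with defect groups of order at least `n`. -/
theorem exists_family (F : Type u) [Field F] [IsAlgClosed F] [CharP F 3] (n : ℕ) :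
    ∃ (G : Type) (_ : Group G) (_ : Finite G) (M : Type u) (_ : AddCommGroup M) (_ : Module F M)
      (ρ : Representation F G M) (V : Subgroup G) (b : MonoidAlgebra F G),
      Module.Finite F M ∧ ρ.IsIrreducible ∧ IsVertex ρ V ∧ IsPGroup 3 V ∧ Nat.card V ≤ 9 ∧
        Blk.IsBlockIdem b ∧ ρ.asAlgebraHom b = 1 ∧ (∃ D, IsDefectGroup 3 b D) ∧
        ∀ D, IsDefectGroup 3 b D → n ≤ Nat.card D := by
  classical
  have h3p : Fact (Nat.Prime 3) := ⟨Nat.prime_three⟩
  obtain ⟨p, hp, hp4, hmod⟩ := Nat.exists_prime_gt_modEq_one (k := 3 ^ (n + 1)) 4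
    (pow_ne_zero _ (by norm_num))
  have hfp : Fact p.Prime := ⟨hp⟩
  have hdvd : 3 ^ (n + 1) ∣ p - 1 := (Nat.modEq_iff_dvd' (by omega)).1 hmod.symm
  have hcard : Fintype.card (ZMod p) = p := ZMod.card p
  have hfinG : Fintype PGL(3, ZMod p) := Fintype.ofFinite _
  have h3 : 3 ∣ Fintype.card (ZMod p) - 1 := by
    rw [hcard]
    exact (dvd_pow_self 3 (by omega)).trans hdvd
  have hdec : DecidablePred (· ∈ TT (ZMod p)) := Classical.decPred _
  have hfinP : Fintype (PP (ZMod p)) := Fintype.ofFinite _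
  have hq : (Configuration.ProjectivePlane.order (PP (ZMod p)) (PP (ZMod p)) : F) = 1 := by
    rw [order_PP, hcard]
    have h1 : ((p - 1 : ℕ) : F) = 0 := by
      rw [CharP.cast_eq_zero_iff F 3]
      rwa [hcard] at h3
    rw [Nat.cast_sub (by omega), Nat.cast_one, sub_eq_zero] at h1
    exact h1
  obtain ⟨M, i1, i2, i3, σ, hirr, hax, hce, hbl⟩ := exists_cuspidal (F := F)
    (P := PP (ZMod p)) (L := PP (ZMod p)) (sP (ZMod p)) (sL (ZMod p)) s_inc hq (by
      rw [order_PP, hcard]; omega) exists_axial exists_central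
  obtain ⟨a, ha⟩ := exists_trace_torus σ hax hce
  obtain ⟨m, hm, hm3⟩ := index_prime (K := ZMod p) h3
  obtain ⟨V, hV, hV3, hV9⟩ := exists_vertex hirr (TT (ZMod p)) (wb (ZMod p)) TT_conj wb_notMem
    wb_pow TT_norm TT_comm TT_fixed m hm hm3 a ha
  obtain ⟨b, hb, hab⟩ := exists_principal (F := F) (G := PGL(3, ZMod p))
  have hab' : aug F PGL(3, ZMod p) b ≠ 0 := by rw [hab]; exact one_ne_zero
  refine ⟨PGL(3, ZMod p), inferInstance, inferInstance, M, i1, i2, σ, V, b, i3, hirr, hV, hV3, hV9,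
    hb, ?_, ⟨_, isDefectGroup_sylow hb.central hab' (default : Sylow 3 PGL(3, ZMod p))⟩, ?_⟩
  · have h1 := hbl (1 - b) (fun g => by rw [mul_sub, sub_mul, mul_one, one_mul, hb.central])
      (by rw [sub_mul, one_mul, mul_sub, mul_one, hb.idem, sub_self, sub_zero])
      (by rw [map_sub, map_one, hab, sub_self])
    rw [map_sub, map_one, sub_eq_zero] at h1
    exact h1.symm
  · intro D hD
    have h1 : 3 ^ (n + 1) ∣ Nat.card PGL(3, ZMod p) := by
      refine Dvd.dvd.trans ?_ (Subgroup.card_subgroup_dvd_card (TT (ZMod p)))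
      rw [card_TT, hcard, pow_two]
      exact Dvd.dvd.mul_right hdvd _
    have h2 := card_isDefectGroup hb.central hab' hD h1
    refine le_trans ?_ h2
    exact (Nat.lt_pow_self (by norm_num : 1 < 3)).le.trans (Nat.pow_le_pow_right (by norm_num)
      (Nat.le_succ n))

/-- a set with `k` elements -/
def Idx (k : Fin 10) : Type := Fin k

instance (k : Fin 10) : Finite (Idx k) := inferInstanceAs (Finite (Fin k))

lemma card_Idx (k : Fin 10) : Nat.card (Idx k) = k := Nat.card_fin k

/-- Groups of order at most nine: finitely many group structures. -/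
theorem exists_fixed_group (P : ℕ → ∀ (V : Type) [Group V], Prop)
    (hiso : ∀ n (V W : Type) [Group V] [Group W], (V ≃* W) → P n V → P n W)
    (hmono : ∀ m n (V : Type) [Group V], m ≤ n → P n V → P m V)
    (h : ∀ n, ∃ (V : Type) (_ : Group V), Finite V ∧ IsPGroup 3 V ∧ Nat.card V ≤ 9 ∧ P n V) :
    ∃ (Q : Type) (_ : Group Q), Finite Q ∧ IsPGroup 3 Q ∧ Nat.card Q ≤ 9 ∧ ∀ n, P n Q := by
  classical
  -- the set of all group structures on `Idx k`, `k ≤ 9`, encoded by the multiplication
  let T := Σ k : Fin 10, (Idx k → Idx k → Idx k)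
  have key : ∀ n, ∃ t : T, ∃ (_ : Group (Idx t.1)), (∀ x y, x * y = t.2 x y) ∧
      IsPGroup 3 (Idx t.1) ∧ P n (Idx t.1) := by
    intro n
    obtain ⟨V, iV, hfin, hV3, hV9, hP⟩ := h n
    have hlt : Nat.card V < 10 := by omega
    let e : V ≃ Idx ⟨Nat.card V, hlt⟩ := Finite.equivFin V
    let inst : Group (Idx ⟨Nat.card V, hlt⟩) := e.symm.group
    let e' : V ≃* Idx ⟨Nat.card V, hlt⟩ := (Equiv.mulEquiv e.symm).symm
    exact ⟨⟨⟨Nat.card V, hlt⟩, fun x y => x * y⟩, inst, fun x y => rfl, hV3.of_equiv e',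
      hiso n _ _ e' hP⟩
  choose t it hmul ht3 htP using key
  obtain ⟨t₀, ht₀⟩ := Finite.exists_infinite_fiber t
  have hinf : (t ⁻¹' {t₀}).Infinite := Set.infinite_coe_iff.1 ht₀
  obtain ⟨n₀, hn₀⟩ := hinf.nonempty
  refine ⟨Idx (t n₀).1, it n₀, inferInstance, ht3 n₀, ?_, ?_⟩
  · rw [card_Idx]
    omega
  · intro n
    obtain ⟨m, hm, hnm⟩ := hinf.exists_gt n
    apply hmono n m _ hnm.le
    have he : t m = t n₀ := by
      rw [Set.mem_preimage, Set.mem_singleton_iff] at hm hn₀
      rw [hm, hn₀]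
    have h1 := htP m
    have hm1 := hmul m
    have hm2 := hmul n₀
    -- transport
    have gen : ∀ (s s' : T) (hs : s = s') (i : Group (Idx s.1)) (i' : Group (Idx s'.1)),
        (∀ x y : Idx s.1, x * y = s.2 x y) → (∀ x y : Idx s'.1, x * y = s'.2 x y) →
        @P m (Idx s.1) i → @P m (Idx s'.1) i' := by
      intro s s' hs
      subst hs
      intro i i' h1 h2 h3
      have e : i = i' := Group.ext (by
        funext x y
        exact (h1 x y).trans (h2 x y).symm)
      subst e
      exact h3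
    exact gen _ _ he _ _ hm1 hm2 h1

end Pool.Agent.TH12.Puig
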