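import Pool.Agent.TH12.Puig.PlaneRep

/-!
# The action of `PGL₃(K)` on the projective plane
-/

set_option autoImplicit false

namespace Pool.Agent.TH12.Puig

open Matrix Configuration Configuration.ofField
open scoped LinearAlgebra.Projectivization MatrixGroups

variable {K : Type} [Field K]

/-- the projective plane -/
abbrev PP (K : Type) [Field K] := ℙ K (Fin 3 → K)

lemma mulVec_ne_zero (g : GL (Fin 3) K) {v : Fin 3 → K} (hv : v ≠ 0) :
    (g : Matrix (Fin 3) (Fin 3) K) *ᵥ v ≠ 0 := by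
  intro h
  apply hv
  have h1 : ((g⁻¹ : GL (Fin 3) K) : Matrix (Fin 3) (Fin 3) K) *ᵥ
      ((g : Matrix (Fin 3) (Fin 3) K) *ᵥ v) = v := by
    rw [Matrix.mulVec_mulVec, ← Units.val_mul, inv_mul_cancel, Units.val_one, Matrix.one_mulVec]
  rw [h, Matrix.mulVec_zero] at h1
  exact h1.symm

/-- the action on points -/
noncomputable def ptMap (g : GL (Fin 3) K) : PP K → PP K :=
  Projectivization.map (Matrix.mulVecLin (g : Matrix (Fin 3) (Fin 3) K)) (by
    rw [← LinearMap.ker_eq_bot, LinearMap.ker_eq_bot']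
    intro v hv
    by_contra h
    exact mulVec_ne_zero g h hv)

lemma ptMap_mk (g : GL (Fin 3) K) {v : Fin 3 → K} (hv : v ≠ 0) :
    ptMap g (Projectivization.mk K v hv) =
      Projectivization.mk K ((g : Matrix (Fin 3) (Fin 3) K) *ᵥ v) (mulVec_ne_zero g hv) := rfl

lemma ptMap_one (x : PP K) : ptMap 1 x = x := by
  induction x using Projectivization.ind with | h v hv =>
  rw [ptMap_mk]
  congr 1
  rw [Units.val_one, Matrix.one_mulVec]

lemma ptMap_mul (g h : GL (Fin 3) K) (x : PP K) : ptMap (g * h) x = ptMap g (ptMap h x) := by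
  induction x using Projectivization.ind with | h v hv =>
  rw [ptMap_mk, ptMap_mk, ptMap_mk]
  congr 1
  rw [Units.val_mul, Matrix.mulVec_mulVec]

/-- the action on points -/
noncomputable def ptHom (K : Type) [Field K] : GL (Fin 3) K →* Equiv.Perm (PP K) where
  toFun g :=
    { toFun := ptMap g
      invFun := ptMap g⁻¹
      left_inv := fun x => by rw [← ptMap_mul, inv_mul_cancel, ptMap_one]
      right_inv := fun x => by rw [← ptMap_mul, mul_inv_cancel, ptMap_one] }
  map_one' := by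
    ext x
    exact ptMap_one x
  map_mul' g h := by
    ext x
    exact ptMap_mul g h x

lemma ptHom_apply (g : GL (Fin 3) K) (x : PP K) : ptHom K g x = ptMap g x := rfl

/-- the contragredient -/
def contra (K : Type) [Field K] : GL (Fin 3) K →* GL (Fin 3) K where
  toFun g := ⟨((g⁻¹ : GL (Fin 3) K) : Matrix (Fin 3) (Fin 3) K)ᵀ,
    (g : Matrix (Fin 3) (Fin 3) K)ᵀ, by
      rw [← Matrix.transpose_mul, ← Units.val_mul, mul_inv_cancel, Units.val_one,
        Matrix.transpose_one], by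
      rw [← Matrix.transpose_mul, ← Units.val_mul, inv_mul_cancel, Units.val_one,
        Matrix.transpose_one]⟩
  map_one' := by
    apply Units.ext
    simp
  map_mul' g h := by
    apply Units.ext
    change (((g * h)⁻¹ : GL (Fin 3) K) : Matrix (Fin 3) (Fin 3) K)ᵀ =
      ((g⁻¹ : GL (Fin 3) K) : Matrix (Fin 3) (Fin 3) K)ᵀ *
        ((h⁻¹ : GL (Fin 3) K) : Matrix (Fin 3) (Fin 3) K)ᵀ
    rw [_root_.mul_inv_rev, Units.val_mul, Matrix.transpose_mul]

lemma contra_val (g : GL (Fin 3) K) : ((contra K g : GL (Fin 3) K) : Matrix (Fin 3) (Fin 3) K) =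
    ((g⁻¹ : GL (Fin 3) K) : Matrix (Fin 3) (Fin 3) K)ᵀ := rfl

lemma ptHom_scalar (u : Kˣ) : ptHom K (Matrix.GeneralLinearGroup.scalar (Fin 3) u) = 1 := by
  ext x
  rw [ptHom_apply, Equiv.Perm.one_apply]
  induction x using Projectivization.ind with | h v hv =>
  rw [ptMap_mk, Projectivization.mk_eq_mk_iff']
  refine ⟨u, ?_⟩
  rw [Matrix.GeneralLinearGroup.coe_scalar]
  ext i
  simp [Matrix.mulVec_diagonal]

lemma contra_scalar (u : Kˣ) : contra K (Matrix.GeneralLinearGroup.scalar (Fin 3) u) =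
    Matrix.GeneralLinearGroup.scalar (Fin 3) u⁻¹ := by
  apply Units.ext
  rw [contra_val, ← map_inv, Matrix.GeneralLinearGroup.coe_scalar]
  simp

/-- the action of `PGL₃(K)` on points -/
noncomputable def sP (K : Type) [Field K] : PGL(3, K) →* Equiv.Perm (PP K) :=
  ProjGenLinGroup.lift (ptHom K) (by
    ext u x
    rw [MonoidHom.comp_apply, ptHom_scalar]
    rfl)

/-- the action of `PGL₃(K)` on lines -/
noncomputable def sL (K : Type) [Field K] : PGL(3, K) →* Equiv.Perm (PP K) :=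
  ProjGenLinGroup.lift ((ptHom K).comp (contra K)) (by
    ext u x
    rw [MonoidHom.comp_apply, MonoidHom.comp_apply, contra_scalar, ptHom_scalar]
    rfl)

lemma sP_mk (g : GL (Fin 3) K) (x : PP K) : sP K (ProjGenLinGroup.mk g) x = ptMap g x := rfl

lemma sL_mk (g : GL (Fin 3) K) (x : PP K) :
    sL K (ProjGenLinGroup.mk g) x = ptMap (contra K g) x := rfl

lemma mem_mk_iff {v w : Fin 3 → K} (hv : v ≠ 0) (hw : w ≠ 0) :
    (Projectivization.mk K v hv : PP K) ∈ (Projectivization.mk K w hw : PP K) ↔ v ⬝ᵥ w = 0 := by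
  rw [mem_iff, Projectivization.orthogonal_mk]

lemma s_inc (g : PGL(3, K)) (p l : PP K) (h : p ∈ l) : sP K g p ∈ sL K g l := by
  induction g using Matrix.ProjGenLinGroup.induction_on with | mk g =>
  rw [sP_mk, sL_mk]
  induction p using Projectivization.ind with | h v hv =>
  induction l using Projectivization.ind with | h w hw =>
  rw [mem_mk_iff] at h
  rw [ptMap_mk, ptMap_mk, mem_mk_iff, contra_val, Matrix.dotProduct_mulVec,
    Matrix.vecMul_transpose, Matrix.mulVec_mulVec, ← Units.val_mul, inv_mul_cancel,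
    Units.val_one, Matrix.one_mulVec]
  exact h

/-- the order of the projective plane -/
lemma order_PP [Fintype K] [DecidableEq K] :
    ProjectivePlane.order (PP K) (PP K) = Fintype.card K := by
  have h1 := Projectivization.card_of_finrank K (Fin 3 → K) (n := 3) (by simp)
  have hfin : Fintype (PP K) := Fintype.ofFinite _
  have h2 := ProjectivePlane.card_points (PP K) (PP K)
  rw [← Nat.card_eq_fintype_card, h1, Nat.card_eq_fintype_card] at h2
  simp only [Finset.sum_range_succ, Finset.sum_range_zero, pow_zero, pow_one, zero_add] at h2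
  have h3 : ∀ a b : ℕ, 1 + a + a ^ 2 = b ^ 2 + b + 1 → b = a := by
    intro a b h
    nlinarith
  exact h3 _ _ h2

/-- the transformation `v ↦ v + φ(v) c` -/
def el (c φ : Fin 3 → K) (h : φ ⬝ᵥ c = 0) : GL (Fin 3) K :=
  ⟨1 + vecMulVec c φ, 1 - vecMulVec c φ, by
    rw [add_mul, mul_sub, mul_sub, one_mul, mul_one, one_mul, vecMulVec_mul_vecMulVec, h, zero_smul,
      vecMulVec_zero]
    abel, by
    rw [sub_mul, mul_add, mul_add, one_mul, mul_one, one_mul, vecMulVec_mul_vecMulVec, h, zero_smul,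
      vecMulVec_zero]
    abel⟩

lemma el_val (c φ : Fin 3 → K) (h : φ ⬝ᵥ c = 0) :
    ((el c φ h : GL (Fin 3) K) : Matrix (Fin 3) (Fin 3) K) = 1 + vecMulVec c φ := rfl

lemma el_inv_val (c φ : Fin 3 → K) (h : φ ⬝ᵥ c = 0) :
    (((el c φ h)⁻¹ : GL (Fin 3) K) : Matrix (Fin 3) (Fin 3) K) = 1 - vecMulVec c φ := rfl

lemma el_mulVec (c φ : Fin 3 → K) (h : φ ⬝ᵥ c = 0) (v : Fin 3 → K) :
    ((el c φ h : GL (Fin 3) K) : Matrix (Fin 3) (Fin 3) K) *ᵥ v = v + (φ ⬝ᵥ v) • c := by
  rw [el_val, Matrix.add_mulVec, Matrix.one_mulVec, vecMulVec_mulVec]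
  simp

lemma contra_el_mulVec (c φ : Fin 3 → K) (h : φ ⬝ᵥ c = 0) (v : Fin 3 → K) :
    ((contra K (el c φ h) : GL (Fin 3) K) : Matrix (Fin 3) (Fin 3) K) *ᵥ v =
      v - (c ⬝ᵥ v) • φ := by
  rw [contra_val, el_inv_val, Matrix.transpose_sub, Matrix.transpose_one, Matrix.sub_mulVec,
    Matrix.one_mulVec, Matrix.transpose_vecMulVec, vecMulVec_mulVec]
  simp

lemma el_mul (c c' φ : Fin 3 → K) (h : φ ⬝ᵥ c = 0) (h' : φ ⬝ᵥ c' = 0) :
    el c φ h * el c' φ h' = el (c + c') φ (by rw [dotProduct_add, h, h', add_zero]) := by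
  apply Units.ext
  rw [Units.val_mul, el_val, el_val, el_val, add_mul, mul_add, mul_add, one_mul, mul_one, one_mul,
    vecMulVec_mul_vecMulVec, h', zero_smul, vecMulVec_zero, add_vecMulVec]
  abel

lemma el_mul' (c φ φ' : Fin 3 → K) (h : φ ⬝ᵥ c = 0) (h' : φ' ⬝ᵥ c = 0) :
    el c φ h * el c φ' h' = el c (φ + φ') (by rw [add_dotProduct, h, h', add_zero]) := by
  apply Units.ext
  rw [Units.val_mul, el_val, el_val, el_val, add_mul, mul_add, mul_add, one_mul, mul_one, one_mul,
    vecMulVec_mul_vecMulVec, h, zero_smul, vecMulVec_zero, vecMulVec_add]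
  abel

/-- axial elations -/
lemma isAxial_el {φ : Fin 3 → K} (hφ : φ ≠ 0) {C : Type} [Group C] (u : C →* PGL(3, K))
    (f : C → Fin 3 → K) (hf : ∀ c, φ ⬝ᵥ f c = 0)
    (hu : ∀ c, u c = ProjGenLinGroup.mk (el (f c) φ (hf c)))
    (hsurj : ∀ a, φ ⬝ᵥ a = 0 → ∃ c, f c = a) :
    IsAxial (sP K) (Projectivization.mk K φ hφ : PP K) u := by
  constructor
  · intro c p hp
    induction p using Projectivization.ind with | h v hv =>
    rw [mem_mk_iff, dotProduct_comm] at hp
    rw [hu, sP_mk, ptMap_mk]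
    congr 1
    rw [el_mulVec, hp, zero_smul, add_zero]
  · intro p p' hp hp'
    induction p using Projectivization.ind with | h v hv =>
    induction p' using Projectivization.ind with | h v' hv' =>
    rw [mem_mk_iff, dotProduct_comm] at hp hp'
    obtain ⟨c, hc⟩ := hsurj ((φ ⬝ᵥ v)⁻¹ • (((φ ⬝ᵥ v) * (φ ⬝ᵥ v')⁻¹) • v' - v)) (by
      rw [dotProduct_smul, dotProduct_sub, dotProduct_smul, smul_eq_mul, smul_eq_mul,
        inv_mul_cancel_right₀ hp', sub_self, mul_zero])
    refine ⟨c, ?_⟩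
    rw [hu, sP_mk, ptMap_mk, Projectivization.mk_eq_mk_iff']
    refine ⟨(φ ⬝ᵥ v) * (φ ⬝ᵥ v')⁻¹, ?_⟩
    rw [el_mulVec, hc, smul_smul, mul_inv_cancel₀ hp, one_smul, add_sub_cancel]

/-- central elations -/
lemma isCentral_el {a : Fin 3 → K} (ha : a ≠ 0) {C : Type} [Group C] (u : C →* PGL(3, K))
    (f : C → Fin 3 → K) (hf : ∀ c, f c ⬝ᵥ a = 0)
    (hu : ∀ c, u c = ProjGenLinGroup.mk (el a (f c) (hf c)))
    (hsurj : ∀ φ, φ ⬝ᵥ a = 0 → ∃ c, f c = φ) :
    IsCentral (sL K) (Projectivization.mk K a ha : PP K) u := by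
  constructor
  · intro c l hl
    induction l using Projectivization.ind with | h v hv =>
    rw [mem_mk_iff] at hl
    rw [hu, sL_mk, ptMap_mk]
    congr 1
    rw [contra_el_mulVec, hl, zero_smul, sub_zero]
  · intro l l' hl hl'
    induction l using Projectivization.ind with | h v hv =>
    induction l' using Projectivization.ind with | h v' hv' =>
    rw [mem_mk_iff] at hl hl'
    obtain ⟨c, hc⟩ := hsurj ((a ⬝ᵥ v)⁻¹ • (v - ((a ⬝ᵥ v) * (a ⬝ᵥ v')⁻¹) • v')) (by
      rw [smul_dotProduct, sub_dotProduct, smul_dotProduct, smul_eq_mul, smul_eq_mul,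
        dotProduct_comm v, dotProduct_comm v',
        inv_mul_cancel_right₀ hl', sub_self, mul_zero])
    refine ⟨c, ?_⟩
    rw [hu, sL_mk, ptMap_mk, Projectivization.mk_eq_mk_iff']
    refine ⟨(a ⬝ᵥ v) * (a ⬝ᵥ v')⁻¹, ?_⟩
    rw [contra_el_mulVec, hc, smul_smul, mul_inv_cancel₀ hl, one_smul, sub_sub_cancel]

/-- For every line there are enough axial elations. -/
lemma exists_axial (l : PP K) :
    ∃ (C : Type) (_ : Group C) (u : C →* PGL(3, K)), IsAxial (sP K) l u := by
  induction l using Projectivization.ind with | h φ hφ =>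
  let C₀ : AddSubgroup (Fin 3 → K) :=
    { carrier := {a | φ ⬝ᵥ a = 0}
      zero_mem' := dotProduct_zero φ
      add_mem' := fun {a b} (ha : φ ⬝ᵥ a = 0) (hb : φ ⬝ᵥ b = 0) => by
        change φ ⬝ᵥ (a + b) = 0
        rw [dotProduct_add, ha, hb, add_zero]
      neg_mem' := fun {a} (ha : φ ⬝ᵥ a = 0) => by
        change φ ⬝ᵥ (-a) = 0
        rw [dotProduct_neg, ha, neg_zero] }
  let u : Multiplicative C₀ →* PGL(3, K) :=
    ProjGenLinGroup.mk.comp
      { toFun := fun c => el (c.toAdd : C₀).1 φ (c.toAdd : C₀).2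
        map_one' := by
          apply Units.ext
          rw [el_val]
          change 1 + vecMulVec (0 : Fin 3 → K) φ = 1
          rw [zero_vecMulVec, add_zero]
        map_mul' := fun c c' => (el_mul _ _ _ _ _).symm }
  exact ⟨Multiplicative C₀, inferInstance, u, isAxial_el hφ u (fun c => (c.toAdd : C₀).1)
    (fun c => (c.toAdd : C₀).2) (fun c => rfl) (fun a ha => ⟨Multiplicative.ofAdd ⟨a, ha⟩, rfl⟩)⟩

/-- For every point there are enough central elations. -/
lemma exists_central (p : PP K) :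
    ∃ (C : Type) (_ : Group C) (u : C →* PGL(3, K)), IsCentral (sL K) p u := by
  induction p using Projectivization.ind with | h a ha =>
  let C₀ : AddSubgroup (Fin 3 → K) :=
    { carrier := {φ | φ ⬝ᵥ a = 0}
      zero_mem' := zero_dotProduct a
      add_mem' := fun {x y} (hx : x ⬝ᵥ a = 0) (hy : y ⬝ᵥ a = 0) => by
        change (x + y) ⬝ᵥ a = 0
        rw [add_dotProduct, hx, hy, add_zero]
      neg_mem' := fun {x} (hx : x ⬝ᵥ a = 0) => by
        change (-x) ⬝ᵥ a = 0
        rw [neg_dotProduct, hx, neg_zero] }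
  let u : Multiplicative C₀ →* PGL(3, K) :=
    ProjGenLinGroup.mk.comp
      { toFun := fun c => el a (c.toAdd : C₀).1 (c.toAdd : C₀).2
        map_one' := by
          apply Units.ext
          rw [el_val]
          change 1 + vecMulVec a (0 : Fin 3 → K) = 1
          rw [vecMulVec_zero, add_zero]
        map_mul' := fun c c' => (el_mul' _ _ _ _ _).symm }
  exact ⟨Multiplicative C₀, inferInstance, u, isCentral_el ha u (fun c => (c.toAdd : C₀).1)
    (fun c => (c.toAdd : C₀).2) (fun c => rfl) (fun φ hφ => ⟨Multiplicative.ofAdd ⟨φ, hφ⟩, rfl⟩)⟩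

end Pool.Agent.TH12.Puig
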