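import Pool.Agent.TH12.Puig.PlaneFn
import Pool.Agent.TH12.Puig.PermRep

/-!
# A simple module from the flags of a projective plane
-/

set_option autoImplicit false

namespace Pool.Agent.TH12.Puig

open Finset Configuration Module

universe u

variable {P L : Type} [Membership P L] [ProjectivePlane P L] [Fintype P] [Fintype L]
variable {G : Type} [Group G]

/-- the flags -/
abbrev Flag (P L : Type) [Membership P L] : Type := {x : P × L // x.1 ∈ x.2}

/-- the point of a flag -/
abbrev fP (x : Flag P L) : P := x.1.1

/-- the line of a flag -/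
abbrev fL (x : Flag P L) : L := x.1.2

/-- the action on the flags -/
def flagPerm (σP : G →* Equiv.Perm P) (σL : G →* Equiv.Perm L)
    (hinc : ∀ g p l, p ∈ l → σP g p ∈ σL g l) : G →* Equiv.Perm (Flag P L) where
  toFun g :=
    { toFun := fun x => ⟨(σP g x.1.1, σL g x.1.2), hinc g _ _ x.2⟩
      invFun := fun x => ⟨(σP g⁻¹ x.1.1, σL g⁻¹ x.1.2), hinc g⁻¹ _ _ x.2⟩
      left_inv := fun x => by simp
      right_inv := fun x => by simp }
  map_one' := by
    ext x <;> simp
  map_mul' g h := by
    ext x <;> simp

section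

open scoped Classical in
/-- functions on the flags all of whose sums over points and lines vanish -/
noncomputable def ZZ (F : Type*) [Field F] (P L : Type) [Membership P L] [Fintype P] [Fintype L] :
    Submodule F (Flag P L → F) :=
  LinearMap.ker ((push F (fP : Flag P L → P)).prod (push F (fL : Flag P L → L)))

/-- sums of functions of the point and of the line -/
noncomputable def II (F : Type*) [Field F] (P L : Type) [Membership P L] :
    Submodule F (Flag P L → F) :=
  LinearMap.range ((LinearMap.funLeft F F (fP : Flag P L → P)).coprod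
    (LinearMap.funLeft F F (fL : Flag P L → L)))

variable {F : Type*} [Field F]

omit [ProjectivePlane P L] in
open scoped Classical in
lemma mem_ZZ {f : Flag P L → F} : f ∈ ZZ F P L ↔
    push F (fP : Flag P L → P) f = 0 ∧ push F (fL : Flag P L → L) f = 0 := by
  rw [ZZ, LinearMap.mem_ker, LinearMap.prod_apply, Prod.ext_iff]
  rfl

omit [ProjectivePlane P L] [Fintype P] [Fintype L] in
lemma mem_II {f : Flag P L → F} : f ∈ II F P L ↔
    ∃ (A : P → F) (B : L → F), ∀ p l (h : p ∈ l), f ⟨(p, l), h⟩ = A p + B l := by
  rw [II, LinearMap.mem_range]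
  constructor
  · rintro ⟨⟨A, B⟩, rfl⟩
    exact ⟨A, B, fun p l h => rfl⟩
  · rintro ⟨A, B, h⟩
    refine ⟨(A, B), ?_⟩
    funext x
    obtain ⟨⟨p, l⟩, hx⟩ := x
    rw [h p l hx]
    rfl

open scoped Classical in
lemma card_flag : Fintype.card (Flag P L) =
    (ProjectivePlane.order P L + 1) * Fintype.card P := by
  rw [Fintype.card_subtype, ← Finset.univ_product_univ,
    Finset.card_filter, Finset.sum_product]
  simp only [← Finset.card_filter]
  have h6 : ∀ p : P, (univ.filter (fun l : L => p ∈ l)).card = ProjectivePlane.order P L + 1 := by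
    intro p
    rw [← ProjectivePlane.lineCount_eq (L := L) p, lineCount, Nat.card_eq_fintype_card,
      Fintype.card_subtype]
  simp only [h6, Finset.sum_const, smul_eq_mul, Finset.card_univ]
  ring

lemma not_ZZ_le_II (h4 : 4 ≤ ProjectivePlane.order P L) : ¬ ZZ F P L ≤ II F P L := by
  classical
  intro hle
  have h1 := Submodule.finrank_mono hle
  have h2 : finrank F (II F P L) ≤ Fintype.card P + Fintype.card L := by
    rw [II]
    refine (LinearMap.finrank_range_le _).trans ?_
    rw [Module.finrank_prod, Module.finrank_fintype_fun_eq_card,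
      Module.finrank_fintype_fun_eq_card]
  have h3 := LinearMap.finrank_range_add_finrank_ker
    ((push F (fP : Flag P L → P)).prod (push F (fL : Flag P L → L)))
  have h5 : finrank F (LinearMap.range
      ((push F (fP : Flag P L → P)).prod (push F (fL : Flag P L → L)))) ≤
      Fintype.card P + Fintype.card L := by
    refine (Submodule.finrank_le _).trans ?_
    rw [Module.finrank_prod, Module.finrank_fintype_fun_eq_card,
      Module.finrank_fintype_fun_eq_card]
  rw [Module.finrank_fintype_fun_eq_card, card_flag] at h3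
  have h6 : Fintype.card L = Fintype.card P :=
    (ProjectivePlane.card_points_eq_card_lines P L).symm
  rw [h6] at h2 h5
  have h7 : 0 < Fintype.card P := by
    rw [ProjectivePlane.card_points P L]; positivity
  have h8 : finrank F (ZZ F P L) = finrank F (LinearMap.ker
    ((push F (fP : Flag P L → P)).prod (push F (fL : Flag P L → L)))) := rfl
  rw [← h8] at h3
  have h9 : (4 + 1) * Fintype.card P ≤ (ProjectivePlane.order P L + 1) * Fintype.card P :=
    Nat.mul_le_mul_right _ (by omega)
  omega


open scoped Classical in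
/-- extension of a function on flags by zero -/
noncomputable def ext0 (f : Flag P L → F) (p : P) (l : L) : F := if h : p ∈ l then f ⟨(p, l), h⟩ else 0

omit [ProjectivePlane P L] [Fintype P] [Fintype L] in
lemma ext0_of_mem (f : Flag P L → F) {p : P} {l : L} (h : p ∈ l) : ext0 f p l = f ⟨(p, l), h⟩ := by
  rw [ext0, dif_pos h]

open scoped Classical in
omit [ProjectivePlane P L] in
lemma sum_ext0_P (f : Flag P L → F) (p : P) :
    ∑ l ∈ univ.filter (p ∈ ·), ext0 f p l = push F (fP : Flag P L → P) f p := by
  rw [push_apply]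
  refine Finset.sum_bij' (fun l hl => (⟨(p, l), by simpa using hl⟩ : Flag P L)) (fun x _ => x.1.2)
    ?_ ?_ ?_ ?_ ?_
  · intro l hl
    simp
  · intro x hx
    simp only [mem_filter, mem_univ, true_and] at hx ⊢
    rw [← hx]
    exact x.2
  · intro l _; rfl
  · intro x hx
    simp only [mem_filter, mem_univ, true_and] at hx
    subst hx
    rfl
  · intro l hl
    rw [ext0_of_mem f (by simpa using hl)]

open scoped Classical in
omit [ProjectivePlane P L] in
lemma sum_ext0_L (f : Flag P L → F) (l : L) :
    ∑ p ∈ univ.filter (· ∈ l), ext0 f p l = push F (fL : Flag P L → L) f l := by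
  rw [push_apply]
  refine Finset.sum_bij' (fun p hp => (⟨(p, l), by simpa using hp⟩ : Flag P L)) (fun x _ => x.1.1)
    ?_ ?_ ?_ ?_ ?_
  · intro l hl
    simp
  · intro x hx
    simp only [mem_filter, mem_univ, true_and] at hx ⊢
    rw [← hx]
    exact x.2
  · intro l _; rfl
  · intro x hx
    simp only [mem_filter, mem_univ, true_and] at hx
    subst hx
    rfl
  · intro p hp
    rw [ext0_of_mem f (by simpa using hp)]

variable (σP : G →* Equiv.Perm P) (σL : G →* Equiv.Perm L)
  (hinc : ∀ g p l, p ∈ l → σP g p ∈ σL g l)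

/-- invariants of groups of axial elations -/
lemma mem_II_of_axial [CharP F 3] (hq : (ProjectivePlane.order P L : F) = 1)
    {C : Type} [Group C] (u : C →* G) {l₀ : L} (hu : IsAxial σP l₀ u) {f : Flag P L → F}
    (hf : f ∈ ZZ F P L) (hfix : ∀ c, permRep F (flagPerm σP σL hinc) (u c) f = f) :
    f ∈ II F P L := by
  classical
  rw [mem_ZZ] at hf
  have hp : ∀ p : P, ∑ l ∈ univ.filter (p ∈ ·), ext0 f p l = 0 := fun p => by
    have := congrFun hf.1 p
    rw [Pi.zero_apply] at this
    rw [sum_ext0_P]
    convert this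
  have hl : ∀ l : L, ∑ p ∈ univ.filter (· ∈ l), ext0 f p l = 0 := fun l => by
    have := congrFun hf.2 l
    rw [Pi.zero_apply] at this
    rw [sum_ext0_L]
    convert this
  obtain ⟨A, B, hAB⟩ := exists_add_of_axial σP σL hq hinc (ext0 f) l₀ hp hl u hu (by
    intro c p l hpl
    rw [ext0_of_mem f hpl, ext0_of_mem f (hinc _ _ _ hpl)]
    have h1 := congrFun (hfix c⁻¹) ⟨(p, l), hpl⟩
    have h2 : (u c⁻¹)⁻¹ = u c := by rw [map_inv, inv_inv]
    rw [permRep_apply, h2] at h1
    exact h1)
  rw [mem_II]
  exact ⟨A, B, fun p l h => by rw [← hAB p l h, ext0_of_mem f h]⟩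


/-- The group `u(C)` fixes all lines through the point `p` and is transitive on the other
lines. -/
def IsCentral {C : Type} [Group C] (p : P) (u : C →* G) : Prop :=
  (∀ c, ∀ l : L, p ∈ l → σL (u c) l = l) ∧ ∀ l l' : L, p ∉ l → p ∉ l' → ∃ c, σL (u c) l = l'

include hinc in
/-- invariants of groups of central elations -/
lemma mem_II_of_central [CharP F 3] (hq : (ProjectivePlane.order P L : F) = 1)
    {C : Type} [Group C] (u : C →* G) {p₀ : P} (hu : IsCentral σL p₀ u) {f : Flag P L → F}
    (hf : f ∈ ZZ F P L) (hfix : ∀ c, permRep F (flagPerm σP σL hinc) (u c) f = f) :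
    f ∈ II F P L := by
  classical
  rw [mem_ZZ] at hf
  have hp : ∀ p : P, ∑ l ∈ univ.filter (p ∈ ·), ext0 f p l = 0 := fun p => by
    have := congrFun hf.1 p
    rw [Pi.zero_apply] at this
    rw [sum_ext0_P]
    convert this
  have hl : ∀ l : L, ∑ p ∈ univ.filter (· ∈ l), ext0 f p l = 0 := fun l => by
    have := congrFun hf.2 l
    rw [Pi.zero_apply] at this
    rw [sum_ext0_L]
    convert this
  have hq' : (ProjectivePlane.order (Dual L) (Dual P) : F) = 1 := by
    rw [ProjectivePlane.Dual.order]
    exact hq
  obtain ⟨A, B, hAB⟩ := exists_add_of_axial (P := Dual L) (L := Dual P) (G := G) σL σP hq'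
    (fun g p l hpl => hinc g l p hpl) (fun l p => ext0 f p l) p₀ hl hp u hu (by
    intro c (p : L) (l : P) (hpl : l ∈ p)
    change ext0 f (σP (u c) l) (σL (u c) p) = ext0 f l p
    rw [ext0_of_mem f hpl, ext0_of_mem f (hinc _ _ _ hpl)]
    have h1 := congrFun (hfix c⁻¹) ⟨(l, p), hpl⟩
    have h2 : (u c⁻¹)⁻¹ = u c := by rw [map_inv, inv_inv]
    rw [permRep_apply, h2] at h1
    exact h1)
  rw [mem_II]
  refine ⟨B, A, fun p l h => ?_⟩
  have h3 := hAB l p h
  rw [ext0_of_mem f h] at h3
  rw [h3, add_comm]

end

end Pool.Agent.TH12.Puig
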