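import Mathlib

/-!
# Functions on the flags of a projective plane
-/

set_option autoImplicit false

namespace Pool.Agent.TH12.Puig

open Finset Configuration

variable {P L : Type*} [Membership P L] [ProjectivePlane P L] [Fintype P] [Fintype L]

open HasPoints (mkPoint mkPoint_ax)

open HasLines (mkLine mkLine_ax)

open Nondegenerate

open scoped Classical in
/-- Functions on the flags that are sums of a function of the point and a function of the line. -/
lemma exists_add_of_const {F : Type*} [Field F] [CharP F 3] (hq : (ProjectivePlane.order P L : F) = 1)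
    (f : P → L → F) (l₀ : L)
    (hp : ∀ p, ∑ l ∈ univ.filter (p ∈ ·), f p l = 0)
    (hl : ∀ l, ∑ p ∈ univ.filter (· ∈ l), f p l = 0)
    (h1 : ∀ r ∈ l₀, ∀ l l', r ∈ l → r ∈ l' → l ≠ l₀ → l' ≠ l₀ → f r l = f r l')
    (h2 : ∀ r ∈ l₀, ∀ p p' l l', p ∉ l₀ → p' ∉ l₀ → p ∈ l → p' ∈ l' → r ∈ l → r ∈ l' →
      f p l = f p' l') :
    ∃ (A : P → F) (B : L → F), ∀ p l, p ∈ l → f p l = A p + B l := by
  have h3 : (3 : F) = 0 := by
    have := CharP.cast_eq_zero F 3
    exact_mod_cast this
  -- for flags `(r, l)` with `r ∈ l₀`, `l ≠ l₀`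
  have e1 : ∀ r ∈ l₀, ∀ l, r ∈ l → l ≠ l₀ → f r l = -f r l₀ := by
    intro r hr l hrl hl0
    have h4 := hp r
    rw [← Finset.add_sum_erase _ _ (by simpa using hr : l₀ ∈ univ.filter (r ∈ ·))] at h4
    have h5 : ∀ l' ∈ (univ.filter (r ∈ ·)).erase l₀, f r l' = f r l := by
      intro l' hl'
      simp only [mem_erase, mem_filter, mem_univ, true_and] at hl'
      exact h1 r hr l' l hl'.2 hrl hl'.1 hl0
    rw [Finset.sum_congr rfl h5, Finset.sum_const, Finset.card_erase_of_mem (by simpa using hr)] at h4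
    have h6 : (univ.filter (fun l : L => r ∈ l)).card = ProjectivePlane.order P L + 1 := by
      rw [← ProjectivePlane.lineCount_eq (L := L) r, lineCount, Nat.card_eq_fintype_card,
        Fintype.card_subtype]
    rw [h6, Nat.add_sub_cancel, nsmul_eq_mul, hq, one_mul] at h4
    exact (neg_eq_of_add_eq_zero_right h4).symm
  -- for flags `(p, l)` with `p ∉ l₀`
  have e2 : ∀ p, p ∉ l₀ → ∀ l, p ∈ l → ∀ r ∈ l₀, r ∈ l → f p l = -f r l := by
    intro p hp0 l hpl r hr hrl
    have h4 := hl l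
    rw [← Finset.add_sum_erase _ _ (by simpa using hrl : r ∈ univ.filter (· ∈ l))] at h4
    have hll : l ≠ l₀ := fun h => hp0 (h ▸ hpl)
    have h5 : ∀ p' ∈ (univ.filter (· ∈ l)).erase r, f p' l = f p l := by
      intro p' hp'
      simp only [mem_erase, mem_filter, mem_univ, true_and] at hp'
      refine h2 r hr p' p l l ?_ hp0 hp'.2 hpl hrl hrl
      intro h6
      rcases eq_or_eq hp'.2 hrl h6 hr with h7 | h7
      · exact hp'.1 h7
      · exact hll h7
    rw [Finset.sum_congr rfl h5, Finset.sum_const, Finset.card_erase_of_mem (by simpa using hrl)]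
      at h4
    have h6 : (univ.filter (fun p : P => p ∈ l)).card = ProjectivePlane.order P L + 1 := by
      rw [← ProjectivePlane.pointCount_eq (P := P) l, pointCount, Nat.card_eq_fintype_card,
        Fintype.card_subtype]
    rw [h6, Nat.add_sub_cancel, nsmul_eq_mul, hq, one_mul] at h4
    exact (neg_eq_of_add_eq_zero_right h4).symm
  refine ⟨fun p => if p ∈ l₀ then f p l₀ else 0,
    fun l => if h : l = l₀ then 0 else f (mkPoint (P := P) h) l₀, ?_⟩
  intro p l hpl
  beta_reduce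
  by_cases hll : l = l₀
  · subst hll
    rw [if_pos hpl, dif_pos rfl, add_zero]
  · rw [dif_neg hll]
    have hr := mkPoint_ax (P := P) hll
    by_cases hp0 : p ∈ l₀
    · rw [if_pos hp0]
      have h4 : p = mkPoint (P := P) hll := by
        rcases eq_or_eq hpl hr.1 hp0 hr.2 with h5 | h5
        · exact h5
        · exact absurd h5 hll
      rw [← h4, e1 p hp0 l hpl hll]
      linear_combination -(f p l₀) * h3
    · rw [if_neg hp0, zero_add, e2 p hp0 l hpl _ hr.2 hr.1, e1 _ hr.2 l hr.1 hll, neg_neg]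

variable {G C : Type*} [Group G] [Group C] (σP : G →* Equiv.Perm P) (σL : G →* Equiv.Perm L)

/-- The group `u(C)` fixes all points of the line `l` and is transitive on the other points. -/
def IsAxial (l : L) (u : C →* G) : Prop :=
  (∀ c, ∀ p ∈ l, σP (u c) p = p) ∧ ∀ p p', p ∉ l → p' ∉ l → ∃ c, σP (u c) p = p'

omit [Fintype P] [Fintype L] in
/-- The image of a line joining two points -/
lemma line_map (hinc : ∀ g p l, p ∈ l → σP g p ∈ σL g l) {g : G} {p r p' : P} {l l' : L}
    (hpl : p ∈ l) (hrl : r ∈ l) (h1 : σP g p = p') (h2 : σP g r = r) (hp' : p' ∈ l')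
    (hr : r ∈ l') (hne : p' ≠ r) : σL g l = l' := by
  have h3 := hinc g p l hpl
  have h4 := hinc g r l hrl
  rw [h1] at h3
  rw [h2] at h4
  exact (eq_or_eq h3 h4 hp' hr).resolve_left hne

lemma exists_mem_ne (l : L) (r : P) : ∃ p ∈ l, p ≠ r := by
  classical
  by_contra hcon
  push Not at hcon
  have h1 := ProjectivePlane.two_lt_pointCount (P := P) l
  rw [pointCount, Nat.card_eq_fintype_card] at h1
  have h2 : Fintype.card {p : P // p ∈ l} ≤ 1 := by
    rw [Fintype.card_le_one_iff]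
    intro a b
    exact Subtype.ext ((hcon a a.2).trans (hcon b b.2).symm)
  omega

open scoped Classical in
lemma exists_add_of_axial {F : Type*} [Field F] [CharP F 3]
    (hq : (ProjectivePlane.order P L : F) = 1) (hinc : ∀ g p l, p ∈ l → σP g p ∈ σL g l)
    (f : P → L → F) (l₀ : L)
    (hp : ∀ p, ∑ l ∈ univ.filter (p ∈ ·), f p l = 0)
    (hl : ∀ l, ∑ p ∈ univ.filter (· ∈ l), f p l = 0) (u : C →* G) (hu : IsAxial σP l₀ u)
    (hf : ∀ c p l, p ∈ l → f (σP (u c) p) (σL (u c) l) = f p l) :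
    ∃ (A : P → F) (B : L → F), ∀ p l, p ∈ l → f p l = A p + B l := by
  have h2 : ∀ r ∈ l₀, ∀ p p' l l', p ∉ l₀ → p' ∉ l₀ → p ∈ l → p' ∈ l' → r ∈ l → r ∈ l' →
      ∃ c, σP (u c) p = p' ∧ σL (u c) l = l' := by
    intro r hr p p' l l' hp0 hp0' hpl hpl' hrl hrl'
    obtain ⟨c, hc⟩ := hu.2 p p' hp0 hp0'
    exact ⟨c, hc, line_map σP σL hinc hpl hrl hc (hu.1 c r hr) hpl' hrl' (fun h =>
      hp0' (h ▸ hr))⟩
  refine exists_add_of_const hq f l₀ hp hl ?_ ?_
  · intro r hr l l' hrl hrl' hl0 hl0'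
    obtain ⟨p, hp, hpr⟩ := exists_mem_ne l r
    obtain ⟨p', hp', hpr'⟩ := exists_mem_ne l' r
    have e1 : p ∉ l₀ := by
      intro h
      rcases eq_or_eq hp hrl h hr with h5 | h5
      · exact hpr h5
      · exact hl0 h5
    have e2 : p' ∉ l₀ := by
      intro h
      rcases eq_or_eq hp' hrl' h hr with h5 | h5
      · exact hpr' h5
      · exact hl0' h5
    obtain ⟨c, hc1, hc2⟩ := h2 r hr p p' l l' e1 e2 hp hp' hrl hrl'
    rw [← hf c r l hrl, hu.1 c r hr, hc2]
  · intro r hr p p' l l' hp0 hp0' hpl hpl' hrl hrl'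
    obtain ⟨c, hc1, hc2⟩ := h2 r hr p p' l l' hp0 hp0' hpl hpl' hrl hrl'
    rw [← hf c p l hpl, hc1, hc2]

end Pool.Agent.TH12.Puig
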