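import Pool.Agent.TH12.Puig.Plane

/-!
# The cuspidal simple module in the principal block
-/

set_option autoImplicit false

namespace Pool.Agent.TH12.Puig

open Finset Configuration Module

universe u

section twotrans

variable {F : Type*} [Field F] {G : Type*} [Group G] {X : Type*} [Fintype X] [DecidableEq X]

omit [Fintype X] in
lemma permRep_single (s : G →* Equiv.Perm X) {g : G} {x : X} (h : s g x = x) :
    permRep F s g (Pi.single x 1) = Pi.single x 1 := by
  have h' : s g⁻¹ x = x := by
    rw [map_inv, Equiv.Perm.inv_eq_iff_eq, h]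
  funext y
  rw [permRep_apply]
  by_cases hy : y = x
  · rw [hy, h', Pi.single_eq_same]
  · have h1 : s g⁻¹ y ≠ x := by
      intro h2
      apply hy
      rw [← h'] at h2
      exact (s g⁻¹).injective h2
    rw [Pi.single_eq_of_ne h1, Pi.single_eq_of_ne hy]

omit [Fintype X] [DecidableEq X] in
lemma alg_comm {V : Type*} [AddCommGroup V] [Module F V] (ρ : Representation F G V)
    {e : MonoidAlgebra F G}
    (hc : ∀ g, MonoidAlgebra.of F G g * e = e * MonoidAlgebra.of F G g) (g : G) (v : V) :
    ρ g (ρ.asAlgebraHom e v) = ρ.asAlgebraHom e (ρ g v) := by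
  have h := congrArg ρ.asAlgebraHom (hc g)
  rw [map_mul, map_mul, Representation.asAlgebraHom_of] at h
  exact LinearMap.congr_fun h v

omit [Fintype X] [DecidableEq X] in
lemma alg_idem {V : Type*} [AddCommGroup V] [Module F V] (ρ : Representation F G V)
    {e : MonoidAlgebra F G} (he : e * e = e) (v : V) :
    ρ.asAlgebraHom e (ρ.asAlgebraHom e v) = ρ.asAlgebraHom e v := by
  have h := congrArg ρ.asAlgebraHom he
  rw [map_mul] at h
  exact LinearMap.congr_fun h v

lemma alg_zero_of_twotrans (s : G →* Equiv.Perm X) (hX : (Fintype.card X : F) = 0)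
    (h2 : ∀ x₀ x x', x ≠ x₀ → x' ≠ x₀ → ∃ g, s g x₀ = x₀ ∧ s g x = x')
    {e : MonoidAlgebra F G}
    (hc : ∀ g, MonoidAlgebra.of F G g * e = e * MonoidAlgebra.of F G g) (he : e * e = e)
    (ha : aug F G e = 0) : (permRep F s).asAlgebraHom e = 0 := by
  have key : ∀ x₀ : X, (permRep F s).asAlgebraHom e (Pi.single x₀ 1) = 0 := by
    intro x₀
    obtain ⟨v, hv⟩ : ∃ v, v = (permRep F s).asAlgebraHom e (Pi.single x₀ 1) := ⟨_, rfl⟩
    rw [← hv]
    have h1 : ∀ x x', x ≠ x₀ → x' ≠ x₀ → v x = v x' := by
      intro x x' hx hx'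
      obtain ⟨g, hg, hgx⟩ := h2 x₀ x x' hx hx'
      have h3 : permRep F s g v = v := by
        rw [hv, alg_comm _ hc, permRep_single s hg]
      have h4 := congrFun h3 x'
      rw [permRep_apply, ← hgx, ← Equiv.Perm.mul_apply, ← map_mul, inv_mul_cancel, map_one] at h4
      rw [← hgx]
      exact h4
    obtain ⟨α, hα⟩ : ∃ α : F, ∀ x, x ≠ x₀ → v x = α := by
      by_cases h : ∃ x₁, x₁ ≠ x₀
      · obtain ⟨x₁, hx₁⟩ := h
        exact ⟨v x₁, fun x hx => h1 x x₁ hx hx₁⟩
      · exact ⟨0, fun x hx => absurd ⟨x, hx⟩ h⟩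
    have h3 : v = α • (fun _ => (1 : F)) + (v x₀ - α) • Pi.single x₀ 1 := by
      funext x
      rw [Pi.add_apply, Pi.smul_apply, Pi.smul_apply, smul_eq_mul, smul_eq_mul, mul_one]
      by_cases hx : x = x₀
      · rw [hx, Pi.single_eq_same]; ring
      · rw [Pi.single_eq_of_ne hx, hα x hx]; ring
    -- the sum of `v`
    let T : (X → F) →ₗ[F] F := ∑ x, LinearMap.proj x
    have hT : ∀ f, T f = ∑ x, f x := fun f => by simp [T]
    have h4 : T v = 0 := by
      rw [hv, intertwine_alg (σ := Representation.trivial F G F) T, trivial_alg, ha, zero_smul]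
      intro g f
      rw [hT, hT, Representation.trivial_apply]
      simp only [permRep_apply]
      exact Equiv.sum_comp (s g⁻¹) f
    have h5 : v x₀ - α = 0 := by
      rw [h3, map_add, map_smul, map_smul, hT, hT] at h4
      simp only [Finset.sum_const, Finset.card_univ, nsmul_eq_mul, mul_one] at h4
      rw [hX, smul_zero, zero_add, Finset.sum_pi_single'] at h4
      simpa using h4
    have h6 : v = α • (fun _ => (1 : F)) := by
      rw [h5, zero_smul, add_zero] at h3
      exact h3
    -- constants are killed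
    let T' : F →ₗ[F] (X → F) := LinearMap.pi (fun _ => LinearMap.id)
    have h7 : (permRep F s).asAlgebraHom e (fun _ => (1 : F)) = 0 := by
      have h8 := intertwine_alg (ρ := Representation.trivial F G F) (σ := permRep F s) T'
        (fun g c => rfl) e 1
      rw [trivial_alg, ha, zero_smul, map_zero] at h8
      exact h8.symm
    have h9 : v = (permRep F s).asAlgebraHom e v := by
      rw [hv, alg_idem _ he]
    rw [h9, h6, map_smul, h7, smul_zero]
  apply LinearMap.pi_ext'
  intro x
  apply LinearMap.ext_ring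
  simp only [LinearMap.comp_apply, LinearMap.coe_single, LinearMap.zero_apply]
  exact key x

end twotrans

section

variable {P L : Type} [Membership P L] [ProjectivePlane P L] [Fintype P] [Fintype L]
variable {G : Type} [Group G] (σP : G →* Equiv.Perm P) (σL : G →* Equiv.Perm L)
  (hinc : ∀ g p l, p ∈ l → σP g p ∈ σL g l)

omit [Fintype L] [Fintype P] in
lemma twotrans_of_axial [Finite P] [Finite L]
    (h : ∀ l : L, ∃ (C : Type) (_ : Group C) (u : C →* G), IsAxial σP l u)
    (x₀ x x' : P) (hx : x ≠ x₀) (hx' : x' ≠ x₀) : ∃ g, σP g x₀ = x₀ ∧ σP g x = x' := by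
  classical
  cases nonempty_fintype P
  cases nonempty_fintype L
  -- a line through `x₀` that avoids `x` and `x'`
  obtain ⟨l, hl, hxl, hxl'⟩ : ∃ l : L, x₀ ∈ l ∧ x ∉ l ∧ x' ∉ l := by
    by_contra hcon
    push Not at hcon
    have h1 := ProjectivePlane.two_lt_lineCount (L := L) x₀
    rw [lineCount, Nat.card_eq_fintype_card, Fintype.card_subtype] at h1
    have h2 : (univ.filter (fun l : L => x₀ ∈ l)) ⊆
        {HasLines.mkLine (L := L) hx, HasLines.mkLine (L := L) hx'} := by
      intro l hl
      simp only [mem_filter, mem_univ, true_and] at hl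
      simp only [mem_insert, mem_singleton]
      by_cases hxl : x ∈ l
      · left
        have h3 := HasLines.mkLine_ax (L := L) hx
        exact (Nondegenerate.eq_or_eq hxl hl h3.1 h3.2).resolve_left hx
      · right
        have h3 := HasLines.mkLine_ax (L := L) hx'
        exact (Nondegenerate.eq_or_eq (hcon l hl hxl) hl h3.1 h3.2).resolve_left hx'
    have h4 := Finset.card_le_card h2
    have h5 := Finset.card_le_two (a := HasLines.mkLine (L := L) hx)
      (b := HasLines.mkLine (L := L) hx')
    omega
  obtain ⟨C, _, u, hu⟩ := h l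
  obtain ⟨c, hc⟩ := hu.2 x x' hxl hxl'
  exact ⟨u c, hu.1 c x₀ hl, hc⟩

variable {F : Type*} [Field F]

omit [ProjectivePlane P L] in
lemma invariant_ZZ (g : G) (f : Flag P L → F) (hf : f ∈ ZZ F P L) :
    permRep F (flagPerm σP σL hinc) g f ∈ ZZ F P L := by
  classical
  have h1 := mem_ZZ.1 hf
  rw [mem_ZZ]
  constructor
  · have h2 := push_equivariant (F := F) (flagPerm σP σL hinc) σP (fP : Flag P L → P)
      (fun _ _ => rfl) g f
    have h3 : push F (fP : Flag P L → P) f = 0 := by convert h1.1
    rw [h3, map_zero] at h2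
    convert h2
  · have h2 := push_equivariant (F := F) (flagPerm σP σL hinc) σL (fL : Flag P L → L)
      (fun _ _ => rfl) g f
    have h3 : push F (fL : Flag P L → L) f = 0 := by convert h1.2
    rw [h3, map_zero] at h2
    convert h2

omit [ProjectivePlane P L] [Fintype P] [Fintype L] in
lemma II_eq {f : Flag P L → F} (hf : f ∈ II F P L) : ∃ (A : P → F) (B : L → F),
    f = LinearMap.funLeft F F (fP : Flag P L → P) A + LinearMap.funLeft F F (fL : Flag P L → L) B := by
  obtain ⟨⟨A, B⟩, rfl⟩ := hf
  exact ⟨A, B, rfl⟩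

omit [ProjectivePlane P L] [Fintype P] [Fintype L] in
lemma mem_II_add (A : P → F) (B : L → F) :
    LinearMap.funLeft F F (fP : Flag P L → P) A + LinearMap.funLeft F F (fL : Flag P L → L) B ∈
      II F P L := ⟨(A, B), rfl⟩

omit [ProjectivePlane P L] [Fintype P] [Fintype L] in
lemma invariant_II (g : G) (f : Flag P L → F) (hf : f ∈ II F P L) :
    permRep F (flagPerm σP σL hinc) g f ∈ II F P L := by
  obtain ⟨A, B, rfl⟩ := II_eq hf
  rw [map_add, ← funLeft_equivariant (flagPerm σP σL hinc) σP fP (fun _ _ => rfl),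
    ← funLeft_equivariant (flagPerm σP σL hinc) σL fL (fun _ _ => rfl)]
  exact mem_II_add _ _

lemma alg_zero_flag [CharP F 3] (hq : (ProjectivePlane.order P L : F) = 1)
    (hP : ∀ l : L, ∃ (C : Type) (_ : Group C) (u : C →* G), IsAxial σP l u)
    (hL : ∀ p : P, ∃ (C : Type) (_ : Group C) (u : C →* G), IsCentral σL p u)
    {e : MonoidAlgebra F G}
    (hc : ∀ g, MonoidAlgebra.of F G g * e = e * MonoidAlgebra.of F G g) (he : e * e = e)
    (ha : aug F G e = 0) : (permRep F (flagPerm σP σL hinc)).asAlgebraHom e = 0 := by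
  classical
  have h3 : (3 : F) = 0 := by
    have := CharP.cast_eq_zero F 3
    exact_mod_cast this
  have hcP : (Fintype.card P : F) = 0 := by
    rw [ProjectivePlane.card_points P L]
    push_cast
    rw [hq, ← h3]; norm_num
  have hcL : (Fintype.card L : F) = 0 := by
    rw [ProjectivePlane.card_lines P L]
    push_cast
    rw [hq, ← h3]; norm_num
  have hEP : (permRep F σP).asAlgebraHom e = 0 :=
    alg_zero_of_twotrans σP hcP (twotrans_of_axial (L := L) σP hP) hc he ha
  have hEL : (permRep F σL).asAlgebraHom e = 0 := by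
    refine alg_zero_of_twotrans σL hcL ?_ hc he ha
    exact twotrans_of_axial (P := Dual L) (L := Dual P) (G := G) σL (fun p => by
      obtain ⟨C, hC, u, hu⟩ := hL p
      exact ⟨C, hC, u, hu⟩)
  have key : ∀ x : Flag P L, (permRep F (flagPerm σP σL hinc)).asAlgebraHom e (Pi.single x 1) = 0 := by
    intro x
    obtain ⟨v, hv⟩ : ∃ v, v = (permRep F (flagPerm σP σL hinc)).asAlgebraHom e (Pi.single x 1) :=
      ⟨_, rfl⟩
    rw [← hv]
    have h4 : v ∈ ZZ F P L := by
      rw [mem_ZZ]
      constructor
      · have h5 := intertwine_alg (F := F) (push F (fP : Flag P L → P))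
          (push_equivariant (F := F) (flagPerm σP σL hinc) σP (fP : Flag P L → P)
            (fun _ _ => rfl)) e (Pi.single x 1)
        rw [hEP, LinearMap.zero_apply, ← hv] at h5
        convert h5
      · have h5 := intertwine_alg (F := F) (push F (fL : Flag P L → L))
          (push_equivariant (F := F) (flagPerm σP σL hinc) σL (fL : Flag P L → L)
            (fun _ _ => rfl)) e (Pi.single x 1)
        rw [hEL, LinearMap.zero_apply, ← hv] at h5
        convert h5
    obtain ⟨⟨p, l⟩, hpl⟩ := x
    obtain ⟨C, _, u, hu⟩ := hP l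
    have h6 : v ∈ II F P L := by
      apply mem_II_of_axial σP σL hinc hq u hu h4
      intro c
      rw [hv, alg_comm _ hc]
      congr 1
      apply permRep_single
      obtain ⟨r, hr, hrp⟩ := exists_mem_ne l p
      have e1 : σP (u c) p = p := hu.1 c p hpl
      have e2 : σL (u c) l = l :=
        line_map σP σL hinc hpl hr e1 (hu.1 c r hr) hpl hr hrp.symm
      apply Subtype.ext
      change (σP (u c) p, σL (u c) l) = (p, l)
      rw [e1, e2]
    obtain ⟨A, B, hAB⟩ := II_eq h6
    have h9 : v = (permRep F (flagPerm σP σL hinc)).asAlgebraHom e v := by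
      rw [hv, alg_idem _ he]
    rw [h9, hAB, map_add,
      ← intertwine_alg (LinearMap.funLeft F F (fP : Flag P L → P))
        (funLeft_equivariant (flagPerm σP σL hinc) σP fP (fun _ _ => rfl)),
      ← intertwine_alg (LinearMap.funLeft F F (fL : Flag P L → L))
        (funLeft_equivariant (flagPerm σP σL hinc) σL fL (fun _ _ => rfl)), hEP, hEL,
      LinearMap.zero_apply, LinearMap.zero_apply, map_zero, map_zero, add_zero]
  apply LinearMap.pi_ext'
  intro x
  apply LinearMap.ext_ring
  simp only [LinearMap.comp_apply, LinearMap.coe_single, LinearMap.zero_apply]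
  exact key x

end

section main

variable {P L : Type} [Membership P L] [ProjectivePlane P L] [Fintype P] [Fintype L]
variable {G : Type} [Group G] (σP : G →* Equiv.Perm P) (σL : G →* Equiv.Perm L)
  (hinc : ∀ g p l, p ∈ l → σP g p ∈ σL g l)

variable {F : Type u} [Field F]

include hinc in
/-- **A cuspidal simple module in the principal block.** -/
theorem exists_cuspidal [CharP F 3] (hq : (ProjectivePlane.order P L : F) = 1)
    (h4 : 4 ≤ ProjectivePlane.order P L)
    (hP : ∀ l : L, ∃ (C : Type) (_ : Group C) (u : C →* G), IsAxial σP l u)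
    (hL : ∀ p : P, ∃ (C : Type) (_ : Group C) (u : C →* G), IsCentral σL p u) :
    ∃ (M : Type u) (_ : AddCommGroup M) (_ : Module F M) (_ : FiniteDimensional F M)
      (σ : Representation F G M), σ.IsIrreducible ∧
      (∀ (C : Type) [Group C] [Fintype C] (u : C →* G) (l : L), IsAxial σP l u →
        ∀ x, ∑ c, σ (u c) x = 0) ∧
      (∀ (C : Type) [Group C] [Fintype C] (u : C →* G) (p : P), IsCentral σL p u →
        ∀ x, ∑ c, σ (u c) x = 0) ∧
      ∀ e : MonoidAlgebra F G,
        (∀ g, MonoidAlgebra.of F G g * e = e * MonoidAlgebra.of F G g) → e * e = e →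
        aug F G e = 0 → σ.asAlgebraHom e = 0 := by
  classical
  obtain ⟨M, i1, i2, i3, σ, π, hirr, hsurj, hπ, hker⟩ := exists_simple_quotient
    (permRep F (flagPerm σP σL hinc)) (ZZ F P L) (II F P L)
    (fun g v hv => invariant_ZZ σP σL hinc g v hv) (fun g v hv => invariant_II σP σL hinc g v hv)
    (not_ZZ_le_II h4)
  refine ⟨M, i1, i2, i3, σ, hirr, ?_, ?_, ?_⟩
  · intro C _ _ u l hu x
    obtain ⟨z, rfl⟩ := hsurj x
    have h1 : ∑ c, σ (u c) (π z) = π (∑ c, ⟨permRep F (flagPerm σP σL hinc) (u c) z,
        invariant_ZZ σP σL hinc _ _ z.2⟩) := by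
      rw [map_sum]
      exact Finset.sum_congr rfl fun c _ => (hπ (u c) z).symm
    rw [h1]
    apply hker
    apply mem_II_of_axial σP σL hinc hq u hu (Submodule.coe_mem _)
    intro c
    rw [Submodule.coe_sum, map_sum]
    apply Fintype.sum_equiv (Equiv.mulLeft c)
    intro d
    rw [Equiv.coe_mulLeft]
    simp only [map_mul, Module.End.mul_apply]
  · intro C _ _ u p hu x
    obtain ⟨z, rfl⟩ := hsurj x
    have h1 : ∑ c, σ (u c) (π z) = π (∑ c, ⟨permRep F (flagPerm σP σL hinc) (u c) z,
        invariant_ZZ σP σL hinc _ _ z.2⟩) := by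
      rw [map_sum]
      exact Finset.sum_congr rfl fun c _ => (hπ (u c) z).symm
    rw [h1]
    apply hker
    apply mem_II_of_central σP σL hinc hq u hu (Submodule.coe_mem _)
    intro c
    rw [Submodule.coe_sum, map_sum]
    apply Fintype.sum_equiv (Equiv.mulLeft c)
    intro d
    rw [Equiv.coe_mulLeft]
    simp only [map_mul, Module.End.mul_apply]
  · intro e hc he ha
    have h1 := alg_zero_flag σP σL hinc hq hP hL hc he ha
    apply LinearMap.ext
    intro x
    obtain ⟨z, rfl⟩ := hsurj x
    let τ : Representation F G (ZZ F P L) :=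
      { toFun := fun g => (permRep F (flagPerm σP σL hinc) g).restrict
          (fun v hv => invariant_ZZ σP σL hinc g v hv)
        map_one' := by ext; simp
        map_mul' := fun g h => by ext; simp }
    rw [← intertwine_alg (ρ := τ) (σ := σ) π (fun g v => hπ g v), LinearMap.zero_apply]
    have h2 : τ.asAlgebraHom e z = 0 := by
      apply Subtype.ext
      have h3 := intertwine_alg (ρ := τ) (σ := permRep F (flagPerm σP σL hinc))
        (ZZ F P L).subtype (fun g v => rfl) e z
      rw [h1, LinearMap.zero_apply] at h3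
      exact h3
    rw [h2, map_zero]

end main

end Pool.Agent.TH12.Puig
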