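import Pool.Agent.TH12.Puig.Trace

/-!
# Group theory for the inductive step
-/

set_option autoImplicit false

namespace Pool.Agent.TH12.Puig

variable {G : Type*} [Group G] [Finite G]

/-- A submonoid of a finite group is a subgroup. -/
def mkSub (P : G → Prop) (h1 : P 1) (hm : ∀ a b, P a → P b → P (a * b)) : Subgroup G where
  carrier := {m | P m}
  one_mem' := h1
  mul_mem' := fun {a b} ha hb => hm a b ha hb
  inv_mem' := fun {a} ha => by
    have h2 : ∀ n : ℕ, P (a ^ n) := by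
      intro n
      induction n with
      | zero => simpa using h1
      | succ n ih => rw [pow_succ]; exact hm _ _ ih ha
    have h3 : a ^ (orderOf a - 1) * a = 1 := by
      rw [← pow_succ, Nat.sub_add_cancel (orderOf_pos a), pow_orderOf_eq_one]
    have h4 : a⁻¹ = a ^ (orderOf a - 1) := by
      rw [← mul_one (a ^ (orderOf a - 1)), ← mul_inv_cancel a, ← mul_assoc, h3, one_mul]
    show P a⁻¹
    rw [h4]
    exact h2 _

omit [Finite G] in
lemma conj_pow_mem {S : Subgroup G} {w : G} (hn : ∀ s ∈ S, w * s * w⁻¹ ∈ S) (i : ℕ) :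
    ∀ s ∈ S, w ^ i * s * (w ^ i)⁻¹ ∈ S := by
  induction i with
  | zero => intro s hs; simpa using hs
  | succ i ih =>
    intro s hs
    have h1 : w ^ (i + 1) * s * (w ^ (i + 1))⁻¹ = w * (w ^ i * s * (w ^ i)⁻¹) * w⁻¹ := by
      rw [pow_succ']; group
    rw [h1]
    exact hn _ (ih s hs)

/-- the subgroup `S⟨w⟩`, if `w` normalizes `S` -/
def Rgp (S : Subgroup G) (w : G) (hn : ∀ s ∈ S, w * s * w⁻¹ ∈ S) : Subgroup G :=
  mkSub (fun x => ∃ s ∈ S, ∃ i : ℕ, x = s * w ^ i) ⟨1, S.one_mem, 0, by simp⟩ (by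
    rintro _ _ ⟨s, hs, i, rfl⟩ ⟨s', hs', j, rfl⟩
    refine ⟨s * (w ^ i * s' * (w ^ i)⁻¹), S.mul_mem hs (conj_pow_mem hn i s' hs'), i + j, ?_⟩
    rw [pow_add]; group)

lemma mem_Rgp {S : Subgroup G} {w : G} {hn : ∀ s ∈ S, w * s * w⁻¹ ∈ S} {x : G} :
    x ∈ Rgp S w hn ↔ ∃ s ∈ S, ∃ i : ℕ, x = s * w ^ i := Iff.rfl

lemma le_Rgp {S : Subgroup G} {w : G} {hn : ∀ s ∈ S, w * s * w⁻¹ ∈ S} : S ≤ Rgp S w hn :=
  fun s hs => mem_Rgp.2 ⟨s, hs, 0, by simp⟩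

lemma self_mem_Rgp {S : Subgroup G} {w : G} {hn : ∀ s ∈ S, w * s * w⁻¹ ∈ S} : w ∈ Rgp S w hn :=
  mem_Rgp.2 ⟨1, S.one_mem, 1, by simp⟩

lemma Rgp_le {S : Subgroup G} {w : G} {hn : ∀ s ∈ S, w * s * w⁻¹ ∈ S} {H : Subgroup G}
    (h : S ≤ H) (hw : w ∈ H) : Rgp S w hn ≤ H := by
  intro x hx
  obtain ⟨s, hs, i, rfl⟩ := mem_Rgp.1 hx
  exact H.mul_mem (h hs) (H.pow_mem hw i)

lemma fixed_Rgp {A : Type*} [Ring A] {ρ : G →* A} {S : Subgroup G} {w : G}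
    {hn : ∀ s ∈ S, w * s * w⁻¹ ∈ S} {θ : A} (h : Fixed ρ S θ) (hw : cj ρ w θ = θ) :
    Fixed ρ (Rgp S w hn) θ := by
  intro x hx
  obtain ⟨s, hs, i, rfl⟩ := mem_Rgp.1 hx
  have h1 : ∀ i : ℕ, cj ρ (w ^ i) θ = θ := by
    intro i
    induction i with
    | zero => rw [pow_zero, cj_one]
    | succ i ih => rw [pow_succ, cj_mul, hw, ih]
  rw [cj_mul, h1, h s hs]

omit [Finite G] in
/-- `w` has order three modulo `S` -/
lemma pow_mem_iff {S : Subgroup G} {w : G} (hw : w ∉ S) (hw3 : w ^ 3 = 1) (i : ℕ) :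
    w ^ i ∈ S → w ^ i = 1 := by
  intro h
  have h1 : w ^ i = w ^ (i % 3) := by
    conv_lhs => rw [← Nat.div_add_mod i 3, pow_add, pow_mul, hw3, one_pow, one_mul]
  rw [h1] at h ⊢
  have h2 : i % 3 < 3 := Nat.mod_lt _ (by norm_num)
  interval_cases hi : i % 3
  · simp
  · rw [pow_one] at h
    exact absurd h hw
  · exfalso
    apply hw
    have h3 : w = (w ^ 2) * (w ^ 2) := by
      rw [← pow_add, show 2 + 2 = 3 + 1 from rfl, pow_add, hw3, one_mul, pow_one]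
    rw [h3]
    exact S.mul_mem h h

/-- `{1, w, w²}` is a transversal of `S` in `S⟨w⟩`. -/
lemma transversal_w [DecidableEq G] {S : Subgroup G} {w : G} {hn : ∀ s ∈ S, w * s * w⁻¹ ∈ S}
    (hw : w ∉ S) (hw3 : w ^ 3 = 1) :
    IsTransversal S (Rgp S w hn) {1, w, w ^ 2} := by
  have key : ∀ i : ℕ, ∀ j : ℕ, i < 3 → j < 3 → (w ^ i)⁻¹ * w ^ j ∈ S → i = j := by
    intro i j hi hj h
    have h0 : w⁻¹ = w ^ 2 := by
      rw [inv_eq_iff_mul_eq_one, ← pow_succ']; exact hw3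
    have h1 : (w ^ i)⁻¹ * w ^ j = w ^ (2 * i + j) := by
      rw [← inv_pow, h0, ← pow_mul, ← pow_add]
    rw [h1] at h
    have h2 := pow_mem_iff hw hw3 _ h
    have h3 : ∀ k : ℕ, w ^ k = 1 → k % 3 = 0 := by
      intro k hk
      have h4 : w ^ k = w ^ (k % 3) := by
        conv_lhs => rw [← Nat.div_add_mod k 3, pow_add, pow_mul, hw3, one_pow, one_mul]
      rw [h4] at hk
      have h5 : k % 3 < 3 := Nat.mod_lt _ (by norm_num)
      interval_cases hk' : k % 3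
      · rfl
      · rw [pow_one] at hk
        exact absurd (hk ▸ S.one_mem) hw
      · exfalso
        have h6 : w = w ^ 2 * w ^ 2 := by
          rw [← pow_add, show 2 + 2 = 3 + 1 from rfl, pow_add, hw3, one_mul, pow_one]
        rw [h6, hk, one_mul] at hw
        exact hw S.one_mem
    have h4 := h3 _ h2
    omega
  have hs : ({1, w, w ^ 2} : Finset G) = {w ^ 0, w ^ 1, w ^ 2} := by simp
  rw [hs]
  refine ⟨?_, ?_⟩
  · intro x hx
    simp only [Finset.mem_insert, Finset.mem_singleton] at hx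
    rcases hx with rfl | rfl | rfl <;> exact (Rgp S w hn).pow_mem self_mem_Rgp _
  · intro x hx
    obtain ⟨s, hs, i, rfl⟩ := mem_Rgp.1 hx
    have h0 : ∃ j < 3, w ^ i = w ^ j := by
      refine ⟨i % 3, Nat.mod_lt _ (by norm_num), ?_⟩
      conv_lhs => rw [← Nat.div_add_mod i 3, pow_add, pow_mul, hw3, one_pow, one_mul]
    obtain ⟨j, hj, hij⟩ := h0
    rw [hij]
    have hmem : (w ^ j)⁻¹ * (s * w ^ j) ∈ S := by
      have h2 : (w ^ j)⁻¹ = w ^ (2 * j) := by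
        rw [← inv_pow, pow_mul]
        congr 1
        rw [inv_eq_iff_mul_eq_one, ← pow_succ']; exact hw3
      have h3 := conj_pow_mem hn (2 * j) s hs
      have h4 : (w ^ (2 * j))⁻¹ = w ^ j := by rw [← h2, inv_inv]
      rw [h4] at h3
      rw [h2, ← mul_assoc]
      exact h3
    refine ⟨w ^ j, ?_, hmem, ?_⟩
    · interval_cases j <;> simp
    · intro y hy hy1
      have h5 : ∃ k < 3, y = w ^ k := by
        simp only [Finset.mem_insert, Finset.mem_singleton] at hy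
        rcases hy with rfl | rfl | rfl
        · exact ⟨0, by norm_num, rfl⟩
        · exact ⟨1, by norm_num, rfl⟩
        · exact ⟨2, by norm_num, rfl⟩
      obtain ⟨k, hk, rfl⟩ := h5
      have h6 : (w ^ k)⁻¹ * w ^ j ∈ S := by
        have h7 : (w ^ k)⁻¹ * w ^ j = ((w ^ k)⁻¹ * (s * w ^ j)) * ((w ^ j)⁻¹ * (s * w ^ j))⁻¹ := by
          group
        rw [h7]
        exact S.mul_mem hy1 (S.inv_mem hmem)
      rw [key k j hk hj h6]

/-- `{1, t, t²}` is a transversal of `S₁⟨w⟩` in `S⟨w⟩`, if `S₁ ≤ S` is the kernel of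
`ℓ : S → ℤ/3` and `ℓ t = 1`. -/
lemma transversal_t [DecidableEq G] {S S₁ : Subgroup G} {w : G} {hn : ∀ s ∈ S, w * s * w⁻¹ ∈ S}
    {hn₁ : ∀ s ∈ S₁, w * s * w⁻¹ ∈ S₁}
    (hw : w ∉ S) (hw3 : w ^ 3 = 1) (ℓ : G → ZMod 3)
    (hℓ : ∀ s ∈ S, ∀ t ∈ S, ℓ (s * t) = ℓ s + ℓ t)
    (hS₁ : ∀ s, s ∈ S₁ ↔ s ∈ S ∧ ℓ s = 0) {t : G} (ht : t ∈ S) (ht1 : ℓ t = 1) :
    IsTransversal (Rgp S₁ w hn₁) (Rgp S w hn) {1, t, t ^ 2} := by
  have hpow : ∀ i : ℕ, ℓ (t ^ i) = i := by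
    have h0 : ℓ 1 = 0 := by
      have h1 := hℓ 1 S.one_mem 1 S.one_mem
      rw [mul_one] at h1
      simpa using h1
    intro i
    induction i with
    | zero => simpa using h0
    | succ i ih =>
      rw [pow_succ, hℓ _ (S.pow_mem ht i) _ ht, ih, ht1]
      push_cast
      rfl
  have hS₁S : S₁ ≤ S := fun s hs => ((hS₁ s).1 hs).1
  have hRS : ∀ x, x ∈ Rgp S₁ w hn₁ → x ∈ S → x ∈ S₁ := by
    intro x hx hxS
    obtain ⟨s, hs, i, rfl⟩ := mem_Rgp.1 hx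
    have h1 : w ^ i ∈ S := by
      have h2 := S.mul_mem (S.inv_mem (hS₁S hs)) hxS
      rwa [inv_mul_cancel_left] at h2
    rw [pow_mem_iff hw hw3 i h1, mul_one]
    exact hs
  have hinv : ∀ s ∈ S, ℓ s⁻¹ = -ℓ s := by
    intro s hs
    have h1 := hℓ s hs s⁻¹ (S.inv_mem hs)
    have h0 := hpow 0
    rw [mul_inv_cancel] at h1
    rw [pow_zero, Nat.cast_zero] at h0
    rw [h0] at h1
    exact (neg_eq_of_add_eq_zero_right h1.symm).symm
  have key : ∀ i : ℕ, ∀ j : ℕ, i < 3 → j < 3 → (t ^ i)⁻¹ * t ^ j ∈ Rgp S₁ w hn₁ → i = j := by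
    intro i j hi hj h
    have h1 : (t ^ i)⁻¹ * t ^ j ∈ S := S.mul_mem (S.inv_mem (S.pow_mem ht i)) (S.pow_mem ht j)
    have h2 := ((hS₁ _).1 (hRS _ h h1)).2
    rw [hℓ _ (S.inv_mem (S.pow_mem ht i)) _ (S.pow_mem ht j), hinv _ (S.pow_mem ht i), hpow,
      hpow] at h2
    interval_cases i <;> interval_cases j <;> first | rfl | (exfalso; revert h2; decide)
  have hs : ({1, t, t ^ 2} : Finset G) = {t ^ 0, t ^ 1, t ^ 2} := by simp
  rw [hs]
  refine ⟨?_, ?_⟩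
  · intro x hx
    simp only [Finset.mem_insert, Finset.mem_singleton] at hx
    rcases hx with rfl | rfl | rfl <;> exact (Rgp S w hn).pow_mem (le_Rgp ht) _
  · intro x hx
    obtain ⟨s, hs, i, rfl⟩ := mem_Rgp.1 hx
    have h0 : ∃ j < 3, ℓ s = (j : ℕ) := by
      refine ⟨(ℓ s).val, ZMod.val_lt _, ?_⟩
      rw [ZMod.natCast_zmod_val]
    obtain ⟨j, hj, hij⟩ := h0
    have hmem : (t ^ j)⁻¹ * (s * w ^ i) ∈ Rgp S₁ w hn₁ := by
      rw [← mul_assoc]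
      refine mem_Rgp.2 ⟨(t ^ j)⁻¹ * s, ?_, i, rfl⟩
      rw [hS₁]
      refine ⟨S.mul_mem (S.inv_mem (S.pow_mem ht j)) hs, ?_⟩
      rw [hℓ _ (S.inv_mem (S.pow_mem ht j)) _ hs, hinv _ (S.pow_mem ht j), hpow, hij]
      ring
    refine ⟨t ^ j, ?_, hmem, ?_⟩
    · interval_cases j <;> simp
    · intro y hy hy1
      have h5 : ∃ k < 3, y = t ^ k := by
        simp only [Finset.mem_insert, Finset.mem_singleton] at hy
        rcases hy with rfl | rfl | rfl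
        · exact ⟨0, by norm_num, rfl⟩
        · exact ⟨1, by norm_num, rfl⟩
        · exact ⟨2, by norm_num, rfl⟩
      obtain ⟨k, hk, rfl⟩ := h5
      have h6 : (t ^ k)⁻¹ * t ^ j ∈ Rgp S₁ w hn₁ := by
        have h7 : (t ^ k)⁻¹ * t ^ j =
            ((t ^ k)⁻¹ * (s * w ^ i)) * ((t ^ j)⁻¹ * (s * w ^ i))⁻¹ := by
          group
        rw [h7]
        exact Subgroup.mul_mem _ hy1 (Subgroup.inv_mem _ hmem)
      rw [key k j hk hj h6]

/-- `S₁⟨w⟩` is a proper subgroup of `S⟨w⟩`. -/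
lemma Rgp_ne {S S₁ : Subgroup G} {w : G} {hn : ∀ s ∈ S, w * s * w⁻¹ ∈ S}
    {hn₁ : ∀ s ∈ S₁, w * s * w⁻¹ ∈ S₁}
    (hw : w ∉ S) (hw3 : w ^ 3 = 1) (h : S₁ ≤ S) (hne : S₁ ≠ S) : Rgp S₁ w hn₁ ≠ Rgp S w hn := by
  intro heq
  apply hne
  apply le_antisymm h
  intro s hs
  have h1 : s ∈ Rgp S₁ w hn₁ := by
    rw [heq]; exact le_Rgp hs
  obtain ⟨s', hs', i, rfl⟩ := mem_Rgp.1 h1
  have h2 : w ^ i ∈ S := by
    have h3 := S.mul_mem (S.inv_mem (h hs')) hs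
    rwa [inv_mul_cancel_left] at h3
  rw [pow_mem_iff hw hw3 i h2, mul_one]
  exact hs'

end Pool.Agent.TH12.Puig
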