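import Pool.Agent.TH12.Puig.StepAlg
import Pool.Agent.TH12.Puig.StepGp

/-!
# The inductive step

Let `S⟨w⟩` be a group with `S` abelian, `w³ = 1` and `s · wsw⁻¹ · w²sw⁻² = 1` for `s ∈ S`, acting
on a ring `A` of characteristic three by conjugation, such that `1` is a trace from `1` to `S`.
If `w` acts non-trivially on `Hom(S, ℤ/3)`, then `1` is a sum of traces from proper subgroups of
`S⟨w⟩`.
-/

set_option autoImplicit false

namespace Pool.Agent.TH12.Puig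

open Finset

variable {A : Type*} [Ring A] {G : Type*} [Group G] [Fintype G]

lemma kappa_comm (κ : ZMod 3 →+* A) (x : ZMod 3) (a : A) : κ x * a = a * κ x := by
  have h : κ x = ((x.val : ℕ) : A) := by
    conv_lhs => rw [← ZMod.natCast_zmod_val x]
    rw [map_natCast]
  rw [h]
  exact Nat.cast_commute _ _

omit [Fintype G] in
lemma kappa_cj (κ : ZMod 3 →+* A) (ρ : G →* A) (g : G) (x : ZMod 3) : cj ρ g (κ x) = κ x := by
  have h : κ x = ((x.val : ℕ) : A) := by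
    conv_lhs => rw [← ZMod.natCast_zmod_val x]
    rw [map_natCast]
  rw [h, map_natCast]

omit [Fintype G] in
lemma cj_kap (ρ : G →* A) (g : G) (ω m : A) : cj ρ g (kap ω m) = kap (cj ρ g ω) (cj ρ g m) := by
  simp only [kap, map_sub, map_mul]

omit [Fintype G] in
lemma cj_Lam (ρ : G →* A) (g : G) (b ω m : A) :
    cj ρ g (Lam b ω m) = Lam (cj ρ g b) (cj ρ g ω) (cj ρ g m) := by
  simp only [Lam, map_sub, map_add, map_mul, cj_kap]

lemma exists_b (κ : ZMod 3 →+* A) (ρ : G →* A) (S : Subgroup G) [DecidablePred (· ∈ S)]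
    (ℓ : G → ZMod 3) (hℓ : ∀ s ∈ S, ∀ t ∈ S, ℓ (s * t) = ℓ s + ℓ t)
    (a : A) (ha : ∑ g ∈ univ.filter (· ∈ S), cj ρ g a = 1) :
    ∃ b : A, ∀ g ∈ S, cj ρ g b = b + κ (ℓ g) := by
  refine ⟨-∑ g ∈ univ.filter (· ∈ S), κ (ℓ g) * cj ρ g a, ?_⟩
  intro h hh
  have h0 : ℓ 1 = 0 := by
    have h1 := hℓ 1 S.one_mem 1 S.one_mem
    rw [mul_one] at h1
    simpa using h1
  have h1 : cj ρ h (∑ g ∈ univ.filter (· ∈ S), κ (ℓ g) * cj ρ g a) =
      ∑ g ∈ univ.filter (· ∈ S), κ (ℓ (h⁻¹ * g)) * cj ρ g a := by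
    rw [map_sum]
    apply Finset.sum_equiv (Equiv.mulLeft h)
    · intro g
      simp only [mem_filter, mem_univ, true_and, Equiv.coe_mulLeft]
      exact (S.mul_mem_cancel_left hh).symm
    · intro g _
      rw [map_mul, kappa_cj, Equiv.coe_mulLeft, inv_mul_cancel_left, cj_mul]
  rw [map_neg, h1]
  have h2 : ∀ g ∈ univ.filter (· ∈ S), κ (ℓ (h⁻¹ * g)) * cj ρ g a =
      κ (ℓ g) * cj ρ g a - κ (ℓ h) * cj ρ g a := by
    intro g hg
    simp only [mem_filter, mem_univ, true_and] at hg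
    have h3 : ℓ (h⁻¹ * g) = ℓ g - ℓ h := by
      have h4 := hℓ h hh (h⁻¹ * g) (S.mul_mem (S.inv_mem hh) hg)
      rw [mul_inv_cancel_left] at h4
      rw [h4]; ring
    rw [h3, map_sub, sub_mul]
  rw [Finset.sum_congr rfl h2, Finset.sum_sub_distrib, ← Finset.mul_sum, ha, mul_one]
  abel

/-- **The inductive step.** -/
theorem step [DecidableEq G] (κ : ZMod 3 →+* A) (ρ : G →* A) (S : Subgroup G)
    [DecidablePred (· ∈ S)] (w : G)
    (hn : ∀ s ∈ S, w * s * w⁻¹ ∈ S) (hw : w ∉ S) (hw3 : w ^ 3 = 1)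
    (hN : ∀ s ∈ S, s * (w * s * w⁻¹) * (w * (w * s * w⁻¹) * w⁻¹) = 1)
    (hcomm : ∀ s ∈ S, ∀ t ∈ S, s * t = t * s)
    (ℓ : G → ZMod 3) (hℓ : ∀ s ∈ S, ∀ t ∈ S, ℓ (s * t) = ℓ s + ℓ t)
    (hne : ∃ s ∈ S, ℓ (w * s * w⁻¹) ≠ ℓ s)
    (a : A) (ha : ∑ g ∈ univ.filter (· ∈ S), cj ρ g a = 1) :
    ∃ (R : Fin 3 → Subgroup G) (s : Fin 3 → Finset G) (c : Fin 3 → A),
      (∀ j, R j ≤ Rgp S w hn ∧ R j ≠ Rgp S w hn ∧ IsTransversal (R j) (Rgp S w hn) (s j) ∧
        Fixed ρ (R j) (c j)) ∧ ∑ j, ∑ y ∈ s j, cj ρ y (c j) = 1 := by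
  classical
  have h3 : (3 : A) = 0 := by
    have h1 : κ (3 : ZMod 3) = κ 0 := congrArg κ (by decide)
    rw [map_zero] at h1
    rw [← h1]
    exact (map_ofNat κ 3).symm
  have h3' : (3 : ZMod 3) = 0 := by decide
  -- inverse conjugation
  have hwinv : w⁻¹ = w * w := by
    rw [inv_eq_iff_mul_eq_one, ← hw3, pow_succ, pow_two, mul_assoc]
  have hinvconj : ∀ s, w⁻¹ * s * w = w * (w * s * w⁻¹) * w⁻¹ := by
    intro s
    have : w * (w * s * w⁻¹) * w⁻¹ = (w * w) * s * (w * w)⁻¹ := by group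
    rw [this, ← hwinv, inv_inv]
  have hn' : ∀ s ∈ S, w⁻¹ * s * w ∈ S := fun s hs => by
    rw [hinvconj]; exact hn _ (hn _ hs)
  have h0 : ℓ 1 = 0 := by
    have h1 := hℓ 1 S.one_mem 1 S.one_mem
    rw [mul_one] at h1
    simpa using h1
  have hsum : ∀ s ∈ S, ℓ s + ℓ (w * s * w⁻¹) + ℓ (w⁻¹ * s * w) = 0 := by
    intro s hs
    rw [← hℓ _ hs _ (hn s hs), ← hℓ _ (S.mul_mem hs (hn s hs)) _ (hn' s hs), hinvconj, hN s hs, h0]
  -- the second homomorphism
  let ℓ₁ : G → ZMod 3 := fun g => ℓ (w⁻¹ * g * w) - ℓ g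
  have hℓ₁ : ∀ s ∈ S, ∀ t ∈ S, ℓ₁ (s * t) = ℓ₁ s + ℓ₁ t := by
    intro s hs t ht
    have e1 : w⁻¹ * (s * t) * w = (w⁻¹ * s * w) * (w⁻¹ * t * w) := by group
    simp only [ℓ₁]
    rw [e1, hℓ _ (hn' s hs) _ (hn' t ht), hℓ _ hs _ ht]
    ring
  have hℓ₁w : ∀ s ∈ S, ℓ₁ (w * s * w⁻¹) = ℓ₁ s := by
    intro s hs
    have e1 : w⁻¹ * (w * s * w⁻¹) * w = s := by group
    simp only [ℓ₁]
    rw [e1]
    linear_combination (-1 : ZMod 3) * hsum s hs + ℓ s * h3'
  have hℓ₁w' : ∀ s ∈ S, ℓ₁ (w⁻¹ * s * w) = ℓ₁ s := by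
    intro s hs
    rw [hinvconj, hℓ₁w _ (hn s hs), hℓ₁w s hs]
  have h10 : ℓ₁ 1 = 0 := by
    have h1 := hℓ₁ 1 S.one_mem 1 S.one_mem
    rw [mul_one] at h1
    simpa using h1
  have hℓ₁inv : ∀ s ∈ S, ℓ₁ s⁻¹ = -ℓ₁ s := by
    intro s hs
    have h1 := hℓ₁ s hs s⁻¹ (S.inv_mem hs)
    rw [mul_inv_cancel, h10] at h1
    exact (neg_eq_of_add_eq_zero_right h1.symm).symm
  obtain ⟨t, ht, ht1⟩ : ∃ t ∈ S, ℓ₁ t = 1 := by
    obtain ⟨s, hs, hs1⟩ := hne
    have h1 : ℓ₁ (w * s * w⁻¹) ≠ 0 := by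
      have e1 : w⁻¹ * (w * s * w⁻¹) * w = s := by group
      simp only [ℓ₁]
      rw [e1]
      intro h
      exact hs1 (sub_eq_zero.1 h).symm
    have h2 : ∀ x : ZMod 3, x ≠ 0 → x = 1 ∨ -x = 1 := by decide
    rcases h2 _ h1 with h | h
    · exact ⟨_, hn s hs, h⟩
    · exact ⟨_, S.inv_mem (hn s hs), by rw [hℓ₁inv _ (hn s hs), h]⟩
  have hpow : ∀ i : ℕ, ℓ₁ (t ^ i) = i := by
    intro i
    induction i with
    | zero => simpa using h10
    | succ i ih =>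
      rw [pow_succ, hℓ₁ _ (S.pow_mem ht i) _ ht, ih, ht1]
      push_cast
      rfl
  -- its kernel
  let S₁ : Subgroup G :=
    { carrier := {s | s ∈ S ∧ ℓ₁ s = 0}
      one_mem' := ⟨S.one_mem, h10⟩
      mul_mem' := fun {x y} hx hy => ⟨S.mul_mem hx.1 hy.1, by
        rw [hℓ₁ x hx.1 y hy.1, hx.2, hy.2, add_zero]⟩
      inv_mem' := fun {x} hx => ⟨S.inv_mem hx.1, by
        rw [hℓ₁inv x hx.1, hx.2, neg_zero]⟩ }
  have hS₁ : ∀ s, s ∈ S₁ ↔ s ∈ S ∧ ℓ₁ s = 0 := fun s => Iff.rfl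
  have hS₁S : S₁ ≤ S := fun s hs => hs.1
  -- the elements `w_j`
  let W : ℕ → G := fun j => w * t ^ j
  have hWconj : ∀ j, ∀ s ∈ S, W j * s * (W j)⁻¹ = w * s * w⁻¹ := by
    intro j s hs
    have e1 : W j * s * (W j)⁻¹ = w * (t ^ j * s * (t ^ j)⁻¹) * w⁻¹ := by
      simp only [W]; group
    rw [e1, hcomm _ (S.pow_mem ht j) _ hs, mul_inv_cancel_right]
  have hWS : ∀ j, ∀ s ∈ S, W j * s * (W j)⁻¹ ∈ S := fun j s hs => by
    rw [hWconj j s hs]; exact hn s hs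
  have hWS₁ : ∀ j, ∀ s ∈ S₁, W j * s * (W j)⁻¹ ∈ S₁ := fun j s hs => by
    rw [hWconj j s hs.1]
    exact ⟨hn s hs.1, by rw [hℓ₁w s hs.1, hs.2]⟩
  have hWn : ∀ j, W j ∉ S := by
    intro j h
    apply hw
    have h1 := S.mul_mem h (S.inv_mem (S.pow_mem ht j))
    simp only [W] at h1
    rwa [mul_inv_cancel_right] at h1
  have hW3 : ∀ j, W j ^ 3 = 1 := by
    intro j
    have hs := S.pow_mem ht j
    have e1 : W j ^ 3 = (w * t ^ j * w⁻¹) * (w * (w * t ^ j * w⁻¹) * w⁻¹) *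
        (w ^ 3 * t ^ j) := by
      simp only [W, pow_succ w, pow_succ (w * t ^ j), pow_zero, one_mul, mul_assoc,
        inv_mul_cancel_left]
    rw [e1, hw3, one_mul]
    have e2 := hN _ hs
    have e3 : w * t ^ j * w⁻¹ * (w * (w * t ^ j * w⁻¹) * w⁻¹) * t ^ j =
        t ^ j * (w * t ^ j * w⁻¹ * (w * (w * t ^ j * w⁻¹) * w⁻¹)) :=
      hcomm _ (S.mul_mem (hn _ hs) (hn _ (hn _ hs))) _ hs
    rw [e3, ← mul_assoc]
    exact e2
  have hWQ : ∀ j, Rgp S (W j) (hWS j) = Rgp S w hn := by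
    intro j
    apply le_antisymm
    · exact Rgp_le le_Rgp (Subgroup.mul_mem _ self_mem_Rgp (le_Rgp (S.pow_mem ht j)))
    · apply Rgp_le le_Rgp
      have h1 : w = W j * (t ^ j)⁻¹ := by simp only [W]; group
      rw [h1]
      exact Subgroup.mul_mem _ self_mem_Rgp (le_Rgp (S.inv_mem (S.pow_mem ht j)))
  have htrans : ∀ j, IsTransversal (Rgp S₁ (W j) (hWS₁ j)) (Rgp S w hn) {1, t, t ^ 2} := by
    intro j
    rw [← hWQ j]
    exact transversal_t (hWn j) (hW3 j) ℓ₁ hℓ₁ hS₁ ht ht1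
  have hneS : S₁ ≠ S := by
    intro h
    have h1 : t ∈ S₁ := by rw [h]; exact ht
    have h2 := h1.2
    rw [ht1] at h2
    exact absurd h2 (by decide)
  have hsum3 : ∀ f : G → A, ∑ y ∈ ({1, t, t ^ 2} : Finset G), f y = f 1 + f t + f (t ^ 2) := by
    intro f
    have d1 : (1 : G) ≠ t := by
      intro h
      rw [← h, h10] at ht1
      exact absurd ht1 (by decide)
    have d2 : (1 : G) ≠ t ^ 2 := by
      intro h
      have := hpow 2
      rw [← h, h10] at this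
      exact absurd this (by decide)
    have d3 : t ≠ t ^ 2 := by
      intro h
      have := hpow 2
      rw [← h, ht1] at this
      exact absurd this (by decide)
    rw [Finset.sum_insert, Finset.sum_insert, Finset.sum_singleton, add_assoc]
    · simpa using d3
    · simp only [Finset.mem_insert, Finset.mem_singleton, not_or]
      exact ⟨d1, d2⟩
  have hsum3w : ∀ f : G → A, ∑ y ∈ ({1, w, w ^ 2} : Finset G), f y = f 1 + f w + f (w ^ 2) := by
    intro f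
    have hne1 : w ≠ 1 := fun h => hw (h ▸ S.one_mem)
    have d2 : (1 : G) ≠ w ^ 2 := by
      intro h
      apply hne1
      rw [pow_succ, ← h, one_mul] at hw3
      exact hw3
    have d3 : w ≠ w ^ 2 := by
      intro h
      apply hne1
      rw [pow_two] at h
      exact (left_eq_mul.1 h)
    rw [Finset.sum_insert, Finset.sum_insert, Finset.sum_singleton, add_assoc]
    · simpa using d3
    · simp only [Finset.mem_insert, Finset.mem_singleton, not_or]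
      exact ⟨hne1.symm, d2⟩
  -- the elements of `A`
  obtain ⟨b, hb⟩ := exists_b κ ρ S ℓ hℓ a ha
  obtain ⟨ω, hω⟩ : ∃ ω, ω = cj ρ w b - b := ⟨_, rfl⟩
  have hwb : cj ρ w b = b + ω := by rw [hω]; abel
  obtain ⟨m, hm⟩ : ∃ m, m = ω - cj ρ w ω := ⟨_, rfl⟩
  have hwω : cj ρ w ω = ω - m := by rw [hm]; abel
  have hgω : ∀ g ∈ S, cj ρ g ω = ω + κ (ℓ₁ g) := by
    intro g hg
    have e1 : g * w = w * (w⁻¹ * g * w) := by group
    rw [hω, map_sub, ← cj_mul, e1, cj_mul, hb _ (hn' g hg), hb g hg, map_add, kappa_cj]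
    simp only [ℓ₁, map_sub]
    abel
  have hgm : ∀ g ∈ S, cj ρ g m = m := by
    intro g hg
    have e1 : g * w = w * (w⁻¹ * g * w) := by group
    rw [hm, map_sub, ← cj_mul, e1, cj_mul, hgω _ (hn' g hg), hgω g hg, map_add, kappa_cj,
      hℓ₁w' g hg]
    abel
  have hwm : cj ρ w m = m := by
    have e1 : cj ρ (w ^ 3) b = b := by rw [hw3, cj_one]
    rw [pow_succ, pow_two, cj_mul, cj_mul, hwb, map_add, hwb, hwω, map_add, map_add, hwb, hwω,
      map_sub, hwω] at e1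
    have e2 : b + ω + (ω - m) + (ω - m - cj ρ w m) - b = 0 := by rw [e1, sub_self]
    have e3 : cj ρ w m - m = 3 * (ω - m) := by
      have e4 : b + ω + (ω - m) + (ω - m - cj ρ w m) - b = 3 * ω - 2 * m - cj ρ w m := by
        noncomm_ring
      rw [e4] at e2
      rw [sub_eq_iff_eq_add]
      have e5 : cj ρ w m = 3 * ω - 2 * m := (sub_eq_zero.1 e2).symm
      rw [e5]
      noncomm_ring
    rw [h3, zero_mul, sub_eq_zero] at e3
    exact e3
  obtain ⟨h, hh⟩ : ∃ h, h = ω * m - m * ω := ⟨_, rfl⟩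
  obtain ⟨f, hf⟩ : ∃ f, f = b * m - m * b := ⟨_, rfl⟩
  have hQh : Fixed ρ (Rgp S w hn) h := by
    apply fixed_Rgp
    · intro g hg
      rw [hh, map_sub, map_mul, map_mul, hgω g hg, hgm g hg, add_mul, mul_add, kappa_comm]
      abel
    · rw [hh, map_sub, map_mul, map_mul, hwω, hwm]
      noncomm_ring
  have hgf : ∀ g ∈ S, cj ρ g f = f := by
    intro g hg
    rw [hf, map_sub, map_mul, map_mul, hb g hg, hgm g hg, add_mul, mul_add, kappa_comm]
    abel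
  have hwf : cj ρ w f = f + h := by
    rw [hf, hh, map_sub, map_mul, map_mul, hwb, hwm]
    noncomm_ring
  have hwh : cj ρ w h = h := hQh w self_mem_Rgp
  -- `h²` is a trace
  have hhh : ∃ c' : A, Fixed ρ (Rgp S₁ (W 0) (hWS₁ 0)) c' ∧
      ∑ y ∈ ({1, t, t ^ 2} : Finset G), cj ρ y c' = h * h := by
    refine ⟨-∑ r ∈ univ.filter (· ∈ Rgp S₁ (W 0) (hWS₁ 0)), cj ρ r (f * f * a), ?_, ?_⟩
    · apply Fixed.neg
      intro x hx
      rw [map_sum]
      apply Finset.sum_equiv (Equiv.mulLeft x)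
      · intro g
        simp only [mem_filter, mem_univ, true_and, Equiv.coe_mulLeft]
        exact (Subgroup.mul_mem_cancel_left _ hx).symm
      · intro g _
        rw [Equiv.coe_mulLeft, cj_mul]
    · simp only [map_neg, Finset.sum_neg_distrib, map_sum, ← cj_mul]
      rw [← (htrans 0).sum (by
        rw [← hWQ 0]
        exact Rgp_le (hS₁S.trans le_Rgp) self_mem_Rgp) (fun x => cj ρ x (f * f * a)),
        (transversal_w hw hw3).sum le_Rgp (fun x => cj ρ x (f * f * a))]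
      have e1 : ∀ y : G, ∑ r ∈ univ.filter (· ∈ S), cj ρ (y * r) (f * f * a) =
          cj ρ y (f * f) := by
        intro y
        have e2 : ∑ r ∈ univ.filter (· ∈ S), cj ρ r (f * f * a) = f * f := by
          have e3 : ∀ r ∈ univ.filter (· ∈ S), cj ρ r (f * f * a) = f * f * cj ρ r a := by
            intro r hr
            simp only [mem_filter, mem_univ, true_and] at hr
            rw [map_mul, map_mul, hgf r hr]
          rw [Finset.sum_congr rfl e3, ← Finset.mul_sum, ha, mul_one]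
        simp only [cj_mul]
        rw [← map_sum, e2]
      simp only [e1]
      rw [hsum3w, cj_one, pow_two, cj_mul, map_mul, hwf, map_mul, map_add, hwf, hwh,
        sum_sq' h3, neg_neg]
  obtain ⟨c', hc', hc'1⟩ := hhh
  -- the elements `L_j`
  have hj : ∀ j : ℕ, ∃ c : A, Fixed ρ (Rgp S₁ (W j) (hWS₁ j)) c ∧
      ∑ y ∈ ({1, t, t ^ 2} : Finset G), cj ρ y c =
        (1 + h) * ((1 - ((m - κ j) * (m - κ j) - h)) * (1 - ((m - κ j) * (m - κ j) - h))) := by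
    intro j
    have htj := S.pow_mem ht j
    have hRQ : Rgp S₁ (W j) (hWS₁ j) ≤ Rgp S w hn := by
      rw [← hWQ j]
      exact Rgp_le (hS₁S.trans le_Rgp) self_mem_Rgp
    have hWb : cj ρ (W j) b = b + (ω + κ (ℓ (t ^ j))) := by
      simp only [W]
      rw [cj_mul, hb _ htj, map_add, hwb, kappa_cj]
      abel
    have hWω : cj ρ (W j) (ω + κ (ℓ (t ^ j))) = (ω + κ (ℓ (t ^ j))) - (m - κ j) := by
      simp only [W]
      rw [map_add, kappa_cj, cj_mul, hgω _ htj, map_add, hwω, kappa_cj, hpow j]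
      abel
    have hWm : cj ρ (W j) (m - κ j) = m - κ j := by
      simp only [W]
      rw [map_sub, kappa_cj, cj_mul, hgm _ htj, hwm]
    have hgω' : ∀ g ∈ S, cj ρ g (ω + κ (ℓ (t ^ j))) = (ω + κ (ℓ (t ^ j))) + κ (ℓ₁ g) := by
      intro g hg
      rw [map_add, hgω g hg, kappa_cj]
      abel
    have hgm' : ∀ g ∈ S, cj ρ g (m - κ j) = m - κ j := by
      intro g hg
      rw [map_sub, kappa_cj, hgm g hg]
    have hkap : kap (ω + κ (ℓ (t ^ j))) (m - κ j) = (m - κ j) * (m - κ j) - h := by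
      have e1 : ω * (m - κ j) - (m - κ j) * ω = ω * m - m * ω := by
        rw [mul_sub, sub_mul, kappa_comm κ (j : ZMod 3) ω]
        abel
      rw [kap_add (kappa_comm κ _), kap, hh, e1]
    obtain ⟨L, hL⟩ : ∃ L, L = Lam b (ω + κ (ℓ (t ^ j))) (m - κ j) := ⟨_, rfl⟩
    have hLS : ∀ g ∈ S₁, cj ρ g L = L := by
      intro g hg
      rw [hL, cj_Lam, hb g hg.1, hgω' g hg.1, hgm' g hg.1, Lam_add (kappa_comm κ _), hg.2, map_zero,
        add_zero]
    have hLW : cj ρ (W j) L = L := by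
      rw [hL, cj_Lam, hWb, hWω, hWm, Lam_w h3]
    have hLfix : Fixed ρ (Rgp S₁ (W j) (hWS₁ j)) L := fixed_Rgp hLS hLW
    have hLt : cj ρ t L = L - (1 - ((m - κ j) * (m - κ j) - h)) := by
      rw [hL, cj_Lam, hb t ht, hgω' t ht, hgm' t ht, Lam_add (kappa_comm κ _), ht1, map_one,
        Lam_t h3, hkap]
    have hht : cj ρ t h = h := hQh t (le_Rgp ht)
    have hδt : cj ρ t (1 - ((m - κ j) * (m - κ j) - h)) = 1 - ((m - κ j) * (m - κ j) - h) := by
      rw [map_sub, map_one, map_sub, map_mul, hgm' t ht, hht]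
    refine ⟨-((1 + h) * (L * L)), ?_, ?_⟩
    · apply Fixed.neg
      exact ((fixed_one _).add (hQh.mono hRQ)).mul (hLfix.mul hLfix)
    · rw [hsum3, cj_one, pow_two, cj_mul, map_neg, map_mul, map_add, map_one, hht, map_mul, hLt,
        map_neg, map_mul, map_add, map_one, hht, map_mul, map_sub, hLt, hδt,
        ← sum_sq h3 L (1 - ((m - κ j) * (m - κ j) - h))]
      noncomm_ring
  obtain ⟨c₀, hc₀, hc₀1⟩ := hj 0
  obtain ⟨c₁, hc₁, hc₁1⟩ := hj 1
  obtain ⟨c₂, hc₂, hc₂1⟩ := hj 2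
  refine ⟨fun j => Rgp S₁ (W j) (hWS₁ j), fun _ => {1, t, t ^ 2}, ![c₀ + c', c₁, c₂], ?_, ?_⟩
  · intro j
    refine ⟨?_, ?_, htrans j, ?_⟩
    · rw [← hWQ j]
      exact Rgp_le (hS₁S.trans le_Rgp) self_mem_Rgp
    · rw [← hWQ j]
      exact Rgp_ne (hWn j) (hW3 j) hS₁S hneS
    · fin_cases j
      · exact hc₀.add hc'
      · exact hc₁
      · exact hc₂
  · rw [Fin.sum_univ_three]
    simp only [Matrix.cons_val_zero, Matrix.cons_val_one, Matrix.cons_val_two, Matrix.head_cons,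
      Matrix.tail_cons, map_add, Finset.sum_add_distrib]
    rw [hc'1, hc₀1, hc₁1, hc₂1]
    have e0 : κ ((0 : ℕ) : ZMod 3) = 0 := by rw [Nat.cast_zero, map_zero]
    have e1 : κ ((1 : ℕ) : ZMod 3) = 1 := by rw [Nat.cast_one, map_one]
    have e2 : κ ((2 : ℕ) : ZMod 3) = 1 + 1 := by
      rw [show ((2 : ℕ) : ZMod 3) = 1 + 1 by decide, map_add, map_one]
    rw [e0, e1, e2, sub_zero]
    have e3 := sum_delta h3 m h
    have e4 : m - (1 + 1) = m - 1 - 1 := by abel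
    rw [e4]
    have e5 : (1 + h) * (1 - h) + h * h = 1 := by noncomm_ring
    rw [← e3] at e5
    refine Eq.trans ?_ e5
    rw [mul_add, mul_add]
    abel

end Pool.Agent.TH12.Puig
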