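import Pool.Agent.TH12.Puig.Trace

/-!
# Noncommutative identities in characteristic three
-/

set_option autoImplicit false

namespace Pool.Agent.TH12.Puig

variable {A : Type*} [Ring A]

/-- auxiliary element -/
def kap (ω m : A) : A := m * m - (ω * m - m * ω)

/-- auxiliary element -/
def Lam (b ω m : A) : A := b * kap ω m - kap ω m * b + kap ω m - ω * (ω - m) * (ω + m)

lemma kap_add {ω m x : A} (hx : ∀ a : A, x * a = a * x) : kap (ω + x) m = kap ω m := by
  unfold kap
  rw [add_mul, mul_add, hx m]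
  abel

lemma Lam_add {b ω m x : A} (hx : ∀ a : A, x * a = a * x) : Lam (b + x) ω m = Lam b ω m := by
  unfold Lam
  rw [add_mul, mul_add, hx]
  abel

lemma kap_sub (ω m : A) : kap (ω - m) m = kap ω m := by
  unfold kap
  noncomm_ring

lemma Lam_w (h3 : (3 : A) = 0) (b ω m : A) : Lam (b + ω) (ω - m) m = Lam b ω m := by
  have h : Lam (b + ω) (ω - m) m - Lam b ω m = 3 * (ω * m * ω - m * m * ω) := by
    unfold Lam
    rw [kap_sub]
    unfold kap
    noncomm_ring
  rw [h3, zero_mul, sub_eq_zero] at h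
  exact h

lemma Lam_t (h3 : (3 : A) = 0) (b ω m : A) : Lam b (ω + 1) m = Lam b ω m - (1 - kap ω m) := by
  have h : Lam b (ω + 1) m - (Lam b ω m - (1 - kap ω m)) = 3 * (-(ω * ω) - ω) := by
    unfold Lam
    rw [kap_add (x := 1) (fun a => by rw [one_mul, mul_one])]
    unfold kap
    noncomm_ring
  rw [h3, zero_mul, sub_eq_zero] at h
  exact h

lemma sum_sq (h3 : (3 : A) = 0) (L δ : A) :
    -(L * L) + -((L - δ) * (L - δ)) + -((L - δ - δ) * (L - δ - δ)) = δ * δ := by
  have h : -(L * L) + -((L - δ) * (L - δ)) + -((L - δ - δ) * (L - δ - δ)) - δ * δ =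
      3 * (-(L * L) + L * δ + δ * L - 2 * (δ * δ)) := by
    noncomm_ring
  rw [h3, zero_mul, sub_eq_zero] at h
  exact h

lemma sum_sq' (h3 : (3 : A) = 0) (f h : A) :
    f * f + (f + h) * (f + h) + (f + h + h) * (f + h + h) = -(h * h) := by
  have h' : f * f + (f + h) * (f + h) + (f + h + h) * (f + h + h) - -(h * h) =
      3 * (f * f + f * h + h * f + 2 * (h * h)) := by
    noncomm_ring
  rw [h3, zero_mul, sub_eq_zero] at h'
  exact h'

/-- `Σ_j (1 - κ_j)² = 1 - h` -/
lemma sum_delta (h3 : (3 : A) = 0) (m h : A) :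
    (1 - (m * m - h)) * (1 - (m * m - h)) +
    (1 - ((m - 1) * (m - 1) - h)) * (1 - ((m - 1) * (m - 1) - h)) +
    (1 - ((m - 1 - 1) * (m - 1 - 1) - h)) * (1 - ((m - 1 - 1) * (m - 1 - 1) - h)) = 1 - h := by
  have h' : (1 - (m * m - h)) * (1 - (m * m - h)) +
    (1 - ((m - 1) * (m - 1) - h)) * (1 - ((m - 1) * (m - 1) - h)) +
    (1 - ((m - 1 - 1) * (m - 1 - 1) - h)) * (1 - ((m - 1 - 1) * (m - 1 - 1) - h)) - (1 - h) =
    3 * (m * m * m * m - m * m * h - h * m * m + h * h - h - 4 * (m * m * m) + 2 * (m * h)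
      + 2 * (h * m) + 8 * (m * m) - 8 * m + (1 + 1 + 1)) := by
    noncomm_ring
  rw [h3, zero_mul, sub_eq_zero] at h'
  exact h'

end Pool.Agent.TH12.Puig
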