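import Mathlib

/-!
# Relative traces

`ρ : G →* A` is a homomorphism from a finite group to (the units of) a ring; `G` acts on `A` by
conjugation.
-/

set_option autoImplicit false

namespace Pool.Agent.TH12.Puig

open Finset

variable {A : Type*} [Ring A] {G : Type*} [Group G]

/-- conjugation by `ρ g` -/
def cj (ρ : G →* A) (g : G) : A →+* A where
  toFun θ := ρ g * θ * ρ g⁻¹
  map_one' := by rw [mul_one, ← map_mul, mul_inv_cancel, map_one]
  map_mul' x y := by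
    have h : ρ g⁻¹ * ρ g = 1 := by rw [← map_mul, inv_mul_cancel, map_one]
    calc ρ g * (x * y) * ρ g⁻¹ = ρ g * x * 1 * y * ρ g⁻¹ := by simp only [mul_one, mul_assoc]
      _ = ρ g * x * (ρ g⁻¹ * ρ g) * y * ρ g⁻¹ := by rw [h]
      _ = ρ g * x * ρ g⁻¹ * (ρ g * y * ρ g⁻¹) := by simp only [mul_assoc]
  map_zero' := by simp
  map_add' x y := by rw [mul_add, add_mul]

variable (ρ : G →* A)

lemma cj_apply (g : G) (θ : A) : cj ρ g θ = ρ g * θ * ρ g⁻¹ := rfl

lemma cj_mul (g h : G) (θ : A) : cj ρ (g * h) θ = cj ρ g (cj ρ h θ) := by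
  rw [cj_apply, cj_apply, cj_apply, mul_inv_rev, map_mul, map_mul]
  simp only [mul_assoc]

lemma cj_one (θ : A) : cj ρ 1 θ = θ := by
  rw [cj_apply, inv_one, map_one, one_mul, mul_one]

/-- `θ` is fixed by `H`. -/
def Fixed (H : Subgroup G) (θ : A) : Prop := ∀ h ∈ H, cj ρ h θ = θ

variable {ρ}

lemma Fixed.mono {H K : Subgroup G} (hKH : K ≤ H) {θ : A} (h : Fixed ρ H θ) : Fixed ρ K θ :=
  fun k hk => h k (hKH hk)

lemma Fixed.mul {H : Subgroup G} {θ η : A} (h : Fixed ρ H θ) (h' : Fixed ρ H η) :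
    Fixed ρ H (θ * η) := fun k hk => by rw [map_mul, h k hk, h' k hk]

lemma Fixed.add {H : Subgroup G} {θ η : A} (h : Fixed ρ H θ) (h' : Fixed ρ H η) :
    Fixed ρ H (θ + η) := fun k hk => by rw [map_add, h k hk, h' k hk]

lemma Fixed.sub {H : Subgroup G} {θ η : A} (h : Fixed ρ H θ) (h' : Fixed ρ H η) :
    Fixed ρ H (θ - η) := fun k hk => by rw [map_sub, h k hk, h' k hk]

lemma Fixed.neg {H : Subgroup G} {θ : A} (h : Fixed ρ H θ) :
    Fixed ρ H (-θ) := fun k hk => by rw [map_neg, h k hk]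

lemma fixed_one (H : Subgroup G) : Fixed ρ H (1 : A) := fun _ _ => map_one _

/-- right invariant functions on `G`: sums over `G/K` -/
lemma sum_out_eq {K : Subgroup G} [Fintype (G ⧸ K)] {B : Type*} [AddCommMonoid B] (Φ : G → B)
    (hΦ : ∀ x, ∀ k ∈ K, Φ (x * k) = Φ x) (g : G) :
    ∑ q : G ⧸ K, Φ (g * q.out) = ∑ q : G ⧸ K, Φ q.out := by
  have h1 : ∀ x y : G, (x : G ⧸ K) = (y : G ⧸ K) → Φ x = Φ y := by
    intro x y h
    have h2 := QuotientGroup.eq.1 h
    rw [← hΦ x _ h2, mul_inv_cancel_left]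
  let Ψ : G ⧸ K → B := fun q => Φ q.out
  have h2 : ∀ q : G ⧸ K, Φ (g * q.out) = Ψ (g • q) := by
    intro q
    apply h1
    rw [QuotientGroup.out_eq']
    conv_rhs => rw [← QuotientGroup.out_eq' q]
    rfl
  rw [Finset.sum_congr rfl fun q _ => h2 q]
  exact Equiv.sum_comp (MulAction.toPerm g) Ψ

/-- the relative trace from `K` to `G` -/
noncomputable def tr (ρ : G →* A) (K : Subgroup G) [Fintype (G ⧸ K)] (θ : A) : A :=
  ∑ q : G ⧸ K, cj ρ q.out θ

lemma Fixed.cj_eq {K : Subgroup G} {θ : A} (h : Fixed ρ K θ) {x y : G}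
    (hxy : (x : G ⧸ K) = (y : G ⧸ K)) : cj ρ x θ = cj ρ y θ := by
  have h2 := QuotientGroup.eq.1 hxy
  have h3 := h _ h2
  have h4 : y = x * (x⁻¹ * y) := by group
  rw [h4, cj_mul, h3]

lemma fixed_tr {K : Subgroup G} [Fintype (G ⧸ K)] {θ : A} (h : Fixed ρ K θ) (H : Subgroup G) :
    Fixed ρ H (tr ρ K θ) := by
  intro g _
  rw [tr, map_sum]
  have h1 := sum_out_eq (K := K) (fun x => cj ρ x θ) (fun x k hk => by
    rw [cj_mul, h k hk]) g
  simp only [cj_mul] at h1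
  exact h1

lemma tr_add {K : Subgroup G} [Fintype (G ⧸ K)] (θ η : A) :
    tr ρ K (θ + η) = tr ρ K θ + tr ρ K η := by
  simp only [tr, map_add, Finset.sum_add_distrib]

lemma tr_sum {K : Subgroup G} [Fintype (G ⧸ K)] {ι : Type*} (s : Finset ι) (θ : ι → A) :
    tr ρ K (∑ i ∈ s, θ i) = ∑ i ∈ s, tr ρ K (θ i) := by
  simp only [tr, map_sum]
  exact Finset.sum_comm

/-- `s` is a left transversal of `K` in `H`. -/
def IsTransversal (K H : Subgroup G) (s : Finset G) : Prop :=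
  (∀ x ∈ s, x ∈ H) ∧ ∀ h ∈ H, ∃ x ∈ s, x⁻¹ * h ∈ K ∧ ∀ y ∈ s, y⁻¹ * h ∈ K → y = x

/-- Sums over `H` in terms of a transversal. -/
lemma IsTransversal.sum [Fintype G] {K H : Subgroup G} (hKH : K ≤ H) {s : Finset G}
    (hs : IsTransversal K H s) {B : Type*} [AddCommMonoid B] (Φ : G → B) [DecidablePred (· ∈ H)]
    [DecidablePred (· ∈ K)] :
    ∑ x ∈ univ.filter (· ∈ H), Φ x = ∑ y ∈ s, ∑ r ∈ univ.filter (· ∈ K), Φ (y * r) := by
  rw [← Finset.sum_product']
  symm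
  apply Finset.sum_bij (fun p _ => p.1 * p.2)
  · rintro ⟨y, r⟩ h
    simp only [mem_product, mem_filter, mem_univ, true_and] at h ⊢
    exact H.mul_mem (hs.1 _ h.1) (hKH h.2)
  · rintro ⟨y, r⟩ h ⟨y', r'⟩ h' heq
    simp only [mem_product, mem_filter, mem_univ, true_and] at h h' heq
    obtain ⟨x, hx, hx1, hx2⟩ := hs.2 (y * r) (H.mul_mem (hs.1 _ h.1) (hKH h.2))
    have e1 : y = x := hx2 y h.1 (by rw [inv_mul_cancel_left]; exact h.2)
    have e2 : y' = x := hx2 y' h'.1 (by rw [heq, inv_mul_cancel_left]; exact h'.2)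
    have e3 : y = y' := e1.trans e2.symm
    rw [e3] at heq
    have e4 := mul_left_cancel heq
    rw [e3, e4]
  · intro x hx
    simp only [mem_filter, mem_univ, true_and] at hx
    obtain ⟨y, hy, hy1, -⟩ := hs.2 x hx
    refine ⟨(y, y⁻¹ * x), ?_, ?_⟩
    · simp only [mem_product, mem_filter, mem_univ, true_and]
      exact ⟨hy, hy1⟩
    · simp
  · intro _ _
    rfl

/-- Transitivity of the trace. -/
lemma tr_trans {K H : Subgroup G} [Fintype (G ⧸ K)] [Fintype (G ⧸ H)] (hKH : K ≤ H)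
    {s : Finset G} (hs : IsTransversal K H s) {c : A} (hc : Fixed ρ K c) :
    tr ρ H (∑ y ∈ s, cj ρ y c) = tr ρ K c := by
  rw [tr, tr]
  simp only [map_sum]
  rw [← Finset.sum_product']
  apply Finset.sum_bij (fun p _ => ((p.1.out * p.2 : G) : G ⧸ K))
  · intro _ _
    exact mem_univ _
  · rintro ⟨q, y⟩ h ⟨q', y'⟩ h' heq
    simp only [mem_product, mem_univ, true_and] at h h' heq
    have h1 := QuotientGroup.eq.1 heq
    have h2 : (q.out * y)⁻¹ * (q'.out * y') ∈ H := hKH h1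
    have h3 : q = q' := by
      rw [← QuotientGroup.out_eq' q, ← QuotientGroup.out_eq' q']
      apply QuotientGroup.eq.2
      have h4 : q.out⁻¹ * q'.out = y * ((q.out * y)⁻¹ * (q'.out * y')) * y'⁻¹ := by group
      rw [h4]
      exact H.mul_mem (H.mul_mem (hs.1 _ h) h2) (H.inv_mem (hs.1 _ h'))
    subst h3
    have h5 : y⁻¹ * y' ∈ K := by
      have h6 : y⁻¹ * y' = (q.out * y)⁻¹ * (q.out * y') := by group
      rw [h6]; exact h1
    obtain ⟨x, hx, hx1, hx2⟩ := hs.2 y' (hs.1 _ h')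
    have e1 : y = x := hx2 y h h5
    have e2 : y' = x := hx2 y' h' (by rw [inv_mul_cancel]; exact K.one_mem)
    rw [e1, e2]
  · intro r _
    have h1 : ((r.out : G ⧸ H)).out⁻¹ * r.out ∈ H := by
      apply QuotientGroup.eq.1
      rw [QuotientGroup.out_eq']
    obtain ⟨y, hy, hy1, -⟩ := hs.2 _ h1
    refine ⟨((r.out : G ⧸ H), y), ?_, ?_⟩
    · simp only [mem_product, mem_univ, true_and]
      exact hy
    · simp only
      conv_rhs => rw [← QuotientGroup.out_eq' r]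
      apply QuotientGroup.eq.2
      have h2 : ((r.out : G ⧸ H).out * y)⁻¹ * r.out = y⁻¹ * ((r.out : G ⧸ H).out⁻¹ * r.out) := by
        group
      rw [h2]; exact hy1
  · rintro ⟨q, y⟩ _
    rw [← cj_mul]
    apply hc.cj_eq
    rw [QuotientGroup.out_eq']

end Pool.Agent.TH12.Puig
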