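import Pool.Agent.TH12.Puig.Step
import Pool.Agent.TH12.Puig.Higman

/-!
# Vertices of simple modules
-/

set_option autoImplicit false

namespace Pool.Agent.TH12.Puig

open Finset Module

universe u

variable {F : Type u} [Field F] {G : Type} [Group G] {M : Type u} [AddCommGroup M] [Module F M]

/-- existence of transversals -/
lemma exists_transversal [Finite G] (K H : Subgroup G) (hKH : K ≤ H) :
    ∃ s : Finset G, IsTransversal K H s ∧ s.card * Nat.card K = Nat.card H := by
  classical
  cases nonempty_fintype G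
  let s : Finset G := (univ : Finset (H ⧸ K.subgroupOf H)).image (fun q => (q.out : G))
  have hinj : Function.Injective (fun q : H ⧸ K.subgroupOf H => (q.out : G)) := by
    intro q q' h
    rw [← QuotientGroup.out_eq' q, ← QuotientGroup.out_eq' q']
    exact congrArg _ (Subtype.ext h)
  refine ⟨s, ⟨?_, ?_⟩, ?_⟩
  · intro x hx
    simp only [s, mem_image, mem_univ, true_and] at hx
    obtain ⟨q, rfl⟩ := hx
    exact q.out.2
  · intro h hh
    have h1 : ((((⟨h, hh⟩ : H) : H ⧸ K.subgroupOf H).out : H) : H ⧸ K.subgroupOf H) =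
        ((⟨h, hh⟩ : H) : H ⧸ K.subgroupOf H) := QuotientGroup.out_eq' _
    refine ⟨(((⟨h, hh⟩ : H) : H ⧸ K.subgroupOf H).out : G), ?_, ?_, ?_⟩
    · simp only [s, mem_image, mem_univ, true_and]
      exact ⟨_, rfl⟩
    · have h2 := QuotientGroup.eq.1 h1
      rw [Subgroup.mem_subgroupOf] at h2
      exact h2
    · intro y hy hy1
      simp only [s, mem_image, mem_univ, true_and] at hy
      obtain ⟨q, rfl⟩ := hy
      have h3 : ((q.out : H) : H ⧸ K.subgroupOf H) = ((⟨h, hh⟩ : H) : H ⧸ K.subgroupOf H) := by
        apply QuotientGroup.eq.2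
        rw [Subgroup.mem_subgroupOf]
        exact hy1
      rw [QuotientGroup.out_eq'] at h3
      rw [h3]
  · rw [Finset.card_image_of_injective _ hinj, card_univ, ← Nat.card_eq_fintype_card]
    have h1 := (K.subgroupOf H).card_mul_index
    rw [Subgroup.index, mul_comm] at h1
    rw [← h1]
    congr 1
    exact (Nat.card_congr (Subgroup.subgroupOfEquivOfLe hKH).toEquiv).symm

variable {ρ : Representation F G M}

/-- Schur's lemma for the relative traces -/
lemma scalar_of_fixed [IsAlgClosed F] [FiniteDimensional F M] (hρ : ρ.IsIrreducible)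
    {θ : Module.End F M} (h : Fixed (A := Module.End F M) ρ ⊤ θ) :
    ∃ c : F, θ = c • (1 : Module.End F M) := by
  rw [fixed_iff] at h
  have hnt : Nontrivial (Subrepresentation ρ) := hρ.toNontrivial
  have hM : Nontrivial M := by
    by_contra hM
    rw [not_nontrivial_iff_subsingleton] at hM
    obtain ⟨x, y, hxy⟩ := hnt
    apply hxy
    apply Subrepresentation.toSubmodule_injective
    exact Subsingleton.elim _ _
  obtain ⟨c, hc⟩ := Module.End.exists_eigenvalue θ
  refine ⟨c, ?_⟩
  let E : Subrepresentation ρ :=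
    { toSubmodule := Module.End.eigenspace θ c
      apply_mem_toSubmodule := fun g v hv => by
        rw [Module.End.mem_eigenspace_iff] at hv ⊢
        rw [h g (Subgroup.mem_top g), hv, map_smul] }
  have hE : E ≠ ⊥ := by
    intro h0
    apply hc
    exact congrArg Subrepresentation.toSubmodule h0
  have hE' : E = ⊤ := (hρ.eq_bot_or_eq_top E).resolve_left hE
  have hE'' : Module.End.eigenspace θ c = ⊤ := congrArg Subrepresentation.toSubmodule hE'
  apply LinearMap.ext
  intro x
  have h1 : x ∈ Module.End.eigenspace θ c := by rw [hE'']; trivial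
  rw [Module.End.mem_eigenspace_iff] at h1
  rw [h1, LinearMap.smul_apply, Module.End.one_apply]

/-- If the identity of a simple module is a sum of relative traces, then one of the subgroups is
sufficient. -/
lemma star [Finite G] [IsAlgClosed F] [FiniteDimensional F M] (hρ : ρ.IsIrreducible)
    {Q : Subgroup G} (hQ : IsRelProj ρ Q) {ι : Type*} [Fintype ι] (R : ι → Subgroup G)
    (s : ι → Finset G) (c : ι → Module.End F M)
    (hR : ∀ j, R j ≤ Q ∧ IsTransversal (R j) Q (s j) ∧ Fixed (A := Module.End F M) ρ (R j) (c j))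
    (hsum : ∑ j, ∑ y ∈ s j, cj (A := Module.End F M) ρ y (c j) = 1) :
    ∃ j, IsRelProj ρ (R j) := by
  classical
  cases nonempty_fintype G
  obtain ⟨θ, hθ, h1⟩ := isRelProj_iff.1 hQ
  have hnt : Nontrivial (Subrepresentation ρ) := hρ.toNontrivial
  have hM : Nontrivial M := by
    by_contra hM
    rw [not_nontrivial_iff_subsingleton] at hM
    obtain ⟨x, y, hxy⟩ := hnt
    apply hxy
    apply Subrepresentation.toSubmodule_injective
    exact Subsingleton.elim _ _
  have h2 : (1 : Module.End F M) = ∑ j, tr (A := Module.End F M) ρ (R j) (θ * c j) := by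
    rw [← h1]
    have e1 : θ = ∑ j, ∑ y ∈ s j, cj (A := Module.End F M) ρ y (θ * c j) := by
      have e2 : ∀ j, ∑ y ∈ s j, cj (A := Module.End F M) ρ y (θ * c j) =
          θ * ∑ y ∈ s j, cj (A := Module.End F M) ρ y (c j) := by
        intro j
        rw [Finset.mul_sum]
        apply Finset.sum_congr rfl
        intro y hy
        rw [map_mul, hθ y ((hR j).2.1.1 y hy)]
      rw [Finset.sum_congr rfl fun j _ => e2 j, ← Finset.mul_sum, hsum, mul_one]
    conv_lhs => rw [e1]
    rw [tr_sum]
    apply Finset.sum_congr rfl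
    intro j _
    exact tr_trans (hR j).1 (hR j).2.1 ((hθ.mono (hR j).1).mul (hR j).2.2)
  obtain ⟨j, hj⟩ : ∃ j, tr (A := Module.End F M) ρ (R j) (θ * c j) ≠ 0 := by
    by_contra hcon
    simp only [not_exists, not_not] at hcon
    rw [Finset.sum_congr rfl fun j _ => hcon j, Finset.sum_const_zero] at h2
    exact one_ne_zero h2
  refine ⟨j, isRelProj_iff.2 ?_⟩
  have hfix : Fixed (A := Module.End F M) ρ (R j) (θ * c j) :=
    (hθ.mono (hR j).1).mul (hR j).2.2
  obtain ⟨x, hx⟩ := scalar_of_fixed hρ (fixed_tr hfix ⊤)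
  have hx0 : x ≠ 0 := by
    rintro rfl
    rw [zero_smul] at hx
    exact hj hx
  refine ⟨x⁻¹ • (θ * c j), ?_, ?_⟩
  · rw [fixed_iff] at hfix ⊢
    intro h hh y
    rw [LinearMap.smul_apply, LinearMap.smul_apply, hfix h hh, map_smul]
  · have e1 : tr (A := Module.End F M) ρ (R j) (x⁻¹ • (θ * c j)) =
        x⁻¹ • tr (A := Module.End F M) ρ (R j) (θ * c j) := by
      rw [tr, tr, Finset.smul_sum]
      apply Finset.sum_congr rfl
      intro q _
      rw [cj_apply, cj_apply, mul_smul_comm, smul_mul_assoc]
    rw [e1, hx, smul_smul, inv_mul_cancel₀ hx0, one_smul]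

end Pool.Agent.TH12.Puig
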